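import Pool.Agent.P.MP_2cea5e_gt.Calc

/-!
Charts of the fan in logarithmic coordinates and classes of functions with controlled
behaviour at the boundary divisor.
-/

open scoped ContDiff

noncomputable section

namespace Pool.Agent.P.MP_2cea5e_gt

/-- A chart: the rows `(a,b)`, `(c,d)` give `ζ₁ = log |z₁|²`, `ζ₂ = log |z₂|²`. -/
structure Ch where
  a : ℝ
  b : ℝ
  c : ℝ
  d : ℝ
  det : (a * d - b * c) ^ 2 = 1

namespace Ch

variable (κ : Ch)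

def dt : ℝ := κ.a * κ.d - κ.b * κ.c
def z1 : X → ℝ := Li κ.a κ.b
def z2 : X → ℝ := Li κ.c κ.d
/-- The dual frame. -/
def n1 : X := (0, κ.dt * κ.d, -(κ.dt * κ.c))
def n2 : X := (0, -(κ.dt * κ.b), κ.dt * κ.a)
/-- The point `(s, |z₁|, |z₂|)`. -/
def pt (p : X) : X := (p.1, Real.exp (κ.z1 p / 2), Real.exp (κ.z2 p / 2))
/-- The closed cone of the chart (all times). -/
def cone (p : X) : Prop := κ.z1 p ≤ 0 ∧ κ.z2 p ≤ 0

theorem dt_sq : κ.dt * κ.dt = 1 := by have := κ.det; unfold dt; nlinarith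
theorem sm_z1 : Sm κ.z1 := sm_Li _ _
theorem sm_z2 : Sm κ.z2 := sm_Li _ _
theorem D_z1 (v : X) : D v κ.z1 = K (κ.z1 v) := D_Li v _ _
theorem D_z2 (v : X) : D v κ.z2 = K (κ.z2 v) := D_Li v _ _
theorem z1_n1 : κ.z1 κ.n1 = 1 := by
  have := κ.dt_sq; simp only [z1, n1, Li_apply, dt] at *; linarith
theorem z1_n2 : κ.z1 κ.n2 = 0 := by simp only [z1, n2, Li_apply]; ring
theorem z2_n1 : κ.z2 κ.n1 = 0 := by simp only [z2, n1, Li_apply]; ring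
theorem z2_n2 : κ.z2 κ.n2 = 1 := by
  have := κ.dt_sq; simp only [z2, n2, Li_apply, dt] at *; linarith
theorem z1_e0 : κ.z1 e0 = 0 := by simp [z1, Li_apply, e0]
theorem z2_e0 : κ.z2 e0 = 0 := by simp [z2, Li_apply, e0]
theorem z1_add (p v : X) (r : ℝ) : κ.z1 (p + r • v) = κ.z1 p + r * κ.z1 v := by
  simp [z1, Li_apply]; ring
theorem z2_add (p v : X) (r : ℝ) : κ.z2 (p + r • v) = κ.z2 p + r * κ.z2 v := by
  simp [z2, Li_apply]; ring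

theorem decomp (v : X) : v = v.1 • e0 + κ.z1 v • κ.n1 + κ.z2 v • κ.n2 := by
  have h := κ.dt_sq
  ext
  · simp [e0, n1, n2]
  · simp only [e0, n1, n2, z1, z2, Li_apply, Prod.snd_add, Prod.fst_add, Prod.smul_snd,
      Prod.smul_fst, smul_eq_mul, dt] at h ⊢
    linear_combination (-v.2.1) * h
  · simp only [e0, n1, n2, z1, z2, Li_apply, Prod.snd_add, Prod.smul_snd, smul_eq_mul, dt] at h ⊢
    linear_combination (-v.2.2) * h

theorem D_decomp (v : X) (f : X → ℝ) :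
    D v f = K v.1 * D e0 f + K (κ.z1 v) * D κ.n1 f + K (κ.z2 v) * D κ.n2 f := by
  funext p
  simp only [D, Pi.add_apply, Pi.mul_apply, K_apply]
  conv_lhs => rw [κ.decomp v]
  simp only [map_add, map_smul, smul_eq_mul]

theorem e1_eq : e1 = κ.a • κ.n1 + κ.c • κ.n2 := by
  have := κ.decomp e1
  simpa [e1, z1, z2, Li_apply] using this

theorem e2_eq : e2 = κ.b • κ.n1 + κ.d • κ.n2 := by
  have := κ.decomp e2
  simpa [e2, z1, z2, Li_apply] using this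

theorem DD_eq {f g : X → ℝ} (hf : Sm f) (hg : Sm g) : DD f g = DDv κ.n1 κ.n2 f g := by
  unfold DD
  rw [κ.e1_eq, κ.e2_eq, DDv_change _ _ _ _ _ _ hf hg]
  have : (κ.a * κ.d - κ.c * κ.b) ^ 2 = 1 := by rw [← κ.det]; ring
  rw [this]; funext p; simp

theorem BB_eq {f : X → ℝ} (hf : Sm f) (g h : X → ℝ) : BB f g h = BBv κ.n1 κ.n2 f g h := by
  unfold BB
  rw [κ.e1_eq, κ.e2_eq, BBv_change _ _ _ _ _ _ hf]
  have : (κ.a * κ.d - κ.c * κ.b) ^ 2 = 1 := by rw [← κ.det]; ring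
  rw [this]; funext p; simp

theorem W_eq {f : X → ℝ} (hf : Sm f) : W f =
    D κ.n1 (D κ.n1 f) * D κ.n2 (D κ.n2 f) - D κ.n1 (D κ.n2 f) * D κ.n1 (D κ.n2 f) := by
  have h1 := DD_self f
  rw [κ.DD_eq hf hf] at h1
  funext p
  have := congrFun h1 p
  simp only [DDv, Pi.add_apply, Pi.sub_apply, Pi.mul_apply, K_apply] at this ⊢
  linarith

theorem sm_pt : ContDiff ℝ ∞ κ.pt := by
  have h1 := κ.sm_z1
  have h2 := κ.sm_z2
  unfold pt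
  exact contDiff_fst.prodMk (((h1.div_const 2).exp).prodMk ((h2.div_const 2).exp))

theorem sm_comp {k : X → ℝ} (hk : Sm k) : Sm (k ∘ κ.pt) := ContDiff.comp hk κ.sm_pt

theorem D_comp {k : X → ℝ} (hk : Sm k) (v p : X) :
    D v (k ∘ κ.pt) p = v.1 * D e0 k (κ.pt p) +
      κ.z1 v / 2 * (κ.pt p).2.1 * D e1 k (κ.pt p) + κ.z2 v / 2 * (κ.pt p).2.2 * D e2 k (κ.pt p) := by
  have h0 := hasDerivAt_line (κ.sm_comp hk) p v 0
  have hz1 : HasDerivAt (fun r : ℝ => Real.exp (κ.z1 (p + r • v) / 2))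
      (κ.z1 v / 2 * (κ.pt p).2.1) 0 := by
    have := ((hasDerivAt_line κ.sm_z1 p v 0).div_const 2).exp
    simp only [D_z1, K_apply, zero_smul, add_zero] at this
    convert this using 1
    simp only [pt]; ring
  have hz2 : HasDerivAt (fun r : ℝ => Real.exp (κ.z2 (p + r • v) / 2))
      (κ.z2 v / 2 * (κ.pt p).2.2) 0 := by
    have := ((hasDerivAt_line κ.sm_z2 p v 0).div_const 2).exp
    simp only [D_z2, K_apply, zero_smul, add_zero] at this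
    convert this using 1
    simp only [pt]; ring
  have hz0 : HasDerivAt (fun r : ℝ => (p + r • v).1) v.1 0 := by
    simpa using ((hasDerivAt_id (0:ℝ)).mul_const v.1).const_add p.1
  have hc : HasDerivAt (fun r : ℝ => κ.pt (p + r • v))
      ((v.1, κ.z1 v / 2 * (κ.pt p).2.1, κ.z2 v / 2 * (κ.pt p).2.2) : X) 0 :=
    hz0.prodMk (hz1.prodMk hz2)
  have hk' : HasFDerivAt k (fderiv ℝ k (κ.pt p)) (κ.pt (p + (0:ℝ) • v)) := by
    simpa using (hk.diff (κ.pt p)).hasFDerivAt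
  have h1 := hk'.comp_hasDerivAt (0:ℝ) hc
  have h2 := h0.unique h1
  simp only [zero_smul, add_zero] at h2
  rw [h2]
  have h3 := congrFun (D_dir3 ((v.1, κ.z1 v / 2 * (κ.pt p).2.1, κ.z2 v / 2 * (κ.pt p).2.2) : X) k)
    (κ.pt p)
  simpa [D] using h3

/-- Exact class: `f = e^{a ζ₁ + b ζ₂} k(s, |z₁|, |z₂|)` with `k` smooth. -/
def S (a b : ℝ) (f : X → ℝ) : Prop :=
  ∃ k : X → ℝ, Sm k ∧ ∀ p, f p = Real.exp (a * κ.z1 p + b * κ.z2 p) * k (κ.pt p)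

/-- Bound class on the cone, locally uniformly in time. -/
def O (a b : ℝ) (f : X → ℝ) : Prop :=
  ∀ M : ℝ, ∃ C : ℝ, ∀ p : X, |p.1| ≤ M → κ.cone p →
    |f p| ≤ C * Real.exp (a * κ.z1 p + b * κ.z2 p)

/-- Bound class with one derivative. -/
def O1 (a b : ℝ) (f : X → ℝ) : Prop := Sm f ∧ κ.O a b f ∧ ∀ v, κ.O a b (D v f)

variable {κ} {a b a' b' : ℝ} {f g : X → ℝ}

theorem S.eq (h : κ.S a b f) :
    ∃ k : X → ℝ, Sm k ∧ f = Ex (K a * κ.z1 + K b * κ.z2) * (k ∘ κ.pt) := by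
  obtain ⟨k, hk, h⟩ := h
  exact ⟨k, hk, funext h⟩

theorem sm_lin (κ : Ch) (a b : ℝ) : Sm (K a * κ.z1 + K b * κ.z2) :=
  sm_add (sm_mul (sm_K _) κ.sm_z1) (sm_mul (sm_K _) κ.sm_z2)

theorem D_lin (κ : Ch) (a b : ℝ) (v : X) :
    D v (K a * κ.z1 + K b * κ.z2) = K (a * κ.z1 v + b * κ.z2 v) := by
  rw [D_add _ (sm_mul (sm_K _) κ.sm_z1) (sm_mul (sm_K _) κ.sm_z2), D_mul _ (sm_K _) κ.sm_z1,
    D_mul _ (sm_K _) κ.sm_z2, D_K, D_K, D_z1, D_z2]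
  funext p; simp

theorem S.sm (h : κ.S a b f) : Sm f := by
  obtain ⟨k, hk, rfl⟩ := h.eq
  exact sm_mul (sm_Ex (κ.sm_lin a b)) (κ.sm_comp hk)

theorem S.cast (h : κ.S a b f) (ha : a = a') (hb : b = b') : κ.S a' b' f := ha ▸ hb ▸ h
theorem S.congr (h : κ.S a b f) (hfg : f = g) : κ.S a b g := hfg ▸ h

theorem S_comp (κ : Ch) {k : X → ℝ} (hk : Sm k) : κ.S 0 0 (k ∘ κ.pt) :=
  ⟨k, hk, fun p => by simp⟩
theorem S_K (κ : Ch) (c : ℝ) : κ.S 0 0 (K c) := ⟨K c, sm_K c, fun p => by simp⟩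
theorem S_one (κ : Ch) : κ.S 0 0 1 := κ.S_K 1
theorem S_zero (κ : Ch) (a b : ℝ) : κ.S a b 0 := ⟨0, sm_zero, fun p => by simp⟩
theorem S_Tm (κ : Ch) {τ : ℝ → ℝ} (hτ : ContDiff ℝ ∞ τ) : κ.S 0 0 (Tm τ) :=
  ⟨Tm τ, sm_Tm hτ, fun p => by simp [Tm_apply, pt]⟩

theorem S.add (hf : κ.S a b f) (hg : κ.S a b g) : κ.S a b (f + g) := by
  obtain ⟨k, hk, h⟩ := hf
  obtain ⟨l, hl, h'⟩ := hg
  exact ⟨k + l, sm_add hk hl, fun p => by simp only [Pi.add_apply, h, h']; ring⟩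

theorem S.neg (hf : κ.S a b f) : κ.S a b (-f) := by
  obtain ⟨k, hk, h⟩ := hf
  exact ⟨-k, sm_neg hk, fun p => by simp only [Pi.neg_apply, h]; ring⟩

theorem S.sub (hf : κ.S a b f) (hg : κ.S a b g) : κ.S a b (f - g) := by
  rw [sub_eq_add_neg]; exact hf.add hg.neg

theorem S.mul (hf : κ.S a b f) (hg : κ.S a' b' g) : κ.S (a + a') (b + b') (f * g) := by
  obtain ⟨k, hk, h⟩ := hf
  obtain ⟨l, hl, h'⟩ := hg
  refine ⟨k * l, sm_mul hk hl, fun p => ?_⟩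
  simp only [Pi.mul_apply, h, h']
  rw [show (a + a') * κ.z1 p + (b + b') * κ.z2 p =
    (a * κ.z1 p + b * κ.z2 p) + (a' * κ.z1 p + b' * κ.z2 p) by ring,
    Real.exp_add (a * κ.z1 p + b * κ.z2 p)]
  ring

theorem S.mul0 (hf : κ.S 0 0 f) (hg : κ.S a b g) : κ.S a b (f * g) :=
  (hf.mul hg).cast (zero_add _) (zero_add _)
theorem S.Kmul (c : ℝ) (hg : κ.S a b g) : κ.S a b (K c * g) := (κ.S_K c).mul0 hg

theorem S.low1 (hf : κ.S (a + 1 / 2) b f) : κ.S a b f := by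
  obtain ⟨k, hk, h⟩ := hf
  refine ⟨Li 1 0 * k, sm_mul (sm_Li _ _) hk, fun p => ?_⟩
  simp only [Pi.mul_apply, h, Li_apply, pt]
  rw [show (a + 1 / 2) * κ.z1 p + b * κ.z2 p = (a * κ.z1 p + b * κ.z2 p) + κ.z1 p / 2 by ring,
    Real.exp_add]
  ring

theorem S.low2 (hf : κ.S a (b + 1 / 2) f) : κ.S a b f := by
  obtain ⟨k, hk, h⟩ := hf
  refine ⟨Li 0 1 * k, sm_mul (sm_Li _ _) hk, fun p => ?_⟩
  simp only [Pi.mul_apply, h, Li_apply, pt]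
  rw [show a * κ.z1 p + (b + 1 / 2) * κ.z2 p = (a * κ.z1 p + b * κ.z2 p) + κ.z2 p / 2 by ring,
    Real.exp_add]
  ring

/-- Lowering by natural multiples of one half. -/
theorem S.low (i j : ℕ) (hf : κ.S a b f) (ha : a = a' + i / 2) (hb : b = b' + j / 2) :
    κ.S a' b' f := by
  subst ha hb
  induction i generalizing a' with
  | zero =>
    induction j generalizing b' with
    | zero => exact hf.cast (by simp) (by simp)
    | succ j ih => exact (ih (b' := b' + 1 / 2) (hf.cast rfl (by push_cast; ring))).low2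
  | succ i ih => exact (ih (a' := a' + 1 / 2) (hf.cast (by push_cast; ring) rfl)).low1

theorem S.D_eq {k : X → ℝ} (hk : Sm k) (a b : ℝ) (v p : X) :
    D v (Ex (K a * κ.z1 + K b * κ.z2) * (k ∘ κ.pt)) p =
      Real.exp (a * κ.z1 p + b * κ.z2 p) * ((a * κ.z1 v + b * κ.z2 v) * k (κ.pt p) +
        (v.1 * D e0 k (κ.pt p) + κ.z1 v / 2 * (κ.pt p).2.1 * D e1 k (κ.pt p) +
          κ.z2 v / 2 * (κ.pt p).2.2 * D e2 k (κ.pt p))) := by
  rw [D_mul v (sm_Ex (κ.sm_lin a b)) (κ.sm_comp hk), D_Ex v (κ.sm_lin a b), D_lin]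
  simp only [Pi.add_apply, Pi.mul_apply, Ex_apply, K_apply, D_comp κ hk, Function.comp]
  ring

theorem S.D (hf : κ.S a b f) (v : X) : κ.S a b (D v f) := by
  obtain ⟨k, hk, rfl⟩ := hf.eq
  refine ⟨K (a * κ.z1 v + b * κ.z2 v) * k + (K v.1 * MP_2cea5e_gt.D e0 k +
    K (κ.z1 v / 2) * Li 1 0 * MP_2cea5e_gt.D e1 k + K (κ.z2 v / 2) * Li 0 1 * MP_2cea5e_gt.D e2 k),
    ?_, fun p => ?_⟩
  · repeat' with_reducible
      first | assumption | apply sm_add | apply sm_mul | apply sm_D | apply sm_K | apply sm_Li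
  · rw [S.D_eq hk]; simp [Li_apply]

/-- Gain of one half in the direction `n1`. -/
theorem S.gain1 (hf : κ.S 0 b f) : κ.S (1 / 2) b (MP_2cea5e_gt.D κ.n1 f) := by
  obtain ⟨k, hk, rfl⟩ := hf.eq
  refine ⟨K (1 / 2) * MP_2cea5e_gt.D e1 k, sm_mul (sm_K _) (sm_D _ hk), fun p => ?_⟩
  rw [S.D_eq hk, z1_n1, z2_n1]
  simp only [Pi.mul_apply, K_apply, n1, pt]
  rw [show 1 / 2 * κ.z1 p + b * κ.z2 p = (0 * κ.z1 p + b * κ.z2 p) + κ.z1 p / 2 by ring,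
    Real.exp_add (0 * κ.z1 p + b * κ.z2 p)]
  ring

theorem S.gain2 (hf : κ.S a 0 f) : κ.S a (1 / 2) (MP_2cea5e_gt.D κ.n2 f) := by
  obtain ⟨k, hk, rfl⟩ := hf.eq
  refine ⟨K (1 / 2) * MP_2cea5e_gt.D e2 k, sm_mul (sm_K _) (sm_D _ hk), fun p => ?_⟩
  rw [S.D_eq hk, z1_n2, z2_n2]
  simp only [Pi.mul_apply, K_apply, n2, pt]
  rw [show a * κ.z1 p + 1 / 2 * κ.z2 p = (a * κ.z1 p + 0 * κ.z2 p) + κ.z2 p / 2 by ring,
    Real.exp_add (a * κ.z1 p + 0 * κ.z2 p)]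
  ring

/-- Uniform form of the gain: `χ = 0` (exponent zero, gain) or `χ = 1` (no gain). -/
theorem S.gain1' {χ : ℝ} (hf : κ.S a b f) (hχ : (χ = 0 ∧ a = 0) ∨ χ = 1) :
    κ.S (a + (1 - χ) / 2) b (MP_2cea5e_gt.D κ.n1 f) := by
  rcases hχ with ⟨rfl, rfl⟩ | rfl
  · exact hf.gain1.cast (by ring) rfl
  · exact (hf.D _).cast (by ring) rfl

theorem S.gain2' {χ : ℝ} (hf : κ.S a b f) (hχ : (χ = 0 ∧ b = 0) ∨ χ = 1) :
    κ.S a (b + (1 - χ) / 2) (MP_2cea5e_gt.D κ.n2 f) := by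
  rcases hχ with ⟨rfl, rfl⟩ | rfl
  · exact hf.gain2.cast rfl (by ring)
  · exact (hf.D _).cast rfl (by ring)

theorem S.h11 (hf : κ.S 0 0 f) :
    κ.S (1 / 2) 0 (MP_2cea5e_gt.D κ.n1 (MP_2cea5e_gt.D κ.n1 f)) := hf.gain1.D _
theorem S.h22 (hf : κ.S 0 0 f) :
    κ.S 0 (1 / 2) (MP_2cea5e_gt.D κ.n2 (MP_2cea5e_gt.D κ.n2 f)) := hf.gain2.D _
theorem S.h12 (hf : κ.S 0 0 f) :
    κ.S (1 / 2) (1 / 2) (MP_2cea5e_gt.D κ.n1 (MP_2cea5e_gt.D κ.n2 f)) := hf.gain2.gain1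

theorem S.ex (hf : κ.S 0 0 f) (a b : ℝ) : κ.S a b (Ex (K a * κ.z1 + K b * κ.z2 + f)) := by
  obtain ⟨k, hk, h⟩ := hf
  refine ⟨Ex k, sm_Ex hk, fun p => ?_⟩
  simp [Ex_apply, h, Real.exp_add]

/-- Positive exact class: the smooth factor is positive everywhere. -/
def SP (κ : Ch) (a b : ℝ) (f : X → ℝ) : Prop :=
  ∃ k : X → ℝ, Sm k ∧ (∀ q, 0 < k q) ∧ ∀ p, f p = Real.exp (a * κ.z1 p + b * κ.z2 p) * k (κ.pt p)

theorem SP.toS (h : κ.SP a b f) : κ.S a b f := let ⟨k, hk, _, h⟩ := h; ⟨k, hk, h⟩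

theorem SP.iv (h : κ.SP a b f) : κ.S (-a) (-b) (Iv f) := by
  obtain ⟨k, hk, h0, h⟩ := h
  refine ⟨Iv k, sm_Iv hk fun q => (h0 q).ne', fun p => ?_⟩
  simp only [Iv_apply, h, mul_inv, ← Real.exp_neg]
  congr 2; ring

theorem SP.lg (h : κ.SP a b f) : κ.S 0 0 (Lg f - (K a * κ.z1 + K b * κ.z2)) := by
  obtain ⟨k, hk, h0, h⟩ := h
  refine ⟨Lg k, sm_Lg hk fun q => (h0 q).ne', fun p => ?_⟩
  simp only [Pi.sub_apply, Pi.add_apply, Pi.mul_apply, K_apply, Lg_apply, h]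
  rw [Real.log_mul (Real.exp_pos _).ne' (h0 _).ne', Real.log_exp]
  simp

/-! ### Bound classes -/

theorem pt_mem {M : ℝ} {p : X} (hp : |p.1| ≤ M) (hc : κ.cone p) :
    κ.pt p ∈ (Set.Icc (-M) M ×ˢ Set.Icc (0:ℝ) 1 ×ˢ Set.Icc (0:ℝ) 1 : Set X) := by
  refine ⟨abs_le.mp hp, ⟨(Real.exp_pos _).le, ?_⟩, ⟨(Real.exp_pos _).le, ?_⟩⟩
  · exact Real.exp_le_one_iff.mpr (by linarith [hc.1])
  · exact Real.exp_le_one_iff.mpr (by linarith [hc.2])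

theorem S.toO (h : κ.S a b f) : κ.O a b f := by
  obtain ⟨k, hk, h⟩ := h
  intro M
  obtain ⟨C, hC⟩ := ((isCompact_Icc.prod (isCompact_Icc.prod isCompact_Icc)) :
    IsCompact (Set.Icc (-M) M ×ˢ Set.Icc (0:ℝ) 1 ×ˢ Set.Icc (0:ℝ) 1 : Set X)).exists_bound_of_continuousOn
    hk.cont.continuousOn
  refine ⟨C, fun p hp hc => ?_⟩
  rw [h, abs_mul, abs_of_pos (Real.exp_pos _), mul_comm]
  exact mul_le_mul_of_nonneg_right (hC _ (pt_mem hp hc)) (Real.exp_pos _).le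

/-- Lower bound for a positive exact class. -/
theorem SP.lower (h : κ.SP a b f) (M : ℝ) : ∃ c : ℝ, 0 < c ∧ ∀ p : X, |p.1| ≤ M → κ.cone p →
    c * Real.exp (a * κ.z1 p + b * κ.z2 p) ≤ f p := by
  obtain ⟨C, hC⟩ := h.iv.toO M
  obtain ⟨k, hk, h0, h⟩ := h
  refine ⟨(max C 1)⁻¹, by positivity, fun p hp hc => ?_⟩
  have h1 := hC p hp hc
  have hf : 0 < f p := by rw [h]; exact mul_pos (Real.exp_pos _) (h0 _)
  rw [Iv_apply, abs_of_pos (inv_pos.mpr hf),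
    show -a * κ.z1 p + -b * κ.z2 p = -(a * κ.z1 p + b * κ.z2 p) by ring, Real.exp_neg] at h1
  have he := Real.exp_pos (a * κ.z1 p + b * κ.z2 p)
  have hm : 0 < max C 1 := by positivity
  have h2 : (f p)⁻¹ ≤ max C 1 * (Real.exp (a * κ.z1 p + b * κ.z2 p))⁻¹ :=
    h1.trans (mul_le_mul_of_nonneg_right (le_max_left _ _) (by positivity))
  rw [inv_mul_le_iff₀ hm]
  have h3 := mul_le_mul_of_nonneg_left h2
    (mul_pos hf he).le
  field_simp at h3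
  linarith

theorem S.toO1 (h : κ.S a b f) : κ.O1 a b f := ⟨h.sm, h.toO, fun v => (h.D v).toO⟩

theorem O.nn (h : κ.O a b f) (M : ℝ) : ∃ C : ℝ, 0 ≤ C ∧ ∀ p : X, |p.1| ≤ M → κ.cone p →
    |f p| ≤ C * Real.exp (a * κ.z1 p + b * κ.z2 p) := by
  obtain ⟨C, hC⟩ := h M
  exact ⟨max C 0, le_max_right _ _, fun p hp hc => (hC p hp hc).trans
    (mul_le_mul_of_nonneg_right (le_max_left _ _) (Real.exp_pos _).le)⟩

theorem O.mono (h : κ.O a b f) (ha : a' ≤ a) (hb : b' ≤ b) : κ.O a' b' f := by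
  intro M
  obtain ⟨C, h0, hC⟩ := h.nn M
  refine ⟨C, fun p hp hc => (hC p hp hc).trans (mul_le_mul_of_nonneg_left ?_ h0)⟩
  apply Real.exp_le_exp.mpr
  nlinarith [hc.1, hc.2]

theorem O.add (hf : κ.O a b f) (hg : κ.O a b g) : κ.O a b (f + g) := by
  intro M
  obtain ⟨C, hC⟩ := hf M
  obtain ⟨C', hC'⟩ := hg M
  refine ⟨C + C', fun p hp hc => ?_⟩
  have := abs_add_le (f p) (g p)
  have h1 := hC p hp hc
  have h2 := hC' p hp hc
  simp only [Pi.add_apply]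
  linarith

theorem O.neg (hf : κ.O a b f) : κ.O a b (-f) := by
  intro M
  obtain ⟨C, hC⟩ := hf M
  exact ⟨C, fun p hp hc => by simpa using hC p hp hc⟩

theorem O.sub (hf : κ.O a b f) (hg : κ.O a b g) : κ.O a b (f - g) := by
  rw [sub_eq_add_neg]; exact hf.add hg.neg

theorem O.mul (hf : κ.O a b f) (hg : κ.O a' b' g) : κ.O (a + a') (b + b') (f * g) := by
  intro M
  obtain ⟨C, h0, hC⟩ := hf.nn M
  obtain ⟨C', hC'⟩ := hg M
  refine ⟨C * C', fun p hp hc => ?_⟩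
  rw [Pi.mul_apply, abs_mul, show (a + a') * κ.z1 p + (b + b') * κ.z2 p =
    (a * κ.z1 p + b * κ.z2 p) + (a' * κ.z1 p + b' * κ.z2 p) by ring, Real.exp_add]
  calc |f p| * |g p| ≤ (C * Real.exp (a * κ.z1 p + b * κ.z2 p)) *
        (C' * Real.exp (a' * κ.z1 p + b' * κ.z2 p)) :=
        mul_le_mul (hC p hp hc) (hC' p hp hc) (abs_nonneg _) (by positivity)
    _ = _ := by ring

theorem O1.mono (h : κ.O1 a b f) (ha : a' ≤ a) (hb : b' ≤ b) : κ.O1 a' b' f :=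
  ⟨h.1, h.2.1.mono ha hb, fun v => (h.2.2 v).mono ha hb⟩

theorem O1.add (hf : κ.O1 a b f) (hg : κ.O1 a b g) : κ.O1 a b (f + g) :=
  ⟨sm_add hf.1 hg.1, hf.2.1.add hg.2.1, fun v => by
    rw [D_add v hf.1 hg.1]; exact (hf.2.2 v).add (hg.2.2 v)⟩

theorem O1.neg (hf : κ.O1 a b f) : κ.O1 a b (-f) :=
  ⟨sm_neg hf.1, hf.2.1.neg, fun v => by rw [D_neg]; exact (hf.2.2 v).neg⟩

theorem O1.sub (hf : κ.O1 a b f) (hg : κ.O1 a b g) : κ.O1 a b (f - g) := by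
  rw [sub_eq_add_neg]; exact hf.add hg.neg

theorem O1.mul (hf : κ.O1 a b f) (hg : κ.O1 a' b' g) : κ.O1 (a + a') (b + b') (f * g) :=
  ⟨sm_mul hf.1 hg.1, hf.2.1.mul hg.2.1, fun v => by
    rw [D_mul v hf.1 hg.1]; exact ((hf.2.2 v).mul hg.2.1).add (hf.2.1.mul (hg.2.2 v))⟩

theorem abs_le_exp {ε x : ℝ} (hε : 0 < ε) (hx : x ≤ 0) : |x| ≤ ε⁻¹ * Real.exp (-ε * x) := by
  rw [abs_of_nonpos hx, le_inv_mul_iff₀ hε]
  have := Real.add_one_le_exp (-ε * x)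
  linarith

theorem O1_z1 (κ : Ch) {ε : ℝ} (hε : 0 < ε) : κ.O1 (-ε) 0 κ.z1 :=
  ⟨κ.sm_z1, fun _ => ⟨ε⁻¹, fun p _ hc => by simpa using abs_le_exp hε hc.1⟩, fun v => by
    rw [D_z1]; exact (κ.S_K _).toO.mono (by linarith) le_rfl⟩

theorem O1_z2 (κ : Ch) {ε : ℝ} (hε : 0 < ε) : κ.O1 0 (-ε) κ.z2 :=
  ⟨κ.sm_z2, fun _ => ⟨ε⁻¹, fun p _ hc => by simpa using abs_le_exp hε hc.2⟩, fun v => by
    rw [D_z2]; exact (κ.S_K _).toO.mono le_rfl (by linarith)⟩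

end Ch

end Pool.Agent.P.MP_2cea5e_gt
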