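import Pool.Agent.P.MP_2cea5e_gt.Boch

/-!
Pointwise evolution identities along the flow.
-/

open scoped ContDiff

noncomputable section

namespace Pool.Agent.P.MP_2cea5e_gt

/-- The flow equation in logarithmic coordinates, in a reparametrised time. -/
structure Eqn (φ : X → ℝ) (τ : ℝ → ℝ) (c : ℝ) : Prop where
  pot : Pot φ
  smτ : ContDiff ℝ ∞ τ
  τpos : ∀ s, 0 < τ s
  eq : D e0 φ = Tm τ * (RR φ - K c)

variable {φ : X → ℝ} {τ : ℝ → ℝ} {c : ℝ}

theorem D1_Tm (hτ : ContDiff ℝ ∞ τ) : D e1 (Tm τ) = 0 := D_Tm_sp rfl hτ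
theorem D2_Tm (hτ : ContDiff ℝ ∞ τ) : D e2 (Tm τ) = 0 := D_Tm_sp rfl hτ

theorem DTm_mul {v : X} (hv : v.1 = 0) (hτ : ContDiff ℝ ∞ τ) {f : X → ℝ} (hf : Sm f) :
    D v (Tm τ * f) = Tm τ * D v f := by
  rw [D_mul v (sm_Tm hτ) hf, D_Tm_sp hv hτ]; simp

theorem Eqn.d1 (E : Eqn φ τ c) {v : X} (hv : v.1 = 0) : D e0 (D v φ) = Tm τ * D v (RR φ) := by
  rw [D_comm e0 v E.pot.sm, E.eq, DTm_mul hv E.smτ (sm_sub E.pot.smR (sm_K c)),
    D_sub v E.pot.smR (sm_K c), D_K, sub_zero]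

theorem Eqn.d2 (E : Eqn φ τ c) {u v : X} (hu : u.1 = 0) (hv : v.1 = 0) :
    D e0 (D u (D v φ)) = Tm τ * D u (D v (RR φ)) := by
  rw [D_comm e0 u (sm_D v E.pot.sm), E.d1 hv, DTm_mul hu E.smτ (sm_D v E.pot.smR)]

theorem Eqn.dW (E : Eqn φ τ c) : D e0 (W φ) = Tm τ * DD φ (RR φ) := by
  have hφ := E.pot.sm
  simp (disch := repeat' with_reducible (first | assumption | apply sm_mul | apply sm_D)) only
    [W, D_sub, D_mul]
  rw [E.d2 (u := e1) (v := e1) rfl rfl, E.d2 (u := e1) (v := e2) rfl rfl,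
    E.d2 (u := e2) (v := e2) rfl rfl]
  funext p
  simp only [DD, DDv, Pi.add_apply, Pi.sub_apply, Pi.mul_apply, K_apply]
  ring

theorem Eqn.dL (E : Eqn φ τ c) : D e0 (LL φ) = Tm τ * Lap φ (RR φ) := by
  rw [E.pot.D_L, E.dW, Lap, mul_assoc]

theorem Eqn.dL2 (E : Eqn φ τ c) {u v : X} (hu : u.1 = 0) (hv : v.1 = 0) :
    D e0 (D u (D v (LL φ))) = Tm τ * D u (D v (Lap φ (RR φ))) := by
  have hb := E.pot.smLap E.pot.smR
  rw [D_comm e0 u (sm_D v E.pot.smL), D_comm e0 v E.pot.smL, E.dL, DTm_mul hv E.smτ hb,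
    DTm_mul hu E.smτ (sm_D v hb)]

theorem Eqn.dR (E : Eqn φ τ c) : D e0 (RR φ) = Tm τ * (-(DD (LL φ) (RR φ) * iW φ) -
    Lap φ (Lap φ (RR φ)) - RR φ * Lap φ (RR φ)) := by
  have hφ := E.pot.sm
  have hL := E.pot.smL
  have hi := E.pot.smiW
  have h1 : D e0 (RR φ) = D e0 (-(DDv e1 e2 φ (LL φ) * iW φ)) := rfl
  rw [h1]
  simp (disch := repeat' with_reducible (first | assumption | apply sm_add | apply sm_sub | apply sm_mul | apply sm_D | apply sm_K)) only
    [DDv, D_neg, D_add, D_sub, D_mul, D_K, E.pot.D_iW]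
  rw [E.d2 (u := e1) (v := e1) rfl rfl, E.d2 (u := e1) (v := e2) rfl rfl,
    E.d2 (u := e2) (v := e2) rfl rfl, E.dL2 (u := e1) (v := e1) rfl rfl,
    E.dL2 (u := e1) (v := e2) rfl rfl, E.dL2 (u := e2) (v := e2) rfl rfl, E.dW]
  funext p
  have h2 : RR φ p = -(DD φ (LL φ) p * iW φ p) := rfl
  have h3 : Lap φ (RR φ) p = DD φ (RR φ) p * iW φ p := rfl
  have h4 : Lap φ (Lap φ (RR φ)) p = DD φ (Lap φ (RR φ)) p * iW φ p := rfl
  simp only [Pi.add_apply, Pi.sub_apply, Pi.mul_apply, Pi.neg_apply, K_apply, Pi.zero_apply]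
  rw [h4, h3]
  generalize Lap φ (RR φ) = b
  rw [h2]
  generalize RR φ = R
  simp only [DD, DDv, Pi.add_apply, Pi.sub_apply, Pi.mul_apply, K_apply]
  ring

theorem DD_comm (f g : X → ℝ) : DD f g = DD g f := by
  funext p; simp only [DD, DDv, Pi.add_apply, Pi.sub_apply, Pi.mul_apply, K_apply]; ring

theorem BB_comm (f g h : X → ℝ) : BB f g h = BB f h g := by
  funext p; simp only [BB, BBv, Pi.add_apply, Pi.sub_apply, Pi.mul_apply]; ring

theorem BB_one (f g : X → ℝ) : BB f g 1 = 0 := by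
  funext p; simp [BB, BBv, D_one]

theorem dv_one (f g : X → ℝ) : dv f g 1 = DD f g := by simp [dv, BB_one]

theorem BB_mul (f g : X → ℝ) {h k : X → ℝ} (hh : Sm h) (hk : Sm k) :
    BB f g (h * k) = BB f g h * k + h * BB f g k := by
  funext p
  simp only [BB, BBv, D_mul _ hh hk, Pi.add_apply, Pi.sub_apply, Pi.mul_apply]; ring

theorem BB_Ex (f g : X → ℝ) {h : X → ℝ} (hh : Sm h) : BB f g (Ex h) = Ex h * BB f g h := by
  funext p
  simp only [BB, BBv, D_Ex _ hh, Pi.add_apply, Pi.sub_apply, Pi.mul_apply]; ring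

theorem DD_Ex (f : X → ℝ) {h : X → ℝ} (hh : Sm h) :
    DD f (Ex h) = Ex h * (DD f h + BB f h h) := by
  have he := sm_Ex hh
  funext p
  simp (disch := repeat' with_reducible (first | assumption | apply sm_D)) only
    [DD, DDv, BB, BBv, D_Ex, D_mul]
  simp only [Pi.add_apply, Pi.sub_apply, Pi.mul_apply, K_apply]
  ring

theorem Pot.DD_eq (P : Pot φ) (f : X → ℝ) (p : X) : DD φ f p = Lap φ f p * W φ p := by
  have := P.W_iW p
  simp only [Lap, Pi.mul_apply]
  linear_combination (-DD φ f p) * this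

theorem Pot.BB_eq (P : Pot φ) (f g : X → ℝ) (p : X) : BB φ f g p = Gr φ f g p * W φ p := by
  have := P.W_iW p
  simp only [Gr, Pi.mul_apply]
  linear_combination (-BB φ f g p) * this

theorem Gr_comm (f g : X → ℝ) : Gr φ f g = Gr φ g f := by simp only [Gr, BB_comm φ f g]

/-- Evolution of the Calabi energy density. -/
theorem Eqn.dRRW (E : Eqn φ τ c) : D e0 (RR φ * RR φ * W φ) = Tm τ *
    (-(K 2 * SS φ (RR φ) 0 * W φ) +
      (-(K 2 * dv φ (RR φ) (Lap φ (RR φ))) + K 2 * dv (RR φ) (RR φ) 1 +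
      K 2 * dv φ (Gr φ (RR φ) (RR φ)) 1 - K 2 * dv (LL φ) (RR φ) (RR φ) -
      K 2 * dv φ (Lap φ (RR φ)) (RR φ) - dv φ (RR φ) (RR φ * RR φ))) := by
  have hR := E.pot.smR
  rw [D_mul _ (sm_mul hR hR) E.pot.smW, D_mul _ hR hR, E.dR, E.dW, bochner E.pot hR, dv_one,
    dv_one]
  funext p
  have hw := E.pot.W_iW p
  simp only [dv, BB_mul _ _ hR hR, Pi.add_apply, Pi.sub_apply, Pi.mul_apply, Pi.neg_apply,
    K_apply, E.pot.DD_eq, E.pot.BB_eq, Gr_comm (Lap φ (RR φ)) (RR φ)]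
  linear_combination (-2 * Tm τ p * (RR φ p * DD (LL φ) (RR φ) p - DD (RR φ) (RR φ) p +
    BB (LL φ) (RR φ) (RR φ) p)) * hw

theorem D_U (P : Pot φ) {v : X} (hv : v.1 = 0) :
    D v (UU φ) = Li 1 0 * D v (D e1 φ) + Li 0 1 * D v (D e2 φ) := by
  have hφ := P.sm
  simp (disch := repeat' with_reducible (first | assumption | apply sm_add | apply sm_mul | apply sm_D | apply sm_Li)) only
    [UU, D_add, D_sub, D_mul, D_Li]
  rw [D_dir3 v φ, hv]
  funext p
  simp; ring

/-- Evolution of the square of the symplectic potential. -/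
theorem Eqn.dUUW (E : Eqn φ τ c) : D e0 (UU φ * UU φ * W φ) = Tm τ *
    (-(K 2 * UU φ * (RR φ - K c) * W φ) + dv φ (RR φ) (UU φ * UU φ)) := by
  have hφ := E.pot.sm
  have hU := E.pot.smU
  have h0 : D e0 (UU φ) = Tm τ * (Li 1 0 * D e1 (RR φ) + Li 0 1 * D e2 (RR φ) - (RR φ - K c)) := by
    simp (disch := repeat' with_reducible (first | assumption | apply sm_add | apply sm_mul | apply sm_D | apply sm_Li)) only
      [UU, D_add, D_sub, D_mul, D_Li]
    rw [E.d1 (v := e1) rfl, E.d1 (v := e2) rfl, E.eq]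
    funext p
    simp [e0]; ring
  rw [D_mul _ (sm_mul hU hU) E.pot.smW, D_mul _ hU hU, h0, E.dW, dv, BB_mul _ _ hU hU]
  funext p
  simp only [BB, BBv, D_U E.pot (v := e1) rfl, D_U E.pot (v := e2) rfl, c21 hφ, W,
    Pi.add_apply, Pi.sub_apply, Pi.mul_apply, Pi.neg_apply, K_apply]
  ring

/-- The exponent `p log det - λ φ + (affine)` of the Lyapunov functional. -/
def GG (φ : X → ℝ) (q l α β : ℝ) : X → ℝ := K q * LL φ - K l * φ + Li α β

theorem Pot.smG (P : Pot φ) (q l α β : ℝ) : Sm (GG φ q l α β) :=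
  sm_add (sm_sub (sm_mul (sm_K _) P.smL) (sm_mul (sm_K _) P.sm)) (sm_Li _ _)

theorem Pot.D2G (P : Pot φ) (q l α β : ℝ) (u v : X) :
    D u (D v (GG φ q l α β)) = K q * D u (D v (LL φ)) - K l * D u (D v φ) := by
  have hφ := P.sm
  have hL := P.smL
  simp (disch := repeat' with_reducible (first | assumption | apply sm_zero | apply sm_add | apply sm_sub | apply sm_mul | apply sm_D | apply sm_Li | apply sm_K)) only
    [GG, D_add, D_sub, D_mul, D_Li, D_K, zero_mul, zero_add, add_zero]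

theorem Pot.lapG (P : Pot φ) (q l α β : ℝ) :
    Lap φ (GG φ q l α β) = -(K q * RR φ) - K (2 * l) := by
  funext p
  have hw := P.W_iW p
  simp only [RR, Lap, DD, DDv, P.D2G, W, Pi.add_apply, Pi.sub_apply, Pi.mul_apply, Pi.neg_apply,
    K_apply] at hw ⊢
  linear_combination (-2 * l) * hw

theorem Pot.BBG (P : Pot φ) (q l α β : ℝ) (f g : X → ℝ) :
    BB (GG φ q l α β) f g = K q * BB (LL φ) f g - K l * BB φ f g := by
  funext p
  simp only [BB, BBv, P.D2G, Pi.add_apply, Pi.sub_apply, Pi.mul_apply, K_apply]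
  ring

/-- The divergence terms in the evolution of `e^G W`. -/
def YN (φ G : X → ℝ) (a1 a2 a3 a4 a5 a6 : ℝ) : X → ℝ :=
  K a1 * dv φ (RR φ) (Ex G) + K a2 * dv φ (Ex G) (RR φ) + K a3 * dv φ (Ex G) 1 +
    K a4 * dv G G (Ex G) + K a5 * dv φ (Gr φ G G) (Ex G) + K a6 * dv φ (Ex G) (Gr φ G G)

theorem Eqn.dN (E : Eqn φ τ c) {q : ℝ} (hq : 0 < q) (hq3 : q < 1 / 3) (l α β : ℝ) :
    ∃ C a1 a2 a3 a4 a5 a6 : ℝ, 0 ≤ C ∧ ∀ p, D e0 (Ex (GG φ q l α β) * W φ) p ≤
      τ p.1 * (C * (Ex (GG φ q l α β) * W φ) p + YN φ (GG φ q l α β) a1 a2 a3 a4 a5 a6 p) := by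
  have P := E.pot
  have hG := P.smG q l α β
  have hR := P.smR
  have hlap := P.lapG q l α β
  have hB := P.BBG q l α β (GG φ q l α β) (GG φ q l α β)
  have hd : D e0 (GG φ q l α β) = Tm τ * (K q * Lap φ (RR φ) - K l * (RR φ - K c)) := by
    have hφ := P.sm
    have hL := P.smL
    simp (disch := repeat' with_reducible (first | assumption | apply sm_zero | apply sm_add | apply sm_sub | apply sm_mul | apply sm_D | apply sm_Li | apply sm_K)) only
      [GG, D_add, D_sub, D_mul, D_Li, D_K, zero_mul, zero_add]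
    rw [E.dL, E.eq]
    funext p
    simp [e0]; ring
  have hga : Gr φ (GG φ q l α β) (Lap φ (GG φ q l α β)) = -(K q * Gr φ (GG φ q l α β) (RR φ)) := by
    rw [hlap]
    simp (disch := repeat' with_reducible (first | assumption | apply sm_neg | apply sm_mul | apply sm_K)) only
      [Gr, BB, BBv, D_sub, D_neg, D_mul, D_K]
    funext p
    simp only [Pi.add_apply, Pi.sub_apply, Pi.mul_apply, Pi.neg_apply, K_apply, Pi.zero_apply]
    ring
  have hbo := bochner P hG 1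
  rw [hga] at hbo
  have hH := half_lap_sq P (GG φ q l α β)
  have hS := SS_nonneg P (GG φ q l α β) 1
  rw [D_mul _ (sm_Ex hG) P.smW, D_Ex _ hG, hd, E.dW]
  generalize GG φ q l α β = G at *
  have h1q : 0 < 1 - q := by linarith
  set γ := q / (1 - q) with hγ
  set k := (q + 1) / q with hk
  have hγ0 : 0 < γ := div_pos hq h1q
  have hγ2 : γ < 1 / 2 := by rw [hγ, div_lt_iff₀ h1q]; linarith
  have hk0 : 0 < k := by positivity
  set m := k * (1 / 2 - γ) with hm
  have hm0 : 0 < m := mul_pos hk0 (by linarith)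
  set b := l * (1 - k * γ) / q with hb
  refine ⟨b ^ 2 / (4 * m) + |2 * l ^ 2 / q + l * c|, q + 1, -(q + 1) + 2 * k * γ * q,
    4 * k * γ * l - 2 * l * k + k * γ * l / q, -(k * (1 - γ)), k * γ, k * γ, by positivity,
    fun p => ?_⟩
  have hw := P.W_iW p
  have hw0 := P.pw p
  have hE : 0 < Ex G p := Real.exp_pos _
  have h1 := congrFun hlap p
  have h2 := congrFun hB p
  have h3 := congrFun hbo p
  have h4 := hH p
  have h5 := hS p
  simp only [YN, dv, BB_Ex _ _ hG, BB_comm φ (Ex G), DD_Ex _ hG, Pi.add_apply,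
    Pi.sub_apply, Pi.mul_apply, Pi.neg_apply, K_apply, P.DD_eq, P.BB_eq, Tm_apply, Pi.one_apply,
    Gr_comm (RR φ) G] at h1 h2 h3 ⊢
  have h0 : Gr φ 1 G p = 0 := by rw [Gr_comm, Gr, BB_one]; simp
  rw [h0, zero_mul, mul_zero]
  generalize Lap φ G p = a at *
  generalize Gr φ G G p = g at *
  generalize SS φ G 1 p = s at *
  generalize DD G G p = dd at *
  generalize BB G G G p = bg at *
  generalize BB (LL φ) G G p = bl at *
  generalize Lap φ (Gr φ G G) p = lg at *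
  generalize Gr φ (Gr φ G G) G p = gg at *
  generalize Gr φ G (RR φ) p = gr at *
  generalize Lap φ (RR φ) p = lr at *
  generalize RR φ p = R at *
  generalize W φ p = w at *
  generalize iW φ p = i at *
  generalize Ex G p = e at *
  have hτ := E.τpos p.1
  generalize τ p.1 = t at *
  have hi : i = w⁻¹ := by field_simp; linarith
  have hRa : R = -(a + 2 * l) / q := by field_simp; linarith
  have hbl : bl = (bg + l * (g * w)) / q := by field_simp; linarith
  have key : e * (t * (q * lr - l * (R - c))) * w + e * (t * (lr * w)) =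
      t * (((q + 1) * (e * (lr * w) + e * (gr * w)) +
        (-(q + 1) + 2 * k * γ * q) * (R * (e * (a * w + g * w)) + e * (gr * w)) +
        (4 * k * γ * l - 2 * l * k + k * γ * l / q) * (1 * (e * (a * w + g * w)) + 0) +
        -(k * (1 - γ)) * (e * dd + e * bg) + k * γ * (e * (lg * w) + e * (gg * w)) +
        k * γ * (g * (e * (a * w + g * w)) + e * (gg * w))) +
        e * w * (-(k * ((a * a - dd * i) - γ * a ^ 2 + γ * s)) + b * a + (2 * l ^ 2 / q + l * c))) := by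
    rw [h3, hbl, hRa, hi, hb, hk, hγ]
    field_simp
    ring
  rw [key]
  apply mul_le_mul_of_nonneg_left _ hτ.le
  have hew : 0 < e * w := mul_pos hE hw0
  have h6 : -(k * ((a * a - dd * i) - γ * a ^ 2 + γ * s)) + b * a + (2 * l ^ 2 / q + l * c) ≤
      b ^ 2 / (4 * m) + |2 * l ^ 2 / q + l * c| := by
    have h7 : m * a ^ 2 ≤ k * ((a * a - dd * i) - γ * a ^ 2 + γ * s) := by
      rw [hm, mul_assoc]
      apply mul_le_mul_of_nonneg_left _ hk0.le
      nlinarith [mul_nonneg hγ0.le h5]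
    have h8 : b * a ≤ m * a ^ 2 + b ^ 2 / (4 * m) := by
      have : m * a ^ 2 + b ^ 2 / (4 * m) - b * a = (2 * m * a - b) ^ 2 / (4 * m) := by
        field_simp; ring
      have h9 : 0 ≤ (2 * m * a - b) ^ 2 / (4 * m) := by positivity
      linarith
    linarith [le_abs_self (2 * l ^ 2 / q + l * c)]
  linarith [mul_le_mul_of_nonneg_left h6 hew.le]

end Pool.Agent.P.MP_2cea5e_gt
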