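import Pool.Agent.P.MP_2cea5e_gt.Defs
import Pool.Agent.P.MP_2cea5e_gt.Cls
import Pool.Agent.P.MP_2cea5e_gt.Evo

/-!
Structures and statements of the packages (part A).
-/

open scoped ContDiff ComplexOrder ENNReal
open MeasureTheory

noncomputable section

namespace Pool.Agent.P.MP_2cea5e_gt

/-- Dominated by an integrable function, locally uniformly in time. -/
def Dom (f : X → ℝ) : Prop :=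
  ∀ M : ℝ, ∃ g : ℝ × ℝ → ℝ, Integrable g ∧ ∀ s ξ, |s| ≤ M → |f (s, ξ)| ≤ g ξ

/-- Integrable with integral zero at each time. -/
def Zero (f : X → ℝ) : Prop :=
  ∀ s : ℝ, Integrable (fun ξ : ℝ × ℝ => f (s, ξ)) ∧ ∫ ξ : ℝ × ℝ, f (s, ξ) = 0

structure Fan where
  ι : Type
  fin : Finite ι
  ch : ι → Ch
  cover : ∀ p : X, ∃ σ, (ch σ).cone p

/-- The linear form with coefficient vector `v`. -/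
abbrev Lv (v : ℝ × ℝ) : X → ℝ := Li v.1 v.2

/-- A smooth family of toric potentials with moment polygon spanned by the `v σ`. -/
structure Tor (F : Fan) (φ : X → ℝ) (v : F.ι → ℝ × ℝ) : Prop where
  pot : Pot φ
  aff : ∀ σ, (F.ch σ).S 0 0 (φ - Lv (v σ))
  h11 : ∀ σ, (F.ch σ).S 1 0 (D (F.ch σ).n1 (D (F.ch σ).n1 φ))
  h22 : ∀ σ, (F.ch σ).S 0 1 (D (F.ch σ).n2 (D (F.ch σ).n2 φ))
  w : ∀ σ, (F.ch σ).SP 1 1 (W φ)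

/-- The Calabi flow with clock `t` bounded by `T`. -/
structure Flow (F : Fan) (φ : X → ℝ) (v : F.ι → ℝ × ℝ) (t τ : ℝ → ℝ) (c T : ℝ) : Prop where
  tor : Tor F φ v
  eqn : Eqn φ τ c
  dt : ∀ s, HasDerivAt t (τ s) s
  tle : ∀ s, t s ≤ T

/-- The moment map. -/
def grad (φ : X → ℝ) (p : X) : ℝ × ℝ := (D e1 φ p, D e2 φ p)
def ip (x η : ℝ × ℝ) : ℝ := x.1 * η.1 + x.2 * η.2
/-- The open moment polygon. -/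
def Pint {ι : Type} (v : ι → ℝ × ℝ) : Set (ℝ × ℝ) := {x | ∀ η, η ≠ 0 → ∃ σ, ip x η < ip (v σ) η}
/-- The cone of a chart in the plane. -/
def Ch.cn (κ : Ch) : Set (ℝ × ℝ) := {ξ | κ.cone (0, ξ)}
/-- `(det g)^q W` in the chart `κ`. -/
def Ch.den (κ : Ch) (φ : X → ℝ) (q : ℝ) (p : X) : ℝ :=
  Real.exp (q * (LL φ p - κ.z1 p - κ.z2 p)) * W φ p

def StDom : Prop := ∀ (F : Fan) (f : X → ℝ), (∀ σ, ∃ ε > 0, (F.ch σ).O ε ε f) → Dom f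

def StIBP : Prop := ∀ (F : Fan) (f g h : X → ℝ), Sm f → Sm g → Sm h →
  (∀ σ, ∃ ε > 0,
    (F.ch σ).O1 ε ε (h * D (F.ch σ).n2 (D (F.ch σ).n2 f) * D (F.ch σ).n1 g) ∧
    (F.ch σ).O1 ε ε (h * D (F.ch σ).n1 (D (F.ch σ).n2 f) * D (F.ch σ).n2 g) ∧
    (F.ch σ).O1 ε ε (h * D (F.ch σ).n1 (D (F.ch σ).n1 f) * D (F.ch σ).n2 g) ∧
    (F.ch σ).O1 ε ε (h * D (F.ch σ).n1 (D (F.ch σ).n2 f) * D (F.ch σ).n1 g)) →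
  Zero (dv f g h)

def StGron : Prop := ∀ (f Y : X → ℝ) (t τ : ℝ → ℝ) (C T : ℝ), Sm f → Dom f → Dom (D e0 f) →
  (∀ p, 0 ≤ f p) → 0 ≤ C → Zero Y → (∀ s, HasDerivAt t (τ s) s) → (∀ s, 0 < τ s) →
  (∀ s, t s ≤ T) → (∀ p, D e0 f p ≤ τ p.1 * (C * f p + Y p)) →
  ∃ B : ℝ, ∀ s, 0 ≤ s → Integrable (fun ξ : ℝ × ℝ => f (s, ξ)) ∧ ∫ ξ : ℝ × ℝ, f (s, ξ) ≤ B

def StZ : Prop := ∀ (F : Fan) (φ : X → ℝ) (v : F.ι → ℝ × ℝ) (t τ : ℝ → ℝ) (c T : ℝ),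
  Flow F φ v t τ c T → ∃ B : ℝ, ∀ s, 0 ≤ s →
    Integrable (fun ξ : ℝ × ℝ => ((UU φ * UU φ + RR φ * RR φ + 1) * W φ) (s, ξ)) ∧
    ∫ ξ : ℝ × ℝ, ((UU φ * UU φ + RR φ * RR φ + 1) * W φ) (s, ξ) ≤ B

def StG1 : Prop := ∀ (F : Fan) (φ : X → ℝ) (v : F.ι → ℝ × ℝ), Tor F φ v → ∀ σ p,
  0 < D (F.ch σ).n1 (φ - Lv (v σ)) p ∧ 0 < D (F.ch σ).n2 (φ - Lv (v σ)) p ∧
  ((F.ch σ).cone p → (φ - Lv (v σ)) p ≤ φ (p.1, 0))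

def StOrd : Prop := ∀ (F : Fan) (φ : X → ℝ) (v : F.ι → ℝ × ℝ), Tor F φ v → ∀ σ ρ,
  Lv (v ρ) (F.ch ρ).n1 ≤ Lv (v σ) (F.ch ρ).n1 ∧ Lv (v ρ) (F.ch ρ).n2 ≤ Lv (v σ) (F.ch ρ).n2

def StDich : Prop := ∀ (F : Fan) (φ : X → ℝ) (v : F.ι → ℝ × ℝ), Tor F φ v → ∀ σ ρ,
  (Lv (v ρ) (F.ch ρ).n1 = Lv (v σ) (F.ch ρ).n1 →
    (F.ch σ).z1 (F.ch ρ).n1 + (F.ch σ).z2 (F.ch ρ).n1 = 1) ∧
  (Lv (v ρ) (F.ch ρ).n2 = Lv (v σ) (F.ch ρ).n2 →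
    (F.ch σ).z1 (F.ch ρ).n2 + (F.ch σ).z2 (F.ch ρ).n2 = 1)

/-- The exponent adapted to the chart `κ` with vertex `v`. -/
def Ch.G (κ : Ch) (φ : X → ℝ) (v : ℝ × ℝ) (q l : ℝ) : X → ℝ :=
  GG φ q l (-(q * (κ.a + κ.c)) + l * v.1) (-(q * (κ.b + κ.d)) + l * v.2)

def StN : Prop := ∀ (F : Fan) (φ : X → ℝ) (v : F.ι → ℝ × ℝ) (t τ : ℝ → ℝ) (c T q : ℝ),
  Flow F φ v t τ c T → 0 < q → q < 1 / 3 → ∀ σ, ∃ l B : ℝ, 0 ≤ l ∧ ∀ s, 0 ≤ s →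
    Integrable (fun ξ : ℝ × ℝ => (Ex ((F.ch σ).G φ (v σ) q l) * W φ) (s, ξ)) ∧
    ∫ ξ : ℝ × ℝ, (Ex ((F.ch σ).G φ (v σ) q l) * W φ) (s, ξ) ≤ B

def StConv : Prop := ∀ φ : X → ℝ, Pot φ → ∀ s ξ η,
  ip (grad φ (s, ξ)) η - φ (s, η) ≤ UU φ (s, ξ)

def StArea : Prop := ∀ φ : X → ℝ, Pot φ → ∀ (s : ℝ) (A : Set (ℝ × ℝ)), MeasurableSet A →
  volume ((fun ξ => grad φ (s, ξ)) '' A) ≤ ∫⁻ ξ in A, ENNReal.ofReal (W φ (s, ξ))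

def StPoly : Prop := ∀ (F : Fan) (φ : X → ℝ) (v : F.ι → ℝ × ℝ), Tor F φ v →
  (∀ p, grad φ p ∈ Pint v) ∧ (∀ x ∈ Pint v, ∀ s, ∃ ξ, grad φ (s, ξ) = x) ∧
  Convex ℝ (Pint v) ∧ (∃ M : ℝ, ∀ x ∈ Pint v, ‖x‖ ≤ M) ∧
  ∃ (x0 : ℝ × ℝ) (r : ℝ), 0 < r ∧ ∀ σ (θ : ℝ), 0 < θ → θ ≤ 1 → ∀ y ∈ Metric.ball x0 r,
    (1 - θ) • v σ + θ • y ∈ Pint v

def StBase : Prop := ∀ (F : Fan) (φ : X → ℝ) (v : F.ι → ℝ × ℝ), Tor F φ v → ∀ B : ℝ,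
  ∃ C : ℝ, ∀ s, Integrable (fun ξ : ℝ × ℝ => (UU φ * UU φ * W φ) (s, ξ)) →
    ∫ ξ : ℝ × ℝ, (UU φ * UU φ * W φ) (s, ξ) ≤ B → |φ (s, 0)| ≤ C

def StMom : Prop := ∀ (F : Fan) (q B : ℝ), 0 < q → q < 1 → ∃ δ C : ℝ, 0 < δ ∧
  ∀ (φ : X → ℝ) (s : ℝ), Pot φ →
    (∀ σ, ∫⁻ ξ in (F.ch σ).cn, ENNReal.ofReal ((F.ch σ).den φ q (s, ξ)) ≤ ENNReal.ofReal B) →
    ∫⁻ ξ : ℝ × ℝ, ENNReal.ofReal (Real.exp (δ * ‖ξ‖) * W φ (s, ξ)) ≤ ENNReal.ofReal C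

def StLow : Prop := ∀ (F : Fan) (φ : X → ℝ) (v : F.ι → ℝ × ℝ), Tor F φ v → ∀ δ B : ℝ, 0 < δ →
  ∃ C : ℝ, ∀ s,
    ∫⁻ ξ : ℝ × ℝ, ENNReal.ofReal (Real.exp (δ * ‖ξ‖) * W φ (s, ξ)) ≤ ENNReal.ofReal B →
    ∀ σ ξ, φ (s, 0) - C ≤ (φ - Lv (v σ)) (s, ξ)

def StCore : Prop := ∀ (F : Fan) (φ : X → ℝ) (v : F.ι → ℝ × ℝ) (t τ : ℝ → ℝ) (c T q : ℝ),
  Flow F φ v t τ c T → 0 < q → q < 1 / 3 → ∃ C : ℝ, ∀ s, 0 ≤ s → ∀ σ,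
    (∀ ξ ∈ (F.ch σ).cn, |(φ - Lv (v σ)) (s, ξ)| ≤ C) ∧
    ∫⁻ ξ in (F.ch σ).cn, ENNReal.ofReal ((F.ch σ).den φ q (s, ξ)) ≤ ENNReal.ofReal C

/-! ### The bridge to complex coordinates -/

def chOf (m : Matrix (Fin 2) (Fin 2) ℤ) (h : IsUnit m.det) : Ch where
  a := m 0 0
  b := m 0 1
  c := m 1 0
  d := m 1 1
  det := by
    rw [Matrix.det_fin_two] at h
    rcases Int.isUnit_iff.mp h with h | h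
    · have : ((m 0 0 * m 1 1 - m 0 1 * m 1 0 : ℤ) : ℝ) = 1 := by rw [h]; simp
      push_cast at this; rw [this]; norm_num
    · have : ((m 0 0 * m 1 1 - m 0 1 * m 1 0 : ℤ) : ℝ) = -1 := by rw [h]; simp
      push_cast at this; rw [this]; norm_num

def fanOf {ι : Type} [Finite ι] {m : ι → Matrix (Fin 2) (Fin 2) ℤ} (h : IsFan m) : Fan where
  ι := ι
  fin := inferInstance
  ch σ := chOf (m σ) (h.unimod σ)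
  cover p := by
    obtain ⟨σ, hσ⟩ := h.cover ![p.2.1, p.2.2]
    refine ⟨σ, ?_, ?_⟩
    · simpa [Ch.z1, chOf, Li_apply, Fin.sum_univ_two] using hσ 0
    · simpa [Ch.z2, chOf, Li_apply, Fin.sum_univ_two] using hσ 1

/-- The real point `(|z₁|, |z₂|)` of the chart. -/
def Ch.zp (κ : Ch) (p : X) : C2 := ![((κ.pt p).2.1 : ℂ), ((κ.pt p).2.2 : ℂ)]

/-- A time dependent function on the chart, in logarithmic coordinates. -/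
def Ch.lift (κ : Ch) (f : ℝ × C2 → ℝ) : X → ℝ := fun p => f (p.1, κ.zp p)

/-- The function at a fixed time. -/
def sl (f : ℝ × C2 → ℝ) (s : ℝ) : C2 → ℝ := fun z => f (s, z)

def StHess : Prop := ∀ (κ : Ch) (f : ℝ × C2 → ℝ), ContDiff ℝ ∞ f → (∀ s, Inv (sl f s)) →
  ∀ p : X, hess (sl f p.1) (κ.zp p) =
    !![((D κ.n1 (D κ.n1 (κ.lift f)) p / ((κ.pt p).2.1 * (κ.pt p).2.1) : ℝ) : ℂ),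
       ((D κ.n1 (D κ.n2 (κ.lift f)) p / ((κ.pt p).2.1 * (κ.pt p).2.2) : ℝ) : ℂ);
       ((D κ.n1 (D κ.n2 (κ.lift f)) p / ((κ.pt p).2.1 * (κ.pt p).2.2) : ℝ) : ℂ),
       ((D κ.n2 (D κ.n2 (κ.lift f)) p / ((κ.pt p).2.2 * (κ.pt p).2.2) : ℝ) : ℂ)]

def StVol : Prop :=
  (∀ f : ℝ × C2 → ℝ, ContDiff ℝ ∞ f → ∀ j k,
    ContDiff ℝ ∞ fun x : ℝ × C2 => hess (sl f x.1) x.2 j k) ∧
  ∀ f : C2 → ℝ, ContDiff ℝ ∞ f → Inv f → Inv (vol f)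

def StTor : Prop := ∀ (ι : Type) [Finite ι] (m : ι → Matrix (Fin 2) (Fin 2) ℤ) (hm : IsFan m)
  (f : ι → ℝ × C2 → ℝ) (a : ι → ℝ) (b : ι → Fin 2 → ℝ) (σ₀ : ι),
  (∀ σ, ContDiff ℝ ∞ (f σ)) → (∀ σ s, Inv (sl (f σ) s)) →
  (∀ σ s z, (hess (sl (f σ) s) z).PosDef) →
  (∀ σ s (w : C2), (∀ k, w k ≠ 0) → f σ (s, mon (m σ) w) - f σ₀ (s, mon (m σ₀) w) =
    a σ + ∑ k, b σ k * Real.log ‖w k‖) →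
  Tor (fanOf hm) (((fanOf hm).ch σ₀).lift (f σ₀)) (fun σ => (-(b σ 0) / 2, -(b σ 1) / 2)) ∧
  ∀ σ p, ((fanOf hm).ch σ).lift (f σ) p =
      (((fanOf hm).ch σ₀).lift (f σ₀) - Lv (-(b σ 0) / 2, -(b σ 1) / 2)) p + a σ ∧
    vol (sl (f σ) p.1) (((fanOf hm).ch σ).zp p) = W (((fanOf hm).ch σ₀).lift (f σ₀)) p *
      Real.exp (-(((fanOf hm).ch σ).z1 p + ((fanOf hm).ch σ).z2 p)) ∧
    scal (sl (f σ) p.1) (((fanOf hm).ch σ).zp p) = RR (((fanOf hm).ch σ₀).lift (f σ₀)) p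

def StPolar : Prop := ∀ (κ : Ch) (s : ℝ) (G : C2 → ℝ≥0∞), Measurable G →
  (∀ θ z : C2, (∀ j, ‖θ j‖ = 1) → G (θ * z) = G z) →
  ∫⁻ z, G z = ENNReal.ofReal (Real.pi ^ 2) *
    ∫⁻ ξ : ℝ × ℝ, G (κ.zp (s, ξ)) * ENNReal.ofReal (Real.exp (κ.z1 (s, ξ) + κ.z2 (s, ξ)))

def StMain : Prop := ∀ (ι : Type) [Finite ι] (m : ι → Matrix (Fin 2) (Fin 2) ℤ)
  (ψ : ι → C2 → ℝ) (κ c T : ℝ) (φ : ℝ → ι → C2 → ℝ), IsFan m → IsToricKaehler m ψ → 0 < κ →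
  IsCalabiFlow m ψ κ c T φ → ∀ t₀ p : ℝ, 0 < t₀ → 0 < p → p < 1 / 3 →
  ∃ C : ℝ, ∀ t ∈ Set.Ico t₀ T, ∀ σ, (∀ z, |φ t σ z| ≤ C) ∧
    ∫⁻ z, ENNReal.ofReal ((vol (ψ σ + φ t σ) z / vol (ψ σ) z) ^ (1 + p) * vol (ψ σ) z) ≤
      ENNReal.ofReal C

end Pool.Agent.P.MP_2cea5e_gt
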