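import Pool.Agent.P.MP_2cea5e_gt.Defs2

/-!
Top level interfaces of part B (long time existence).
-/

open scoped ContDiff ComplexOrder Matrix
open MeasureTheory Set

noncomputable section

namespace Pool.Agent.P.MP_2cea5e_gt

/-- The four real coordinate directions of `ℂ²`. -/
def dir : Fin 4 → C2 :=
  ![Pi.single 0 1, Pi.single 0 Complex.I, Pi.single 1 1, Pi.single 1 Complex.I]

/-- Partial derivative. -/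
def pd (a : Fin 4) (f : C2 → ℝ) : C2 → ℝ := fun z => fderiv ℝ f z (dir a)

/-- Iterated partial derivative. -/
def pdl : List (Fin 4) → (C2 → ℝ) → C2 → ℝ
  | [], f => f
  | a :: l, f => pd a (pdl l f)

/-- The Laplacian of `ℝ⁴`. -/
def lap (f : C2 → ℝ) : C2 → ℝ := fun z => ∑ a, pd a (pd a f) z

/-- Smooth in space, with all space derivatives jointly continuous. -/
structure Cl (S : Set ℝ) (F : ℝ → C2 → ℝ) : Prop where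
  sm : ∀ t ∈ S, ContDiff ℝ ∞ (F t)
  cont : ∀ l, ContinuousOn (fun q : ℝ × C2 => pdl l (F q.1) q.2) (S ×ˢ univ)

/-- The Hermitian form of the metric. -/
def qf (f : C2 → ℝ) (z v : C2) : ℝ := (star v ⬝ᵥ hess f z *ᵥ v).re

/-- Interior estimate for the biharmonic heat equation. -/
def StLin : Prop := ∀ ρ : ℝ, 0 < ρ → ∃ C : ℝ, ∀ (v vt : ℝ → C2 → ℝ) (g : ℝ → ℝ) (A : ℝ),
  0 ≤ A → Cl (Icc (-ρ) 0) v → Cl (Icc (-ρ) 0) vt →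
  (∀ t ∈ Ioo (-ρ) 0, ∀ z, HasDerivAt (fun s => v s z) (vt t z) t) →
  ∫ t in (-ρ)..0, ∫ z in Metric.ball (0 : C2) ρ, v t z ^ 2 ≤ A ^ 2 →
  ContinuousOn g (Icc (-ρ) 0) → ∫ t in (-ρ)..0, g t ≤ A →
  (∀ t ∈ Icc (-ρ) 0, ∀ z ∈ Metric.ball (0 : C2) ρ, ∀ l : List (Fin 4), l.length ≤ 10 →
    |pdl l (vt t + lap (lap (v t))) z| ≤ g t) →
  ∀ t ∈ Icc (-ρ / 2) 0, ∀ z ∈ Metric.ball (0 : C2) (ρ / 2), ∀ l : List (Fin 4), l.length ≤ 4 →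
    |pdl l (v t) z| ≤ C * A

/-- Joint smoothness from the equation (one exceptional time `t₀` allowed). -/
def StJS : Prop := ∀ (f : ℝ → C2 → ℝ) (a b t₀ κ c : ℝ), a < b → Cl (Ico a b) f →
  (∀ t ∈ Ico a b, ∀ z, (hess (f t) z).PosDef) →
  (∀ t ∈ Ioo a b, t ≠ t₀ → ∀ z, HasDerivAt (fun s => f s z) (κ * scal (f t) z - c) t) →
  ContDiffOn ℝ ∞ (fun q : ℝ × C2 => f q.1 q.2) (Ico a b ×ˢ univ) ∧
  ∀ t ∈ Ico a b, ∀ z, HasDerivWithinAt (fun s => f s z) (κ * scal (f t) z - c) (Ico a b) t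

/-- Chapter III: short time existence. -/
def StShort : Prop := ∀ (ι : Type) [Finite ι] (m : ι → Matrix (Fin 2) (Fin 2) ℤ)
  (ψ : ι → C2 → ℝ) (κ c : ℝ), IsFanD m → IsToricKaehler m ψ → 0 < κ →
  ∃ τ : ℝ, 0 < τ ∧ ∃ φ, IsSol m ψ κ c (Ico 0 τ) φ

/-- Chapter I: small oscillation of the metric near the final time. -/
def StOsc : Prop := ∀ (ι : Type) [Finite ι] (m : ι → Matrix (Fin 2) (Fin 2) ℤ)
  (ψ : ι → C2 → ℝ) (κ c T : ℝ) (φ : ℝ → ι → C2 → ℝ), IsFan m → IsToricKaehler m ψ → 0 < κ →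
  0 < T → IsCalabiFlow m ψ κ c T φ → ∀ δ : ℝ, 0 < δ → ∃ τ ρ Λ : ℝ, 0 < τ ∧ 0 < ρ ∧ τ + ρ < T ∧
  ∀ t ∈ Ico (T - τ) T, ∀ w : C2, (∀ k, w k ≠ 0) → ∃ σ, ‖mon (m σ) w‖ ≤ Λ ∧
    (∀ v, ‖v‖ ^ 2 ≤ Λ * qf (ψ σ + φ t σ) (mon (m σ) w) v ∧
      qf (ψ σ + φ t σ) (mon (m σ) w) v ≤ Λ * ‖v‖ ^ 2) ∧
    ∀ s ∈ Icc (t - ρ) t, ∀ z, ‖z - mon (m σ) w‖ ≤ ρ → ∀ v,
      |qf (ψ σ + φ s σ) z v - qf (ψ σ + φ t σ) (mon (m σ) w) v| ≤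
        δ * qf (ψ σ + φ t σ) (mon (m σ) w) v

/-- Chapter II: small oscillation of the metric gives bounds of all derivatives. -/
def StGain : Prop := ∃ δ : ℝ, 0 < δ ∧ ∀ κ ρ Λ : ℝ, 0 < κ → 0 < ρ → ∀ k : ℕ, ∃ C : ℝ,
  ∀ (f : ℝ → C2 → ℝ) (I : Set ℝ) (c t : ℝ) (z : C2), IsOpen I → Icc (t - ρ) t ⊆ I →
  ContDiffOn ℝ ∞ (fun q : ℝ × C2 => f q.1 q.2) (I ×ˢ univ) →
  (∀ s ∈ I, ∀ y, (hess (f s) y).PosDef) →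
  (∀ s ∈ I, ∀ y, HasDerivAt (fun r => f r y) (κ * scal (f s) y - c) s) →
  (∀ v, ‖v‖ ^ 2 ≤ Λ * qf (f t) z v ∧ qf (f t) z v ≤ Λ * ‖v‖ ^ 2) →
  (∀ s ∈ Icc (t - ρ) t, ∀ y, ‖y - z‖ ≤ ρ → |f s y| ≤ Λ ∧
    ∀ v, |qf (f s) y v - qf (f t) z v| ≤ δ * qf (f t) z v) →
  ‖iteratedFDeriv ℝ k (f t) z‖ ≤ C

/-- The a priori bounds up to a finite time. -/
def StBound : Prop := ∀ (ι : Type) [Finite ι] (m : ι → Matrix (Fin 2) (Fin 2) ℤ)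
  (ψ : ι → C2 → ℝ) (κ c T : ℝ) (φ : ℝ → ι → C2 → ℝ), IsFanD m → IsToricKaehler m ψ → 0 < κ →
  0 < T → IsCalabiFlow m ψ κ c T φ → ∀ σ (R : ℝ),
    (∀ k : ℕ, ∃ C : ℝ, ∀ t ∈ Ico (T / 2) T, ∀ z, ‖z‖ ≤ R → ‖iteratedFDeriv ℝ k (φ t σ) z‖ ≤ C) ∧
    ∃ b : ℝ, 0 < b ∧ ∀ t ∈ Ico (T / 2) T, ∀ z, ‖z‖ ≤ R → b ≤ vol (ψ σ + φ t σ) z

/-- The final statement. -/
def StLong : Prop := ∀ (ι : Type) [Finite ι] (m : ι → Matrix (Fin 2) (Fin 2) ℤ)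
  (ψ : ι → C2 → ℝ) (κ c : ℝ), IsFanD m → IsToricKaehler m ψ → 0 < κ →
  ∃ φ, IsSol m ψ κ c (Ici 0) φ

end Pool.Agent.P.MP_2cea5e_gt
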