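import Pool.Agent.P.MP_2cea5e_gt.Tool

/-!
Convexity of the potential and the area formula for the moment map.
-/

open scoped ContDiff
open MeasureTheory

namespace Pool.Agent.P.MP_2cea5e_gt

namespace Conv

theorem dir_nonneg {φ : X → ℝ} (P : Pot φ) (a b : ℝ) (p : X) :
    0 ≤ D (0, a, b) (D (0, a, b) φ) p := by
  by_cases h : a ≠ 0 ∨ b ≠ 0
  · exact (P.pos_dir h p).le
  · push Not at h
    rw [h.1, h.2]
    exact (map_zero (fderiv ℝ (D (0, 0, 0) φ) p)).ge

theorem det_prod (L M : ℝ × ℝ →L[ℝ] ℝ) :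
    (L.prod M).det = L (1, 0) * M (0, 1) - L (0, 1) * M (1, 0) := by
  rw [ContinuousLinearMap.det, ← LinearMap.det_toMatrix (Module.Basis.finTwoProd ℝ),
    Matrix.det_fin_two]
  simp [LinearMap.toMatrix_apply, Module.Basis.coe_finTwoProd_repr]

end Conv

open Conv

theorem conv_ok : StConv := by
  intro φ P s ξ η
  set v : X := (0, η.1 - ξ.1, η.2 - ξ.2) with hv
  have hm : Monotone fun r : ℝ => D v φ ((s, ξ) + r • v) :=
    monotone_of_deriv_nonneg (fun r => (hasDerivAt_line (sm_D v P.sm) _ v r).differentiableAt)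
      fun r => by
        rw [(hasDerivAt_line (sm_D v P.sm) _ v r).deriv]
        exact dir_nonneg P _ _ _
  obtain ⟨c, hc, h⟩ := exists_hasDerivAt_eq_slope (fun r : ℝ => φ ((s, ξ) + r • v))
    (fun r : ℝ => D v φ ((s, ξ) + r • v)) zero_lt_one
    (fun r _ => (hasDerivAt_line P.sm _ v r).continuousAt.continuousWithinAt)
    fun r _ => hasDerivAt_line P.sm _ v r
  have h1 : D v φ ((s, ξ) + (0 : ℝ) • v) ≤ D v φ ((s, ξ) + c • v) := hm hc.1.le
  have h2 : ((s, ξ) : X) + (1 : ℝ) • v = (s, η) := by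
    ext <;> simp [hv]
  rw [h, h2, zero_smul, add_zero, D_dir3 v φ] at h1
  simp only [hv, Pi.add_apply, Pi.mul_apply, K_apply] at h1
  simp only [ip, grad, UU, Pi.add_apply, Pi.sub_apply, Pi.mul_apply, Li_apply]
  linarith

theorem area_ok : StArea := by
  intro φ P s A hA
  refine (addHaar_image_le_lintegral_abs_det_fderiv volume hA fun ξ _ =>
    ((hasFDerivAt_space (sm_D e1 P.sm) s ξ).prodMk
      (hasFDerivAt_space (sm_D e2 P.sm) s ξ)).hasFDerivWithinAt).trans (le_of_eq ?_)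
  refine lintegral_congr fun ξ => ?_
  rw [det_prod, ← abs_of_pos (P.pw (s, ξ))]
  congr 2
  change D e1 (D e1 φ) (s, ξ) * D e2 (D e2 φ) (s, ξ) -
    D e2 (D e1 φ) (s, ξ) * D e1 (D e2 φ) (s, ξ) = _
  rw [D_comm e2 e1 P.sm]
  rfl

end Pool.Agent.P.MP_2cea5e_gt
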