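import Pool.Agent.P.MP_2cea5e_gt.Tool

/-!
Package 13: the a priori estimates in logarithmic coordinates.
-/

open scoped ContDiff
open MeasureTheory

namespace Pool.Agent.P.MP_2cea5e_gt

namespace Core

theorem meas_cn (κ : Ch) : MeasurableSet κ.cn :=
  ((isClosed_le (cont_slice κ.sm_z1.cont 0) continuous_const).inter
    (isClosed_le (cont_slice κ.sm_z2.cont 0) continuous_const)).measurableSet

theorem den_eq (κ : Ch) (φ : X → ℝ) (v : ℝ × ℝ) (q l : ℝ) (p : X) :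
    κ.den φ q p = Real.exp (l * (φ - Lv v) p) * (Ex (κ.G φ v q l) * W φ) p := by
  rw [Ch.den, Pi.mul_apply, Ex_apply, ← mul_assoc, ← Real.exp_add]
  congr 2
  simp only [Ch.G, GG, Ch.z1, Ch.z2, Pi.add_apply, Pi.sub_apply, Pi.mul_apply, K_apply, Li_apply]
  ring

end Core

theorem core_ok (h1 : StZ) (h2 : StN) (h3 : StBase) (h4 : StMom) (h5 : StLow) (h6 : StG1) :
    StCore := by
  intro F φ v t τ c T q H hq hq3
  have P := H.tor.pot
  have := F.fin
  obtain ⟨B, hB⟩ := h1 F φ v t τ c T H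
  obtain ⟨C1, hC1⟩ := h3 F φ v H.tor B
  have k1 : ∀ s, 0 ≤ s → |φ (s, 0)| ≤ C1 := fun s hs => by
    have e : ∀ p, (UU φ * UU φ * W φ) p ≤ ((UU φ * UU φ + RR φ * RR φ + 1) * W φ) p := fun p =>
      mul_le_mul_of_nonneg_right (by
        simp only [Pi.add_apply, Pi.mul_apply, Pi.one_apply]
        nlinarith [mul_self_nonneg (RR φ p)]) (P.pw p).le
    have i : Integrable fun ξ : ℝ × ℝ => (UU φ * UU φ * W φ) (s, ξ) :=
      (hB s hs).1.mono' (cont_slice (sm_mul (sm_mul P.smU P.smU) P.smW).cont s).aestronglyMeasurable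
        (Filter.Eventually.of_forall fun ξ =>
          (Real.norm_of_nonneg (mul_nonneg (mul_self_nonneg _) (P.pw _).le)).trans_le (e _))
    exact hC1 s i ((integral_mono i (hB s hs).1 fun ξ => e _).trans (hB s hs).2)
  have k2 : ∀ s, 0 ≤ s → ∀ σ, ∀ ξ ∈ (F.ch σ).cn, (φ - Lv (v σ)) (s, ξ) ≤ C1 := fun s hs σ ξ hξ =>
    ((h6 F φ v H.tor σ (s, ξ)).2.2 hξ).trans (abs_le.mp (k1 s hs)).2
  choose l N hl hN using h2 F φ v t τ c T q H hq hq3
  obtain ⟨B2, hB2⟩ := (Set.finite_range fun σ => Real.exp (l σ * C1) * N σ).bddAbove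
  have k3 : ∀ s, 0 ≤ s → ∀ σ, ∫⁻ ξ in (F.ch σ).cn, ENNReal.ofReal ((F.ch σ).den φ q (s, ξ)) ≤
      ENNReal.ofReal B2 := fun s hs σ => by
    have e : ∀ p, 0 ≤ (Ex ((F.ch σ).G φ (v σ) q (l σ)) * W φ) p := fun p =>
      mul_nonneg (Real.exp_pos _).le (P.pw p).le
    refine (setLIntegral_mono' (g := fun ξ => ENNReal.ofReal (Real.exp (l σ * C1) *
      (Ex ((F.ch σ).G φ (v σ) q (l σ)) * W φ) (s, ξ))) (Core.meas_cn _) fun ξ hξ => ?_).trans
      ((setLIntegral_le_lintegral _ _).trans ?_)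
    · rw [Core.den_eq _ φ (v σ) q (l σ)]
      exact ENNReal.ofReal_le_ofReal (mul_le_mul_of_nonneg_right (Real.exp_le_exp.mpr
        (mul_le_mul_of_nonneg_left (k2 s hs σ ξ hξ) (hl σ))) (e _))
    · rw [← ofReal_integral_eq_lintegral_ofReal ((hN σ s hs).1.const_mul _)
        (Filter.Eventually.of_forall fun ξ => mul_nonneg (Real.exp_pos _).le (e _)),
        integral_const_mul]
      exact ENNReal.ofReal_le_ofReal ((mul_le_mul_of_nonneg_left (hN σ s hs).2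
        (Real.exp_pos _).le).trans (hB2 ⟨σ, rfl⟩))
  obtain ⟨δ, C2, hδ, hC2⟩ := h4 F q B2 hq (by linarith)
  obtain ⟨C3, hC3⟩ := h5 F φ v H.tor δ C2 hδ
  refine ⟨max (max (C1 + C3) C1) B2, fun s hs σ => ⟨fun ξ hξ => le_max_of_le_left (abs_le.mpr
    ⟨?_, le_max_of_le_right (k2 s hs σ ξ hξ)⟩),
    (k3 s hs σ).trans (ENNReal.ofReal_le_ofReal (le_max_right _ _))⟩⟩
  linarith [hC3 s (hC2 φ s P (k3 s hs)) σ ξ, (abs_le.mp (k1 s hs)).1, le_max_left (C1 + C3) C1]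

end Pool.Agent.P.MP_2cea5e_gt
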