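import Pool.Agent.P.MP_2cea5e_gt.Tool

/-!
Package 6: the dichotomy for the edge directions of the fan.
-/

open Filter Topology

noncomputable section

namespace Pool.Agent.P.MP_2cea5e_gt

namespace Dich

theorem le_of_exp {c C k : ℝ} (hk : 0 < k) (h : ∀ r, 0 ≤ r → c ≤ C * Real.exp (-(k * r))) :
    c ≤ 0 := by
  have h1 : Tendsto (fun r : ℝ => C * Real.exp (-(k * r))) atTop (𝓝 (C * 0)) :=
    (Real.tendsto_exp_neg_atTop_nhds_zero.comp (tendsto_id.const_mul_atTop hk)).const_mul C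
  rw [mul_zero] at h1
  exact ge_of_tendsto h1 ((eventually_ge_atTop 0).mono h)

theorem cmp {c C s t : ℝ} (hc : 0 < c)
    (h : ∀ r, 0 ≤ r → c * Real.exp (-(r * s)) ≤ C * Real.exp (-(r * t))) : t ≤ s := by
  by_contra hlt
  push Not at hlt
  refine absurd (le_of_exp (C := C) (sub_pos.2 hlt) fun r hr => ?_) (not_le.2 hc)
  have e : Real.exp (-(r * t)) = Real.exp (-((t - s) * r)) * Real.exp (-(r * s)) := by
    rw [← Real.exp_add]; congr 1; ring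
  have h1 := h r hr
  rw [e, ← mul_assoc] at h1
  exact le_of_mul_le_mul_right h1 (Real.exp_pos _)

theorem nonneg {ψ : X → ℝ} (hψ : Sm ψ) {u w : X} {c C C' a1 a2 : ℝ} (hc : 0 < c)
    (h0 : ∀ p, 0 < D u ψ p) (h11 : ∀ p, 0 < D u (D u ψ) p)
    (hW : ∀ a b : ℝ, a ≤ 0 → b ≤ 0 → c * Real.exp (a + b) ≤
      D u (D u ψ) (b • w + a • u) * D w (D w ψ) (b • w + a • u))
    (h22 : ∀ a b : ℝ, a ≤ 0 → b ≤ 0 → |D w (D w ψ) (b • w + a • u)| ≤ C * Real.exp b)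
    (hx : ∀ a b : ℝ, a ≤ 0 → b ≤ 0 → |D w ψ (b • w + a • u)| ≤ C' * Real.exp (1 / 2 * b))
    (ha : ∀ p, 0 < a1 * D u ψ p + a2 * D w ψ p) : 0 ≤ a1 := by
  by_contra hlt
  push Not at hlt
  have hC : 0 < C := by
    have h1 := hW 0 0 le_rfl le_rfl
    have h2 := (le_abs_self _).trans (h22 0 0 le_rfl le_rfl)
    have h3 := h11 ((0 : ℝ) • w + (0 : ℝ) • u)
    rw [add_zero, Real.exp_zero, mul_one] at h1
    rw [Real.exp_zero, mul_one] at h2
    exact ((mul_pos_iff_of_pos_left h3).1 (hc.trans_le h1)).trans_le h2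
  have low : ∀ a b : ℝ, -1 ≤ a → a ≤ 0 → b ≤ 0 →
      c * Real.exp (-1) / C ≤ D u (D u ψ) (b • w + a • u) := fun a b h1 h2 h3 => by
    have h4 := (hW a b h2 h3).trans (mul_le_mul_of_nonneg_left
      ((le_abs_self _).trans (h22 a b h2 h3)) (h11 _).le)
    rw [Real.exp_add, ← mul_assoc, ← mul_assoc] at h4
    have h5 := le_of_mul_le_mul_right h4 (Real.exp_pos _)
    rw [div_le_iff₀ hC]
    exact (mul_le_mul_of_nonneg_left (Real.exp_le_exp.2 h1) hc.le).trans h5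
  have hk : 0 < c * Real.exp (-1) / C := by positivity
  have key := le_of_exp (c := -a1 * (c * Real.exp (-1) / C)) (C := |a2| * C') (k := 1 / 2)
    (by norm_num) fun r hr => by
      have hd := fun t => hasDerivAt_line (sm_D u hψ) ((-r) • w) u t
      obtain ⟨t, ht, he⟩ := exists_hasDerivAt_eq_slope (fun t : ℝ => D u ψ ((-r) • w + t • u))
        (fun t => D u (D u ψ) ((-r) • w + t • u)) (a := -1) (b := 0) (by norm_num)
        (fun t _ => (hd t).continuousAt.continuousWithinAt) fun t _ => hd t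
      have h1 := low t (-r) ht.1.le ht.2.le (by linarith)
      rw [he, sub_neg_eq_add, zero_add, div_one] at h1
      have h2 := h0 ((-r) • w + (-1 : ℝ) • u)
      have h3 := ha ((-r) • w + (0 : ℝ) • u)
      have h4 := hx 0 (-r) le_rfl (by linarith)
      have h5 : a2 * D w ψ ((-r) • w + (0 : ℝ) • u) ≤ |a2| * (C' * Real.exp (1 / 2 * -r)) :=
        (le_abs_self _).trans (by
          rw [abs_mul]; exact mul_le_mul_of_nonneg_left h4 (abs_nonneg _))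
      have h6 : -a1 * (c * Real.exp (-1) / C) ≤ -a1 * D u ψ ((-r) • w + (0 : ℝ) • u) :=
        mul_le_mul_of_nonneg_left (by linarith) (by linarith)
      rw [mul_assoc, ← mul_neg]
      linarith
  exact absurd key (not_le.2 (mul_pos (by linarith) hk))

theorem z1_lin (κ : Ch) (a b : ℝ) (u w : X) : κ.z1 (b • w + a • u) = b * κ.z1 w + a * κ.z1 u := by
  simp [Ch.z1, Li_apply]; ring

theorem z2_lin (κ : Ch) (a b : ℝ) (u w : X) : κ.z2 (b • w + a • u) = b * κ.z2 w + a * κ.z2 u := by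
  simp [Ch.z2, Li_apply]; ring

variable {F : Fan} {φ : X → ℝ} {v : F.ι → ℝ × ℝ}

theorem signs (h : StG1) (H : Tor F φ v) (σ : F.ι) {a1 a2 : ℝ}
    (ha : ∀ p, 0 < a1 * D (F.ch σ).n1 (φ - Lv (v σ)) p + a2 * D (F.ch σ).n2 (φ - Lv (v σ)) p) :
    0 ≤ a1 ∧ 0 ≤ a2 := by
  set κ := F.ch σ with hκ
  have hs := H.pot.sm
  have hψ : Sm (φ - Lv (v σ)) := sm_sub hs (sm_Li _ _)
  obtain ⟨c, hc, hW⟩ := (H.w σ).lower 0
  obtain ⟨C1, h1⟩ := (H.h11 σ).toO 0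
  obtain ⟨C2, h2⟩ := (H.h22 σ).toO 0
  obtain ⟨C3, h3⟩ := (H.aff σ).gain1.toO 0
  obtain ⟨C4, h4⟩ := (H.aff σ).gain2.toO 0
  have hWle : ∀ p, W φ p ≤ D κ.n1 (D κ.n1 φ) p * D κ.n2 (D κ.n2 φ) p := fun p => by
    rw [κ.W_eq hs]
    simp only [Pi.sub_apply, Pi.mul_apply]
    linarith [mul_self_nonneg (D κ.n1 (D κ.n2 φ) p)]
  have n1 : κ.n1.2.1 ≠ 0 ∨ κ.n1.2.2 ≠ 0 := by
    by_contra e
    push Not at e
    have := κ.z1_n1
    simp [Ch.z1, Li_apply, e.1, e.2] at this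
  have n2 : κ.n2.2.1 ≠ 0 ∨ κ.n2.2.2 ≠ 0 := by
    by_contra e
    push Not at e
    have := κ.z2_n2
    simp [Ch.z2, Li_apply, e.1, e.2] at this
  have p1 : ∀ p, 0 < D κ.n1 (D κ.n1 φ) p := fun p => H.pot.pos_dir n1 p
  have p2 : ∀ p, 0 < D κ.n2 (D κ.n2 φ) p := fun p => H.pot.pos_dir n2 p
  constructor
  · have e1 : ∀ a b : ℝ, κ.z1 (b • κ.n2 + a • κ.n1) = a := fun a b => by
      rw [z1_lin, κ.z1_n1, κ.z1_n2]; ring
    have e2 : ∀ a b : ℝ, κ.z2 (b • κ.n2 + a • κ.n1) = b := fun a b => by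
      rw [z2_lin, κ.z2_n1, κ.z2_n2]; ring
    have e3 : ∀ a b : ℝ, |(b • κ.n2 + a • κ.n1).1| ≤ 0 := fun a b => by simp [Ch.n1, Ch.n2]
    have e4 : ∀ a b : ℝ, a ≤ 0 → b ≤ 0 → κ.cone (b • κ.n2 + a • κ.n1) := fun a b ha hb =>
      ⟨(e1 a b).trans_le ha, (e2 a b).trans_le hb⟩
    refine nonneg hψ (C := C2) (C' := C4) hc (fun p => (h F φ v H σ p).1)
      (fun p => by rw [D2_subLv hs]; exact p1 p) (fun a b ha hb => ?_) (fun a b ha hb => ?_)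
      (fun a b ha hb => ?_) ha
    · have := (hW _ (e3 a b) (e4 a b ha hb)).trans (hWle _)
      rw [e1, e2, one_mul, one_mul] at this
      rwa [D2_subLv hs, D2_subLv hs]
    · have := h2 _ (e3 a b) (e4 a b ha hb)
      rw [e1, e2, zero_mul, zero_add, one_mul] at this
      rwa [D2_subLv hs]
    · have := h4 _ (e3 a b) (e4 a b ha hb)
      rwa [e1, e2, zero_mul, zero_add] at this
  · have e1 : ∀ a b : ℝ, κ.z1 (b • κ.n1 + a • κ.n2) = b := fun a b => by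
      rw [z1_lin, κ.z1_n1, κ.z1_n2]; ring
    have e2 : ∀ a b : ℝ, κ.z2 (b • κ.n1 + a • κ.n2) = a := fun a b => by
      rw [z2_lin, κ.z2_n1, κ.z2_n2]; ring
    have e3 : ∀ a b : ℝ, |(b • κ.n1 + a • κ.n2).1| ≤ 0 := fun a b => by simp [Ch.n1, Ch.n2]
    have e4 : ∀ a b : ℝ, a ≤ 0 → b ≤ 0 → κ.cone (b • κ.n1 + a • κ.n2) := fun a b ha hb =>
      ⟨(e1 a b).trans_le hb, (e2 a b).trans_le ha⟩
    refine nonneg hψ (w := κ.n1) (C := C1) (C' := C3) (a2 := a1) hc (fun p => (h F φ v H σ p).2.1)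
      (fun p => by rw [D2_subLv hs]; exact p2 p) (fun a b ha hb => ?_) (fun a b ha hb => ?_)
      (fun a b ha hb => ?_) fun p => by linarith [ha p]
    · have := (hW _ (e3 a b) (e4 a b ha hb)).trans (hWle _)
      rw [e1, e2, one_mul, one_mul, add_comm b a, mul_comm (D _ _ _)] at this
      rwa [D2_subLv hs, D2_subLv hs]
    · have := h1 _ (e3 a b) (e4 a b ha hb)
      rw [e1, e2, zero_mul, add_zero, one_mul] at this
      rwa [D2_subLv hs]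
    · have := h3 _ (e3 a b) (e4 a b ha hb)
      rwa [e1, e2, zero_mul, add_zero] at this

theorem ray (H : Tor F φ v) (σ ρ : F.ι) {n : X} (hn : n.1 = 0) (h1 : 0 ≤ (F.ch σ).z1 n)
    (h2 : 0 ≤ (F.ch σ).z2 n) (h3 : 0 ≤ (F.ch ρ).z1 n) (h4 : 0 ≤ (F.ch ρ).z2 n) :
    (F.ch ρ).z1 n + (F.ch ρ).z2 n ≤ (F.ch σ).z1 n + (F.ch σ).z2 n := by
  obtain ⟨c, hc, hW⟩ := (H.w σ).lower 0
  obtain ⟨C, hC⟩ := (H.w ρ).toS.toO 0
  have e1 : ∀ (κ : Ch) (r : ℝ), κ.z1 ((-r) • n) = -(r * κ.z1 n) := fun κ r => by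
    simp [Ch.z1, Li_apply]; ring
  have e2 : ∀ (κ : Ch) (r : ℝ), κ.z2 ((-r) • n) = -(r * κ.z2 n) := fun κ r => by
    simp [Ch.z2, Li_apply]; ring
  refine cmp (C := C) hc fun r hr => ?_
  have e3 : |((-r) • n).1| ≤ 0 := by simp [hn]
  have h5 := hW _ e3 ⟨by rw [e1]; nlinarith, by rw [e2]; nlinarith⟩
  have h6 := (le_abs_self _).trans (hC _ e3 ⟨by rw [e1]; nlinarith, by rw [e2]; nlinarith⟩)
  rw [e1, e2] at h5 h6
  have h7 := h5.trans h6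
  simp only [one_mul] at h7
  rwa [← neg_add, ← neg_add, ← mul_add, ← mul_add] at h7

theorem main (h : StG1) (H : Tor F φ v) (σ ρ : F.ι) {n : X} (hn : n.1 = 0)
    (h3 : 0 ≤ (F.ch ρ).z1 n) (h4 : 0 ≤ (F.ch ρ).z2 n) (h5 : (F.ch ρ).z1 n + (F.ch ρ).z2 n = 1)
    (hp : ∀ p, 0 < D n (φ - Lv (v ρ)) p) (he : Lv (v ρ) n = Lv (v σ) n) :
    (F.ch σ).z1 n + (F.ch σ).z2 n = 1 := by
  have hs := H.pot.sm
  have e : D n (φ - Lv (v ρ)) = D n (φ - Lv (v σ)) := by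
    rw [D_sub n hs (sm_Li _ _), D_sub n hs (sm_Li _ _), D_Lv, D_Lv, he]
  obtain ⟨h1, h2⟩ := signs h H σ (a1 := (F.ch σ).z1 n) (a2 := (F.ch σ).z2 n) fun p => by
    have := hp p
    rw [e, (F.ch σ).D_decomp n, hn] at this
    simpa using this
  rw [← h5]
  exact le_antisymm (ray H ρ σ hn h3 h4 h1 h2) (ray H σ ρ hn h1 h2 h3 h4)

end Dich

theorem dich_ok (h : StG1) : StDich := fun F φ v H σ ρ =>
  ⟨Dich.main h H σ ρ rfl (by rw [Ch.z1_n1]; norm_num) (by rw [Ch.z2_n1])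
      (by rw [Ch.z1_n1, Ch.z2_n1]; norm_num) fun p => (h F φ v H ρ p).1,
    Dich.main h H σ ρ rfl (by rw [Ch.z1_n2]) (by rw [Ch.z2_n2]; norm_num)
      (by rw [Ch.z1_n2, Ch.z2_n2]; norm_num) fun p => (h F φ v H ρ p).2.1⟩

end Pool.Agent.P.MP_2cea5e_gt
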