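import Pool.Agent.P.MP_2cea5e_gt.Tool

/-! Domination by an integrable function. -/

open MeasureTheory

noncomputable section

namespace Pool.Agent.P.MP_2cea5e_gt

namespace DomP

theorem integrable_exp_abs {e : ℝ} (he : 0 < e) : Integrable fun x : ℝ => Real.exp (-e * |x|) := by
  rw [← integrableOn_univ, ← Set.Iic_union_Ioi (a := (0 : ℝ))]
  refine IntegrableOn.union ?_ ?_
  · refine (integrableOn_exp_mul_Iic he 0).congr_fun (fun x hx => ?_) measurableSet_Iic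
    simp only
    rw [abs_of_nonpos hx]
    ring_nf
  · refine (exp_neg_integrableOn_Ioi 0 he).congr_fun (fun x hx => ?_) measurableSet_Ioi
    simp only
    rw [abs_of_pos hx]

end DomP

theorem integrable_exp_neg_norm {e : ℝ} (he : 0 < e) :
    Integrable fun ξ : ℝ × ℝ => Real.exp (-e * |ξ.1|) * Real.exp (-e * |ξ.2|) :=
  (DomP.integrable_exp_abs he).mul_prod (DomP.integrable_exp_abs he)

/-- On the cone of a chart the coordinates are bounded by `-(z1 + z2)`. -/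
theorem cone_bound (κ : Ch) : ∃ C0 : ℝ, 0 < C0 ∧ ∀ p : X, κ.cone p →
    |p.2.1| ≤ -C0 * (κ.z1 p + κ.z2 p) ∧ |p.2.2| ≤ -C0 * (κ.z1 p + κ.z2 p) := by
  refine ⟨1 + |κ.n1.2.1| + |κ.n1.2.2| + |κ.n2.2.1| + |κ.n2.2.2|, by positivity, fun p hp => ?_⟩
  obtain ⟨h1, h2⟩ := hp
  have e1 : p.2.1 = κ.z1 p * κ.n1.2.1 + κ.z2 p * κ.n2.2.1 := by
    conv_lhs => rw [κ.decomp p]
    simp [e0]
  have e2 : p.2.2 = κ.z1 p * κ.n1.2.2 + κ.z2 p * κ.n2.2.2 := by
    conv_lhs => rw [κ.decomp p]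
    simp [e0]
  have a1 := abs_nonneg κ.n1.2.1
  have a2 := abs_nonneg κ.n1.2.2
  have a3 := abs_nonneg κ.n2.2.1
  have a4 := abs_nonneg κ.n2.2.2
  constructor
  · rw [e1]
    refine (abs_add_le _ _).trans ?_
    rw [abs_mul, abs_mul, abs_of_nonpos h1, abs_of_nonpos h2]
    nlinarith [mul_nonneg (neg_nonneg.2 h1) a2, mul_nonneg (neg_nonneg.2 h1) a3,
      mul_nonneg (neg_nonneg.2 h1) a4, mul_nonneg (neg_nonneg.2 h2) a1,
      mul_nonneg (neg_nonneg.2 h2) a2, mul_nonneg (neg_nonneg.2 h2) a4]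
  · rw [e2]
    refine (abs_add_le _ _).trans ?_
    rw [abs_mul, abs_mul, abs_of_nonpos h1, abs_of_nonpos h2]
    nlinarith [mul_nonneg (neg_nonneg.2 h1) a1, mul_nonneg (neg_nonneg.2 h1) a3,
      mul_nonneg (neg_nonneg.2 h1) a4, mul_nonneg (neg_nonneg.2 h2) a1,
      mul_nonneg (neg_nonneg.2 h2) a2, mul_nonneg (neg_nonneg.2 h2) a3]

/-- Exponential decay on the cone. -/
theorem cone_exp (κ : Ch) {ε : ℝ} (hε : 0 < ε) : ∃ e : ℝ, 0 < e ∧ ∀ p : X, κ.cone p →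
    Real.exp (ε * κ.z1 p + ε * κ.z2 p) ≤ Real.exp (-e * |p.2.1|) * Real.exp (-e * |p.2.2|) := by
  obtain ⟨C0, h0, h⟩ := cone_bound κ
  refine ⟨ε / (2 * C0), by positivity, fun p hp => ?_⟩
  obtain ⟨h1, h2⟩ := h p hp
  rw [← Real.exp_add, Real.exp_le_exp]
  have h3 : ε / (2 * C0) * (|p.2.1| + |p.2.2|) ≤ ε / (2 * C0) * (2 * (-C0 * (κ.z1 p + κ.z2 p))) :=
    mul_le_mul_of_nonneg_left (by linarith) (by positivity)
  have e : ε / (2 * C0) * (2 * (-C0 * (κ.z1 p + κ.z2 p))) = -(ε * κ.z1 p + ε * κ.z2 p) := by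
    field_simp
  linarith

theorem dom_ok : StDom := by
  intro F f h M
  have := F.fin
  have := Fintype.ofFinite F.ι
  choose ε hε hO using h
  choose e he hd using fun σ => cone_exp (F.ch σ) (hε σ)
  choose C hC hb using fun σ => (hO σ).nn M
  refine ⟨fun ξ => ∑ σ, C σ * (Real.exp (-e σ * |ξ.1|) * Real.exp (-e σ * |ξ.2|)),
    integrable_finsetSum _ fun σ _ => (integrable_exp_neg_norm (he σ)).const_mul _,
    fun s ξ hs => ?_⟩
  obtain ⟨σ, hσ⟩ := F.cover (s, ξ)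
  refine (hb σ (s, ξ) hs hσ).trans (le_trans (mul_le_mul_of_nonneg_left (hd σ _ hσ) (hC σ)) ?_)
  exact Finset.single_le_sum (f := fun σ => C σ * (Real.exp (-e σ * |ξ.1|) * Real.exp (-e σ * |ξ.2|)))
    (fun τ _ => mul_nonneg (hC τ) (by positivity)) (Finset.mem_univ σ)

end Pool.Agent.P.MP_2cea5e_gt
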