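import Pool.Agent.P.MP_2cea5e_gt.Tool

/-!
Package 5: positivity of the chart moment coordinates and the order of the vertices.
-/

open scoped ContDiff Topology
open Filter

noncomputable section

namespace Pool.Agent.P.MP_2cea5e_gt

namespace G1P

theorem exp_lim (x c : ℝ) (hc : 0 < c) :
    Tendsto (fun r : ℝ => Real.exp (x + r * c)) atBot (𝓝 0) :=
  Real.tendsto_exp_atBot.comp
    (tendsto_atBot_add_const_left _ x (tendsto_id.atBot_mul_const hc))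

theorem exp_conv (x c : ℝ) (hc : 0 ≤ c) :
    ∃ L, Tendsto (fun r : ℝ => Real.exp ((x + r * c) / 2)) atBot (𝓝 L) := by
  rcases hc.eq_or_lt with h | h
  · subst h
    exact ⟨Real.exp (x / 2), by simp⟩
  · refine ⟨0, (exp_lim (x / 2) (c / 2) (by linarith)).congr fun r => ?_⟩
    congr 1; ring

/-- Decay along a ray going into the cone. -/
theorem ray_lim {κ : Ch} {a b : ℝ} {f : X → ℝ} (hf : κ.S a b f) (p u : X) (h0 : u.1 = 0)
    (h1 : 0 ≤ κ.z1 u) (h2 : 0 ≤ κ.z2 u) (h : 0 < a * κ.z1 u + b * κ.z2 u) :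
    Tendsto (fun r : ℝ => f (p + r • u)) atBot (𝓝 0) := by
  obtain ⟨k, hk, hf⟩ := hf
  obtain ⟨L1, hL1⟩ := exp_conv (κ.z1 p) _ h1
  obtain ⟨L2, hL2⟩ := exp_conv (κ.z2 p) _ h2
  have hpt : Tendsto (fun r : ℝ => κ.pt (p + r • u)) atBot (𝓝 (p.1, L1, L2)) := by
    have e : (fun r : ℝ => κ.pt (p + r • u)) = fun r : ℝ =>
        ((p.1, Real.exp ((κ.z1 p + r * κ.z1 u) / 2), Real.exp ((κ.z2 p + r * κ.z2 u) / 2)) : X) := by
      funext r
      simp only [Ch.pt, Ch.z1_add, Ch.z2_add, Prod.fst_add, Prod.smul_fst, h0, smul_zero, add_zero]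
    rw [e]
    exact tendsto_const_nhds.prodMk_nhds (hL1.prodMk_nhds hL2)
  have hk' := (hk.cont.tendsto _).comp hpt
  have he := exp_lim (a * κ.z1 p + b * κ.z2 p) _ h
  have := he.mul hk'
  rw [zero_mul] at this
  refine this.congr fun r => ?_
  rw [hf, Ch.z1_add, Ch.z2_add, Function.comp_apply]
  congr 2
  ring

theorem pos_of_lim {g g' : ℝ → ℝ} (hd : ∀ r, HasDerivAt g (g' r) r) (hp : ∀ r, 0 < g' r)
    (hl : Tendsto g atBot (𝓝 0)) (r : ℝ) : 0 < g r := by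
  have hm : StrictMono g := strictMono_of_deriv_pos fun x => by rw [(hd x).deriv]; exact hp x
  have h1 : 0 ≤ g (r - 1) := hm.monotone.le_of_tendsto hl _
  exact h1.trans_lt (hm (by linarith))

theorem pos_sp {φ : X → ℝ} (P : Pot φ) {u : X} (h0 : u.1 = 0) {a b : ℝ} (h : Li a b u = 1)
    (p : X) : 0 < D u (D u φ) p := by
  obtain ⟨s, x, y⟩ := u
  simp only at h0
  subst h0
  refine P.pos_dir ?_ p
  by_contra hc
  push Not at hc
  simp [Li_apply, hc.1, hc.2] at h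

theorem pos_dirD {φ : X → ℝ} (P : Pot φ) (w : ℝ × ℝ) {u : X} (h0 : u.1 = 0) {a b : ℝ}
    (h : Li a b u = 1) (p : X)
    (hl : Tendsto (fun r : ℝ => D u (φ - Lv w) (p + r • u)) atBot (𝓝 0)) :
    0 < D u (φ - Lv w) p := by
  have hs : Sm (D u (φ - Lv w)) := sm_D _ (sm_sub P.sm (sm_Li _ _))
  have := pos_of_lim (fun r => hasDerivAt_line hs p u r)
    (fun r => by rw [D2_subLv P.sm]; exact pos_sp P h0 h _) hl 0
  simpa using this

theorem x1_pos {F : Fan} {φ : X → ℝ} {v : F.ι → ℝ × ℝ} (H : Tor F φ v) (σ : F.ι) (p : X) :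
    0 < D (F.ch σ).n1 (φ - Lv (v σ)) p :=
  pos_dirD H.pot _ rfl (F.ch σ).z1_n1 p
    (ray_lim (H.aff σ).gain1 p _ rfl (by rw [Ch.z1_n1]; norm_num) (by rw [Ch.z2_n1])
      (by rw [Ch.z1_n1, Ch.z2_n1]; norm_num))

theorem x2_pos {F : Fan} {φ : X → ℝ} {v : F.ι → ℝ × ℝ} (H : Tor F φ v) (σ : F.ι) (p : X) :
    0 < D (F.ch σ).n2 (φ - Lv (v σ)) p :=
  pos_dirD H.pot _ rfl (F.ch σ).z2_n2 p
    (ray_lim (H.aff σ).gain2 p _ rfl (by rw [Ch.z1_n2]) (by rw [Ch.z2_n2]; norm_num)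
      (by rw [Ch.z1_n2, Ch.z2_n2]; norm_num))

/-- A spatial derivative tends to the value of the vertex form deep in the cone. -/
theorem D_lim {F : Fan} {φ : X → ℝ} {v : F.ι → ℝ × ℝ} (H : Tor F φ v) (σ : F.ι) {n : X}
    (hn : n.1 = 0) :
    Tendsto (fun r : ℝ => D n φ (0 + r • ((F.ch σ).n1 + (F.ch σ).n2))) atBot
      (𝓝 (Lv (v σ) n)) := by
  set κ := F.ch σ with hκ
  have z1u : κ.z1 (κ.n1 + κ.n2) = 1 := by
    have := κ.z1_add κ.n1 κ.n2 1
    rw [one_smul, Ch.z1_n1, Ch.z1_n2] at this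
    rw [this]; ring
  have z2u : κ.z2 (κ.n1 + κ.n2) = 1 := by
    have := κ.z2_add κ.n1 κ.n2 1
    rw [one_smul, Ch.z2_n1, Ch.z2_n2] at this
    rw [this]; ring
  have hu : (κ.n1 + κ.n2).1 = 0 := by simp [Ch.n1, Ch.n2]
  have l1 := ray_lim (H.aff σ).gain1 0 _ hu (by rw [z1u]; norm_num) (by rw [z2u]; norm_num)
    (by rw [z1u, z2u]; norm_num)
  have l2 := ray_lim (H.aff σ).gain2 0 _ hu (by rw [z1u]; norm_num) (by rw [z2u]; norm_num)
    (by rw [z1u, z2u]; norm_num)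
  have := ((l1.const_mul (κ.z1 n)).add (l2.const_mul (κ.z2 n))).add_const (Lv (v σ) n)
  simp only [mul_zero, add_zero, zero_add] at this
  refine this.congr fun r => ?_
  have h1 := congrFun (κ.D_decomp n (φ - Lv (v σ))) (r • (κ.n1 + κ.n2))
  rw [D_sub n H.pot.sm (sm_Li _ _), D_Lv] at h1
  simp only [Pi.add_apply, Pi.sub_apply, Pi.mul_apply, K_apply, hn, zero_mul, zero_add] at h1
  rw [zero_add]
  linarith

theorem ord_dir {F : Fan} {φ : X → ℝ} {v : F.ι → ℝ × ℝ} (H : Tor F φ v) (σ ρ : F.ι) {n : X}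
    (hn : n.1 = 0) (h : ∀ p, 0 < D n (φ - Lv (v ρ)) p) : Lv (v ρ) n ≤ Lv (v σ) n := by
  refine ge_of_tendsto' (D_lim H σ hn) fun r => ?_
  have h1 := h (0 + r • ((F.ch σ).n1 + (F.ch σ).n2))
  rw [D_sub n H.pot.sm (sm_Li _ _), D_Lv] at h1
  simp only [Pi.sub_apply, K_apply] at h1
  linarith

end G1P

theorem g1_ok : StG1 := by
  intro F φ v H σ p
  refine ⟨G1P.x1_pos H σ p, G1P.x2_pos H σ p, fun hc => ?_⟩
  have hs : Sm (φ - Lv (v σ)) := sm_sub H.pot.sm (sm_Li _ _)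
  have hd := fun r => hasDerivAt_line hs ((p.1, 0) : X) ((0, p.2) : X) r
  have ha : Antitone fun r : ℝ => (φ - Lv (v σ)) (((p.1, 0) : X) + r • ((0, p.2) : X)) := by
    refine antitone_of_deriv_nonpos (fun r => (hd r).differentiableAt) fun r => ?_
    rw [(hd r).deriv, (F.ch σ).D_decomp]
    have h3 : (F.ch σ).z1 ((0, p.2) : X) = (F.ch σ).z1 p := rfl
    have h4 : (F.ch σ).z2 ((0, p.2) : X) = (F.ch σ).z2 p := rfl
    simp only [Pi.add_apply, Pi.mul_apply, K_apply, h3, h4, zero_mul, zero_add]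
    have h5 := mul_nonpos_of_nonpos_of_nonneg hc.1
      (G1P.x1_pos H σ (((p.1, 0) : X) + r • ((0, p.2) : X))).le
    have h6 := mul_nonpos_of_nonpos_of_nonneg hc.2
      (G1P.x2_pos H σ (((p.1, 0) : X) + r • ((0, p.2) : X))).le
    linarith
  have h := ha (zero_le_one' ℝ)
  simpa [Li_apply] using h

theorem ord_ok (h : StG1) : StOrd := fun F φ v H σ ρ =>
  ⟨G1P.ord_dir H σ ρ rfl fun p => (h F φ v H ρ p).1,
    G1P.ord_dir H σ ρ rfl fun p => (h F φ v H ρ p).2.1⟩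

end Pool.Agent.P.MP_2cea5e_gt
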