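import Pool.Agent.P.MP_2cea5e_gt.Tool

/-!
The Gronwall step for integrals over the plane.
-/

open scoped ContDiff
open MeasureTheory

noncomputable section

namespace Pool.Agent.P.MP_2cea5e_gt

namespace Gron

theorem hasDerivAt_int {f : X → ℝ} (hf : Sm f) (h1 : Dom f) (h2 : Dom (D e0 f)) (s : ℝ) :
    HasDerivAt (fun s : ℝ => ∫ ξ : ℝ × ℝ, f (s, ξ)) (∫ ξ : ℝ × ℝ, D e0 f (s, ξ)) s := by
  obtain ⟨g, hg, hb⟩ := h2 (|s| + 1)
  have hc : Continuous f := hf.continuous
  have hc' : Continuous (D e0 f) := (sm_D e0 hf).continuous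
  refine (hasDerivAt_integral_of_dominated_loc_of_deriv_le (μ := (volume : Measure (ℝ × ℝ)))
    (F := fun (s : ℝ) (ξ : ℝ × ℝ) => f (s, ξ)) (F' := fun (s : ℝ) (ξ : ℝ × ℝ) => D e0 f (s, ξ))
    (bound := g) (x₀ := s) (Metric.ball_mem_nhds s one_pos)
    (Filter.Eventually.of_forall fun x => (cont_slice hc x).aestronglyMeasurable)
    (h1.integrable hc s) (cont_slice hc' s).aestronglyMeasurable
    (Filter.Eventually.of_forall fun ξ x hx => ?_) hg
    (Filter.Eventually.of_forall fun ξ x _ => hasDerivAt_time hf x ξ)).2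
  rw [Real.norm_eq_abs]
  refine hb x ξ ?_
  rw [Metric.mem_ball, Real.dist_eq] at hx
  have : |x| ≤ |x - s| + |s| := by
    calc |x| = |(x - s) + s| := by ring_nf
      _ ≤ |x - s| + |s| := abs_add_le _ _
  linarith

end Gron

theorem gron_ok : StGron := by
  intro f Y t τ C T hf h1 h2 hpos hC hY ht hτ hT hle
  have hc : Continuous f := hf.continuous
  have hc' : Continuous (D e0 f) := (sm_D e0 hf).continuous
  set I : ℝ → ℝ := fun s => ∫ ξ : ℝ × ℝ, f (s, ξ) with hI
  have hI0 : ∀ s, 0 ≤ I s := fun s => integral_nonneg fun ξ => hpos _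
  have hd : ∀ s, HasDerivAt I (∫ ξ : ℝ × ℝ, D e0 f (s, ξ)) s := Gron.hasDerivAt_int hf h1 h2
  have hb : ∀ s, ∫ ξ : ℝ × ℝ, D e0 f (s, ξ) ≤ τ s * (C * I s) := by
    intro s
    have hi := h1.integrable hc s
    have hint : Integrable fun ξ : ℝ × ℝ => τ s * (C * f (s, ξ) + Y (s, ξ)) :=
      ((hi.const_mul C).add (hY s).1).const_mul (τ s)
    calc ∫ ξ : ℝ × ℝ, D e0 f (s, ξ) ≤ ∫ ξ : ℝ × ℝ, τ s * (C * f (s, ξ) + Y (s, ξ)) :=
          integral_mono (h2.integrable hc' s) hint fun ξ => hle (s, ξ)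
      _ = τ s * (C * I s) := by
          rw [integral_const_mul, integral_add (hi.const_mul C) (hY s).1, integral_const_mul,
            (hY s).2, add_zero]
  set J : ℝ → ℝ := fun s => I s * Real.exp (-(C * t s)) with hJ
  have hJd : ∀ s, HasDerivAt J ((∫ ξ : ℝ × ℝ, D e0 f (s, ξ)) * Real.exp (-(C * t s)) +
      I s * (Real.exp (-(C * t s)) * -(C * τ s))) s := fun s =>
    (hd s).mul ((ht s).const_mul C).neg.exp
  have hanti : Antitone J := by
    refine antitone_of_deriv_nonpos (fun s => (hJd s).differentiableAt) fun s => ?_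
    rw [(hJd s).deriv]
    have h3 := hb s
    have h4 := Real.exp_pos (-(C * t s))
    nlinarith [mul_le_mul_of_nonneg_right h3 h4.le]
  refine ⟨I 0 * Real.exp (C * (T - t 0)), fun s hs => ⟨h1.integrable hc s, ?_⟩⟩
  have h5 : I s * Real.exp (-(C * t s)) ≤ I 0 * Real.exp (-(C * t 0)) := hanti hs
  have h6 : I s = I s * Real.exp (-(C * t s)) * Real.exp (C * t s) := by
    rw [mul_assoc, ← Real.exp_add]; simp
  have h7 : Real.exp (-(C * t 0)) * Real.exp (C * t s) ≤ Real.exp (C * (T - t 0)) := by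
    rw [← Real.exp_add]
    apply Real.exp_le_exp.mpr
    nlinarith [mul_le_mul_of_nonneg_left (hT s) hC]
  calc I s = I s * Real.exp (-(C * t s)) * Real.exp (C * t s) := h6
    _ ≤ I 0 * Real.exp (-(C * t 0)) * Real.exp (C * t s) :=
        mul_le_mul_of_nonneg_right h5 (Real.exp_pos _).le
    _ = I 0 * (Real.exp (-(C * t 0)) * Real.exp (C * t s)) := by ring
    _ ≤ I 0 * Real.exp (C * (T - t 0)) := mul_le_mul_of_nonneg_left h7 (hI0 0)

end Pool.Agent.P.MP_2cea5e_gt
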