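import Pool.Agent.P.MP_2cea5e_gt.Tool

/-!
The complex Hessian of a torus invariant function at a real point.
-/

open scoped ContDiff

noncomputable section

namespace Pool.Agent.P.MP_2cea5e_gt

namespace Hess

/-- Directional derivative on a real normed space. -/
def d {V : Type} [NormedAddCommGroup V] [NormedSpace ℝ V] (u : V) (F : V → ℝ) : V → ℝ :=
  fun z => fderiv ℝ F z u

section general

variable {V : Type} [NormedAddCommGroup V] [NormedSpace ℝ V] {F : V → ℝ}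

theorem sm_d (u : V) (hF : ContDiff ℝ ∞ F) : ContDiff ℝ ∞ (d u F) := by
  have h1 : ContDiff ℝ ∞ (fderiv ℝ F) := ContDiff.fderiv_right hF (m := ∞) (by simp)
  exact h1.clm_apply contDiff_const

theorem hfd (hF : ContDiff ℝ ∞ F) (z : V) : HasFDerivAt F (fderiv ℝ F z) z :=
  (ContDiff.differentiable hF (by simp) z).hasFDerivAt

theorem d_comm (u w : V) (hF : ContDiff ℝ ∞ F) (z : V) : d u (d w F) z = d w (d u F) z := by
  have h1 : ContDiff ℝ ∞ (fderiv ℝ F) := ContDiff.fderiv_right hF (m := ∞) (by simp)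
  have h2 : DifferentiableAt ℝ (fderiv ℝ F) z := ContDiff.differentiable h1 (by simp) z
  have key : ∀ a b : V, d a (d b F) z = fderiv ℝ (fderiv ℝ F) z a b := by
    intro a b
    have := (h2.hasFDerivAt.clm_apply (hasFDerivAt_const b z)).fderiv
    show fderiv ℝ (fun y => fderiv ℝ F y b) z a = _
    rw [this]; simp
  have hs : IsSymmSndFDerivAt ℝ F z :=
    hF.contDiffAt.isSymmSndFDerivAt (by
      simp only [minSmoothness_of_isRCLikeNormedField]
      exact WithTop.coe_le_coe.2 (le_top : ((2 : ℕ) : ℕ∞) ≤ ⊤))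
  rw [key, key, hs.eq]

theorem fd_cplx {a b : V → ℝ} (ha : ContDiff ℝ ∞ a) (hb : ContDiff ℝ ∞ b) (z u : V) :
    fderiv ℝ (fun w => ((a w : ℂ) + Complex.I * (b w : ℂ)) / 2) z u =
      ((d u a z : ℂ) + Complex.I * (d u b z : ℂ)) / 2 := by
  have h1 := Complex.ofRealCLM.hasFDerivAt.comp z (hfd ha z)
  have h2 := Complex.ofRealCLM.hasFDerivAt.comp z (hfd hb z)
  have h3 := (h1.add (h2.const_mul Complex.I)).mul_const (1 / 2 : ℂ)
  have h4 : (fun w => ((a w : ℂ) + Complex.I * (b w : ℂ)) / 2) = fun w =>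
      (⇑Complex.ofRealCLM ∘ a + fun y => Complex.I * (⇑Complex.ofRealCLM ∘ b) y) w * (1 / 2 : ℂ) := by
    funext w; simp; ring
  rw [h4, h3.fderiv]
  simp [d]; ring

theorem fd_ofReal (hF : ContDiff ℝ ∞ F) (z u : V) :
    fderiv ℝ (fun w => (F w : ℂ)) z u = (d u F z : ℂ) := by
  have h1 := Complex.ofRealCLM.hasFDerivAt.comp z (hfd hF z)
  have h4 : (fun w => (F w : ℂ)) = ⇑Complex.ofRealCLM ∘ F := by funext w; simp
  rw [h4, h1.fderiv]
  simp [d]

end general

/-- Real coordinate direction. -/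
def EE (j : Fin 2) : C2 := Pi.single j 1
/-- Imaginary coordinate direction. -/
def JJ (j : Fin 2) : C2 := Pi.single j Complex.I

variable {F : C2 → ℝ}

theorem hess_eq (hF : ContDiff ℝ ∞ F) (z : C2) (j k : Fin 2) : hess F z j k =
    ((d (EE j) (d (EE k) F) z : ℂ) + (d (JJ j) (d (JJ k) F) z : ℂ) +
      Complex.I * ((d (EE j) (d (JJ k) F) z : ℂ) - (d (JJ j) (d (EE k) F) z : ℂ))) / 4 := by
  have h1 : dzb k (fun w => (F w : ℂ)) =
      fun w => ((d (EE k) F w : ℂ) + Complex.I * (d (JJ k) F w : ℂ)) / 2 := by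
    funext w
    simp only [dzb, fd_ofReal hF, EE, JJ]
  simp only [hess, Matrix.of_apply, h1, dz, fd_cplx (sm_d _ hF) (sm_d _ hF)]
  simp only [EE, JJ]
  linear_combination (-(d (Pi.single j Complex.I : C2) (d (Pi.single k Complex.I : C2) F) z : ℂ) / 4)
    * Complex.I_mul_I

theorem rot (hF : ContDiff ℝ ∞ F) (hI : Inv F) (j : Fin 2) (z : C2) :
    (z j).re * d (JJ j) F z - (z j).im * d (EE j) F z = 0 := by
  have hc : HasDerivAt
      (fun r : ℝ => z + (Pi.single j ((Complex.exp (Complex.I * r) - 1) * z j) : C2))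
      (Pi.single j (Complex.I * z j) : C2) 0 := by
    have h1 : HasDerivAt (fun r : ℝ => (Complex.exp (Complex.I * r) - 1) * z j)
        (Complex.I * z j) 0 := by
      have h0 : HasDerivAt (fun r : ℝ => Complex.I * (r : ℂ)) Complex.I 0 := by
        simpa using (Complex.ofRealCLM.hasDerivAt (x := (0:ℝ))).const_mul Complex.I
      simpa using (h0.cexp.sub_const 1).mul_const (z j)
    have h2 := (ContinuousLinearMap.single ℝ (fun _ : Fin 2 => ℂ) j).hasFDerivAt.comp_hasDerivAt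
      (0:ℝ) h1
    exact HasDerivAt.const_add z h2
  have hF' : HasFDerivAt F (fderiv ℝ F z)
      (z + (Pi.single j ((Complex.exp (Complex.I * (0:ℝ)) - 1) * z j) : C2)) := by
    simpa using hfd hF z
  have h3 := hF'.comp_hasDerivAt (0:ℝ) hc
  have h4 : (F ∘ fun r : ℝ =>
      z + (Pi.single j ((Complex.exp (Complex.I * r) - 1) * z j) : C2)) = fun _ => F z := by
    funext r
    have h5 := hI (Function.update 1 j (Complex.exp (Complex.I * r))) z (by
      intro i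
      by_cases hi : i = j
      · subst hi; simp [mul_comm Complex.I]
      · simp [Function.update_of_ne hi])
    rw [← h5]
    simp only [Function.comp_apply]
    congr 1
    funext i
    by_cases hi : i = j
    · subst hi; simp; ring
    · simp [Function.update_of_ne hi, Pi.single_eq_of_ne hi]
  rw [h4] at h3
  have h6 := h3.unique (hasDerivAt_const (0:ℝ) (F z))
  have h7 : (Pi.single j (Complex.I * z j) : C2) = (z j).re • JJ j - (z j).im • EE j := by
    funext i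
    by_cases hi : i = j
    · subst hi
      simp only [JJ, EE, Pi.single_eq_same, Pi.sub_apply, Pi.smul_apply]
      apply Complex.ext <;> simp
    · simp [JJ, EE, Pi.single_eq_of_ne hi]
  rw [h7] at h6
  simpa [d] using h6

theorem rot2 (hF : ContDiff ℝ ∞ F) (hI : Inv F) (j : Fin 2) (z u : C2) :
    (u j).re * d (JJ j) F z + (z j).re * d u (d (JJ j) F) z -
      ((u j).im * d (EE j) F z + (z j).im * d u (d (EE j) F) z) = 0 := by
  have hre := (Complex.reCLM.comp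
    (ContinuousLinearMap.proj (R := ℝ) (φ := fun _ : Fin 2 => ℂ) j)).hasFDerivAt (x := z)
  have him := (Complex.imCLM.comp
    (ContinuousLinearMap.proj (R := ℝ) (φ := fun _ : Fin 2 => ℂ) j)).hasFDerivAt (x := z)
  have h1 := (hre.mul (hfd (sm_d (JJ j) hF) z)).sub (him.mul (hfd (sm_d (EE j) hF) z))
  have h2 : (⇑(Complex.reCLM.comp
      (ContinuousLinearMap.proj (R := ℝ) (φ := fun _ : Fin 2 => ℂ) j)) * d (JJ j) F -
      ⇑(Complex.imCLM.comp
      (ContinuousLinearMap.proj (R := ℝ) (φ := fun _ : Fin 2 => ℂ) j)) * d (EE j) F) =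
      fun _ => (0:ℝ) := by
    funext w
    simpa using rot hF hI j w
  rw [h2] at h1
  have h3 := congrArg (fun L => L u) (h1.unique (hasFDerivAt_const (0:ℝ) z))
  simp [d] at h3 ⊢
  linarith

theorem hess_real (hF : ContDiff ℝ ∞ F) (hI : Inv F) (z : C2) (h0 : ∀ j, (z j).im = 0)
    (h1 : ∀ j, (z j).re ≠ 0) (j k : Fin 2) : hess F z j k =
      (((d (EE j) (d (EE k) F) z + (if j = k then d (EE j) F z / (z j).re else 0)) / 4 : ℝ) : ℂ) := by
  have a1 : ∀ j, d (JJ j) F z = 0 := fun j => by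
    have := rot hF hI j z
    rw [h0 j] at this
    simpa [h1 j] using this
  have a2 : ∀ j k, d (EE j) (d (JJ k) F) z = 0 := fun j k => by
    have := rot2 hF hI k z (EE j)
    have h2 : (EE j k).im = 0 := by
      by_cases hk : k = j
      · subst hk; simp [EE]
      · simp [EE, Pi.single_eq_of_ne hk]
    rw [h0 k, a1 k, h2] at this
    simpa [h1 k] using this
  have a3 : d (JJ j) (d (JJ k) F) z = if j = k then d (EE j) F z / (z j).re else 0 := by
    have := rot2 hF hI k z (JJ j)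
    rw [h0 k, a1 k] at this
    by_cases hk : j = k
    · subst hk
      simp only [JJ, Pi.single_eq_same, Complex.I_im] at this
      simp only [if_true, JJ]
      have := h1 j
      field_simp
      linarith
    · have hk' : k ≠ j := fun h => hk h.symm
      simp only [JJ, Pi.single_eq_of_ne hk', Complex.zero_im] at this
      simpa [hk, h1 k, JJ] using this
  rw [hess_eq hF, d_comm (JJ j) (EE k) hF, a2, a2, a3]
  push_cast
  ring

/-- The real points. -/
def emb : X →L[ℝ] ℝ × C2 :=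
  (ContinuousLinearMap.fst ℝ ℝ (ℝ × ℝ)).prod
    (((Complex.ofRealCLM.comp ((ContinuousLinearMap.fst ℝ ℝ ℝ).comp
      (ContinuousLinearMap.snd ℝ ℝ (ℝ × ℝ)))).smulRight (EE 0)).restrictScalars ℝ +
    ((Complex.ofRealCLM.comp ((ContinuousLinearMap.snd ℝ ℝ ℝ).comp
      (ContinuousLinearMap.snd ℝ ℝ (ℝ × ℝ)))).smulRight (EE 1)).restrictScalars ℝ)

theorem emb_apply (q : X) : emb q = (q.1, ![(q.2.1 : ℂ), (q.2.2 : ℂ)]) := by
  ext i
  · simp [emb]
  · fin_cases i <;> simp [emb, EE]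

theorem emb_e1 : emb e1 = (0, EE 0) := by
  rw [emb_apply]; ext i
  · simp [e1]
  · fin_cases i <;> simp [e1, EE]

theorem emb_e2 : emb e2 = (0, EE 1) := by
  rw [emb_apply]; ext i
  · simp [e2]
  · fin_cases i <;> simp [e2, EE]

variable {f : ℝ × C2 → ℝ}

theorem D_emb (hf : ContDiff ℝ ∞ f) (v : X) : D v (f ∘ emb) = d (emb v) f ∘ emb := by
  funext q
  have := ((hfd hf (emb q)).comp q emb.hasFDerivAt).fderiv
  simp only [D, this]
  simp [d]

theorem sm_sl (hf : ContDiff ℝ ∞ f) (s : ℝ) : ContDiff ℝ ∞ (sl f s) :=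
  hf.comp (contDiff_const.prodMk contDiff_id)

theorem d_sl (hf : ContDiff ℝ ∞ f) (s : ℝ) (u : C2) : d u (sl f s) = sl (d (0, u) f) s := by
  funext z
  have h1 : HasFDerivAt (fun w : C2 => (s, w)) (ContinuousLinearMap.inr ℝ ℝ C2) z :=
    hasFDerivAt_prodMk_right s z
  have := ((hfd hf (s, z)).comp z h1).fderiv
  show fderiv ℝ (f ∘ fun w : C2 => (s, w)) z u = _
  rw [this]
  simp [d, sl]

theorem emb_pt (κ : Ch) (p : X) : emb (κ.pt p) = (p.1, κ.zp p) := by
  rw [emb_apply]; rfl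

theorem lift_eq (κ : Ch) (f : ℝ × C2 → ℝ) : κ.lift f = (f ∘ emb) ∘ κ.pt := by
  funext p
  simp only [Function.comp_apply, emb_pt, Ch.lift]

theorem D1 (κ : Ch) {k : X → ℝ} (hk : Sm k) :
    D κ.n1 (k ∘ κ.pt) = (Li (1 / 2) 0 * D e1 k) ∘ κ.pt := by
  funext p
  rw [κ.D_comp hk, κ.z1_n1, κ.z2_n1]
  simp [Ch.n1, Li_apply]

theorem D2 (κ : Ch) {k : X → ℝ} (hk : Sm k) :
    D κ.n2 (k ∘ κ.pt) = (Li 0 (1 / 2) * D e2 k) ∘ κ.pt := by
  funext p
  rw [κ.D_comp hk, κ.z1_n2, κ.z2_n2]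
  simp [Ch.n2, Li_apply]

end Hess

open Hess in
theorem hess_ok : StHess := by
  intro κ f hf hI p
  have hk : Sm (f ∘ emb) := ContDiff.comp hf emb.contDiff
  have r1 : 0 < (κ.pt p).2.1 := Real.exp_pos _
  have r2 : 0 < (κ.pt p).2.2 := Real.exp_pos _
  have h0 : ∀ j, (κ.zp p j).im = 0 := by
    intro j; fin_cases j <;> simp [Ch.zp]
  have z0 : (κ.zp p 0).re = (κ.pt p).2.1 := by simp [Ch.zp]
  have z1 : (κ.zp p 1).re = (κ.pt p).2.2 := by simp [Ch.zp]
  have h1 : ∀ j, (κ.zp p j).re ≠ 0 := by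
    intro j; fin_cases j
    · exact z0 ▸ r1.ne'
    · exact z1 ▸ r2.ne'
  have hH := hess_real (sm_sl hf p.1) (hI p.1) (κ.zp p) h0 h1
  have b1 : D e1 (f ∘ emb) (κ.pt p) = d (EE 0) (sl f p.1) (κ.zp p) := by
    rw [D_emb hf, emb_e1, d_sl hf]; simp only [Function.comp_apply, emb_pt, sl]
  have b2 : D e2 (f ∘ emb) (κ.pt p) = d (EE 1) (sl f p.1) (κ.zp p) := by
    rw [D_emb hf, emb_e2, d_sl hf]; simp only [Function.comp_apply, emb_pt, sl]
  have b11 : D e1 (D e1 (f ∘ emb)) (κ.pt p) = d (EE 0) (d (EE 0) (sl f p.1)) (κ.zp p) := by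
    rw [D_emb hf, D_emb (sm_d _ hf), emb_e1, d_sl hf, d_sl (sm_d _ hf)]
    simp only [Function.comp_apply, emb_pt, sl]
  have b12 : D e1 (D e2 (f ∘ emb)) (κ.pt p) = d (EE 0) (d (EE 1) (sl f p.1)) (κ.zp p) := by
    rw [D_emb hf, D_emb (sm_d _ hf), emb_e1, emb_e2, d_sl hf, d_sl (sm_d _ hf)]
    simp only [Function.comp_apply, emb_pt, sl]
  have b22 : D e2 (D e2 (f ∘ emb)) (κ.pt p) = d (EE 1) (d (EE 1) (sl f p.1)) (κ.zp p) := by
    rw [D_emb hf, D_emb (sm_d _ hf), emb_e2, d_sl hf, d_sl (sm_d _ hf)]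
    simp only [Function.comp_apply, emb_pt, sl]
  have c11 : D κ.n1 (D κ.n1 (κ.lift f)) p = (κ.pt p).2.1 / 4 * d (EE 0) (sl f p.1) (κ.zp p) +
      (κ.pt p).2.1 * (κ.pt p).2.1 / 4 * d (EE 0) (d (EE 0) (sl f p.1)) (κ.zp p) := by
    rw [lift_eq, D1 κ hk, D1 κ (sm_mul (sm_Li _ _) (sm_D _ hk)),
      D_mul _ (sm_Li _ _) (sm_D _ hk), D_Li]
    simp only [Function.comp_apply, Pi.mul_apply, Pi.add_apply, K_apply, Li_apply, b1, b11]
    simp only [e1]
    ring
  have c12 : D κ.n1 (D κ.n2 (κ.lift f)) p =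
      (κ.pt p).2.1 * (κ.pt p).2.2 / 4 * d (EE 0) (d (EE 1) (sl f p.1)) (κ.zp p) := by
    rw [lift_eq, D2 κ hk, D1 κ (sm_mul (sm_Li _ _) (sm_D _ hk)),
      D_mul _ (sm_Li _ _) (sm_D _ hk), D_Li]
    simp only [Function.comp_apply, Pi.mul_apply, Pi.add_apply, K_apply, Li_apply, b2, b12]
    simp only [e1]
    ring
  have c22 : D κ.n2 (D κ.n2 (κ.lift f)) p = (κ.pt p).2.2 / 4 * d (EE 1) (sl f p.1) (κ.zp p) +
      (κ.pt p).2.2 * (κ.pt p).2.2 / 4 * d (EE 1) (d (EE 1) (sl f p.1)) (κ.zp p) := by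
    rw [lift_eq, D2 κ hk, D2 κ (sm_mul (sm_Li _ _) (sm_D _ hk)),
      D_mul _ (sm_Li _ _) (sm_D _ hk), D_Li]
    simp only [Function.comp_apply, Pi.mul_apply, Pi.add_apply, K_apply, Li_apply, b2, b22]
    simp only [e2]
    ring
  have g00 : hess (sl f p.1) (κ.zp p) 0 0 =
      ((D κ.n1 (D κ.n1 (κ.lift f)) p / ((κ.pt p).2.1 * (κ.pt p).2.1) : ℝ) : ℂ) := by
    rw [hH, c11, if_pos rfl, z0]
    congr 1
    field_simp
    ring
  have g01 : hess (sl f p.1) (κ.zp p) 0 1 =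
      ((D κ.n1 (D κ.n2 (κ.lift f)) p / ((κ.pt p).2.1 * (κ.pt p).2.2) : ℝ) : ℂ) := by
    rw [hH, c12, if_neg (by decide)]
    congr 1
    field_simp
    ring
  have g10 : hess (sl f p.1) (κ.zp p) 1 0 =
      ((D κ.n1 (D κ.n2 (κ.lift f)) p / ((κ.pt p).2.1 * (κ.pt p).2.2) : ℝ) : ℂ) := by
    rw [hH, c12, if_neg (by decide), d_comm (EE 1) (EE 0) (sm_sl hf p.1)]
    congr 1
    field_simp
    ring
  have g11 : hess (sl f p.1) (κ.zp p) 1 1 =
      ((D κ.n2 (D κ.n2 (κ.lift f)) p / ((κ.pt p).2.2 * (κ.pt p).2.2) : ℝ) : ℂ) := by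
    rw [hH, c22, if_pos rfl, z1]
    congr 1
    field_simp
    ring
  rw [Matrix.eta_fin_two (hess (sl f p.1) (κ.zp p)), g00, g01, g10, g11]

end Pool.Agent.P.MP_2cea5e_gt
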