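import Pool.Agent.P.MP_2cea5e_gt.Tool

/-!
Integration by parts: the integral of a pure divergence vanishes.
-/

open scoped ContDiff
open MeasureTheory

noncomputable section

namespace Pool.Agent.P.MP_2cea5e_gt

namespace IBP

variable {f g h : X → ℝ}

theorem zero_D (hf : Sm f) (η : ℝ × ℝ) (h1 : Dom f) (h2 : Dom (D (0, η) f)) :
    Zero (D (0, η) f) := fun s => by
  have i1 := h1.integrable hf.cont s
  have i2 := h2.integrable (sm_D _ hf).cont s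
  refine ⟨i2, ?_⟩
  have := integral_mul_fderiv_eq_neg_fderiv_mul_of_integrable (μ := volume) (v := η)
    (f := fun _ : ℝ × ℝ => (1 : ℝ)) (g := fun ξ => f (s, ξ)) (by simp)
    (by simpa only [one_mul, fderiv_space hf] using i2) (by simpa only [one_mul] using i1)
    (fun _ _ => differentiableAt_const _)
    (fun ξ _ => (hasFDerivAt_space hf s ξ).differentiableAt)
  simpa [fderiv_space hf] using this

/-- First component of the field. -/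
def Y1 (f g h : X → ℝ) : X → ℝ := h * (D e2 (D e2 f) * D e1 g - D e1 (D e2 f) * D e2 g)
/-- Second component of the field. -/
def Y2 (f g h : X → ℝ) : X → ℝ := h * (D e1 (D e1 f) * D e2 g - D e1 (D e2 f) * D e1 g)

theorem dv_eq (hf : Sm f) (hg : Sm g) (hh : Sm h) :
    dv f g h = D e1 (Y1 f g h) + D e2 (Y2 f g h) := by
  have c1 : D e2 (D e1 (D e2 f)) = D e1 (D e2 (D e2 f)) := D_comm _ _ (sm_D _ hf)
  have c2 : D e2 (D e1 (D e1 f)) = D e1 (D e1 (D e2 f)) := by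
    rw [D_comm e2 e1 (sm_D _ hf), D_comm e2 e1 hf]
  have sm : ∀ (u v w : X), Sm (D u (D v f) * D w g) := fun u v w =>
    sm_mul (sm_D _ (sm_D _ hf)) (sm_D _ hg)
  have m : ∀ (t u v w : X), D t (D u (D v f) * D w g) =
      D t (D u (D v f)) * D w g + D u (D v f) * D t (D w g) := fun t u v w =>
    D_mul t (sm_D _ (sm_D _ hf)) (sm_D _ hg)
  rw [Y1, Y2, D_mul _ hh (sm_sub (sm _ _ _) (sm _ _ _)), D_mul _ hh (sm_sub (sm _ _ _) (sm _ _ _)),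
    D_sub _ (sm _ _ _) (sm _ _ _), D_sub _ (sm _ _ _) (sm _ _ _), m, m, m, m, c1, c2,
    D_comm e2 e1 hg]
  funext p
  simp only [dv, DD, BB, DDv, BBv, Pi.add_apply, Pi.sub_apply, Pi.mul_apply, K_apply]
  ring

theorem Y_eq (κ : Ch) (hf : Sm f) (g h : X → ℝ) :
    Y1 f g h = K (κ.dt * κ.d) * (h * D κ.n2 (D κ.n2 f) * D κ.n1 g -
        h * D κ.n1 (D κ.n2 f) * D κ.n2 g) - K (κ.dt * κ.b) * (h * D κ.n1 (D κ.n1 f) * D κ.n2 g -
        h * D κ.n1 (D κ.n2 f) * D κ.n1 g) ∧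
    Y2 f g h = K (κ.dt * κ.a) * (h * D κ.n1 (D κ.n1 f) * D κ.n2 g -
        h * D κ.n1 (D κ.n2 f) * D κ.n1 g) - K (κ.dt * κ.c) * (h * D κ.n2 (D κ.n2 f) * D κ.n1 g -
        h * D κ.n1 (D κ.n2 f) * D κ.n2 g) := by
  rw [Y1, Y2, κ.e1_eq, κ.e2_eq]
  simp only [DD_dir _ _ _ _ _ _ hf, D_dir _ _ _ _ g]
  constructor <;> funext p <;>
    simp only [Pi.add_apply, Pi.sub_apply, Pi.mul_apply, K_apply, Ch.dt] <;> ring

theorem kmul {κ : Ch} {a b : ℝ} (c : ℝ) (hf : κ.O1 a b f) : κ.O1 a b (K c * f) :=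
  ((κ.S_K c).toO1.mul hf).mono (zero_add _).ge (zero_add _).ge

end IBP

open IBP in
theorem ibp_ok (h : StDom) : StIBP := by
  intro F f g k hf hg hk H
  have H' : ∀ σ, ∃ ε > 0, (F.ch σ).O1 ε ε (Y1 f g k) ∧ (F.ch σ).O1 ε ε (Y2 f g k) := fun σ => by
    obtain ⟨ε, h0, h1, h2, h3, h4⟩ := H σ
    rw [(Y_eq (F.ch σ) hf g k).1, (Y_eq (F.ch σ) hf g k).2]
    exact ⟨ε, h0, (kmul _ (h1.sub h2)).sub (kmul _ (h3.sub h4)),
      (kmul _ (h3.sub h4)).sub (kmul _ (h1.sub h2))⟩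
  obtain ⟨σ, -⟩ := F.cover 0
  obtain ⟨_, -, s1, s2⟩ := H' σ
  rw [dv_eq hf hg hk]
  exact (zero_D s1.1 (1, 0) (h F _ fun σ => (H' σ).imp fun _ h => ⟨h.1, h.2.1.2.1⟩)
    (h F _ fun σ => (H' σ).imp fun _ h => ⟨h.1, h.2.1.2.2 _⟩)).add
    (zero_D s2.1 (0, 1) (h F _ fun σ => (H' σ).imp fun _ h => ⟨h.1, h.2.2.2.1⟩)
    (h F _ fun σ => (H' σ).imp fun _ h => ⟨h.1, h.2.2.2.2 _⟩))

end Pool.Agent.P.MP_2cea5e_gt
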