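import Pool.Agent.P.MP_2cea5e_gt.Tool

/-!
Lower bound of the potential from an exponential moment bound.
-/

open scoped ContDiff ENNReal
open MeasureTheory

noncomputable section

namespace Pool.Agent.P.MP_2cea5e_gt

namespace Low

theorem ip_le (x η : ℝ × ℝ) : ip x η ≤ 2 * (‖x‖ * ‖η‖) := by
  have h1 : x.1 * η.1 ≤ ‖x‖ * ‖η‖ := by
    calc x.1 * η.1 ≤ |x.1 * η.1| := le_abs_self _
      _ = ‖x.1‖ * ‖η.1‖ := by rw [abs_mul]; rfl
      _ ≤ ‖x‖ * ‖η‖ := by gcongr; exacts [norm_fst_le x, norm_fst_le η]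
  have h2 : x.2 * η.2 ≤ ‖x‖ * ‖η‖ := by
    calc x.2 * η.2 ≤ |x.2 * η.2| := le_abs_self _
      _ = ‖x.2‖ * ‖η.2‖ := by rw [abs_mul]; rfl
      _ ≤ ‖x‖ * ‖η‖ := by gcongr; exacts [norm_snd_le x, norm_snd_le η]
  unfold ip
  linarith

theorem ip_sub (x y η : ℝ × ℝ) : ip (x - y) η = ip x η - ip y η := by
  simp only [ip, Prod.fst_sub, Prod.snd_sub]; ring

theorem UU_eq (φ : X → ℝ) (s : ℝ) (ξ : ℝ × ℝ) :
    UU φ (s, ξ) = ip (grad φ (s, ξ)) ξ - φ (s, ξ) := by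
  simp only [UU, ip, grad, Pi.sub_apply, Pi.add_apply, Pi.mul_apply, Li_apply]; ring

theorem Lv_eq (v : ℝ × ℝ) (s : ℝ) (ξ : ℝ × ℝ) : Lv v (s, ξ) = ip v ξ := rfl

theorem vol_ball (c : ℝ × ℝ) {ρ : ℝ} (hρ : 0 < ρ) :
    volume (Metric.ball c ρ) = ENNReal.ofReal (4 * ρ ^ 2) := by
  obtain ⟨a, b⟩ := c
  rw [← ball_prod_same, Measure.volume_eq_prod, Measure.prod_prod, Real.volume_ball,
    Real.volume_ball, ← ENNReal.ofReal_mul (by positivity)]
  congr 1; ring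

/-- A ball of the polygon of large area contains the gradient at a point of controlled size. -/
theorem exists_near (h2 : StArea) {φ : X → ℝ} (P : Pot φ) {s δ B Λ ρ : ℝ} (hδ : 0 < δ)
    (hB : ∫⁻ ξ : ℝ × ℝ, ENNReal.ofReal (Real.exp (δ * ‖ξ‖) * W φ (s, ξ)) ≤ ENNReal.ofReal B)
    (c : ℝ × ℝ) (hρ : 0 < ρ) (hsur : ∀ x ∈ Metric.ball c ρ, ∃ ξ, grad φ (s, ξ) = x)
    (hlt : Real.exp (-(δ * Λ)) * B < 4 * ρ ^ 2) :
    ∃ η : ℝ × ℝ, ‖η‖ ≤ Λ ∧ grad φ (s, η) ∈ Metric.ball c ρ := by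
  by_contra hno
  push Not at hno
  have hA : MeasurableSet {ξ : ℝ × ℝ | Λ < ‖ξ‖} :=
    (isOpen_lt continuous_const continuous_norm).measurableSet
  have hsub : Metric.ball c ρ ⊆ (fun ξ => grad φ (s, ξ)) '' {ξ : ℝ × ℝ | Λ < ‖ξ‖} := by
    intro x hx
    obtain ⟨ξ, hξ⟩ := hsur x hx
    refine ⟨ξ, ?_, hξ⟩
    by_contra hle
    exact hno ξ (not_lt.mp hle) (hξ ▸ hx)
  have h3 : ∫⁻ ξ in {ξ : ℝ × ℝ | Λ < ‖ξ‖}, ENNReal.ofReal (W φ (s, ξ)) ≤
      ∫⁻ ξ in {ξ : ℝ × ℝ | Λ < ‖ξ‖}, ENNReal.ofReal (Real.exp (-(δ * Λ))) *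
        ENNReal.ofReal (Real.exp (δ * ‖ξ‖) * W φ (s, ξ)) := by
    refine setLIntegral_mono' hA fun ξ hξ => ?_
    rw [← ENNReal.ofReal_mul (Real.exp_pos _).le]
    refine ENNReal.ofReal_le_ofReal ?_
    have hW := P.pw (s, ξ)
    have h1 : 1 ≤ Real.exp (-(δ * Λ)) * Real.exp (δ * ‖ξ‖) := by
      rw [← Real.exp_add]
      refine Real.one_le_exp ?_
      have : δ * Λ ≤ δ * ‖ξ‖ := mul_le_mul_of_nonneg_left (le_of_lt hξ) hδ.le
      linarith
    calc W φ (s, ξ) = 1 * W φ (s, ξ) := (one_mul _).symm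
      _ ≤ (Real.exp (-(δ * Λ)) * Real.exp (δ * ‖ξ‖)) * W φ (s, ξ) :=
        mul_le_mul_of_nonneg_right h1 hW.le
      _ = _ := by ring
  have h4 : ENNReal.ofReal (4 * ρ ^ 2) ≤ ENNReal.ofReal (Real.exp (-(δ * Λ)) * B) := by
    calc ENNReal.ofReal (4 * ρ ^ 2) = volume (Metric.ball c ρ) := (vol_ball c hρ).symm
      _ ≤ volume ((fun ξ => grad φ (s, ξ)) '' {ξ : ℝ × ℝ | Λ < ‖ξ‖}) := measure_mono hsub
      _ ≤ _ := h2 φ P s _ hA
      _ ≤ _ := h3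
      _ ≤ ∫⁻ ξ : ℝ × ℝ, ENNReal.ofReal (Real.exp (-(δ * Λ))) *
        ENNReal.ofReal (Real.exp (δ * ‖ξ‖) * W φ (s, ξ)) := setLIntegral_le_lintegral _ _
      _ = ENNReal.ofReal (Real.exp (-(δ * Λ))) *
        ∫⁻ ξ : ℝ × ℝ, ENNReal.ofReal (Real.exp (δ * ‖ξ‖) * W φ (s, ξ)) :=
          lintegral_const_mul' _ _ ENNReal.ofReal_ne_top
      _ ≤ ENNReal.ofReal (Real.exp (-(δ * Λ))) * ENNReal.ofReal B := by gcongr
      _ = _ := (ENNReal.ofReal_mul (Real.exp_pos _).le).symm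
  have h5 := (ENNReal.ofReal_lt_ofReal_iff (by positivity : (0 : ℝ) < 4 * ρ ^ 2)).mpr hlt
  exact absurd h4 (not_le.mpr h5)

/-- The shrunken ball consists of convex combinations. -/
theorem mem_shrink {v x0 z : ℝ × ℝ} {r θ : ℝ} (hθ : 0 < θ)
    (hz : z ∈ Metric.ball ((1 - θ) • v + θ • x0) (θ * r)) :
    ∃ y ∈ Metric.ball x0 r, z = (1 - θ) • v + θ • y := by
  refine ⟨x0 + θ⁻¹ • (z - ((1 - θ) • v + θ • x0)), ?_, ?_⟩
  · rw [Metric.mem_ball, dist_eq_norm] at hz ⊢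
    rw [add_sub_cancel_left, norm_smul, Real.norm_eq_abs, abs_of_pos (inv_pos.mpr hθ),
      inv_mul_lt_iff₀ hθ]
    exact hz
  · rw [smul_add, smul_smul, mul_inv_cancel₀ hθ.ne', one_smul]
    abel

theorem norm_shrink {v x0 z : ℝ × ℝ} {r θ : ℝ} (hθ : 0 < θ)
    (hz : z ∈ Metric.ball ((1 - θ) • v + θ • x0) (θ * r)) :
    ‖z - v‖ ≤ θ * (‖x0 - v‖ + r) := by
  rw [Metric.mem_ball, dist_eq_norm] at hz
  have e : z - v = (z - ((1 - θ) • v + θ • x0)) + θ • (x0 - v) := by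
    rw [sub_smul, one_smul, smul_sub]; abel
  rw [e]
  refine (norm_add_le _ _).trans ?_
  rw [norm_smul, Real.norm_eq_abs, abs_of_pos hθ]
  linarith

end Low

open Low in
theorem low_ok (h1 : StConv) (h2 : StArea) (h3 : StPoly) : StLow := by
  intro F φ v T δ B hδ
  obtain ⟨hin, hsur, -, ⟨M, hM⟩, x0, r, hr, hball⟩ := h3 F φ v T
  have := F.fin
  obtain ⟨R, hR⟩ := Finite.exists_le (fun σ : F.ι => ‖x0 - v σ‖ + r)
  have P := T.pot
  set e : ℝ := min (1 / 4) (r ^ 2 / (|B| + 1)) with he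
  have he0 : 0 < e := lt_min (by norm_num) (by positivity)
  have he4 : e ≤ 1 / 4 := min_le_left _ _
  have heB : e * (|B| + 1) ≤ r ^ 2 := by
    have : e ≤ r ^ 2 / (|B| + 1) := min_le_right _ _
    rwa [le_div_iff₀ (by positivity)] at this
  set A : ℝ := -Real.log e / δ with hAdef
  have hA0 : 0 ≤ A := by
    have : Real.log e ≤ 0 := Real.log_nonpos he0.le (by linarith)
    exact div_nonneg (by linarith) hδ.le
  have hexp : ∀ k : ℕ, Real.exp (-(δ * (A * (k + 1)))) = e ^ (k + 1) := by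
    intro k
    have : -(δ * (A * (k + 1))) = ((k + 1 : ℕ) : ℝ) * Real.log e := by
      rw [hAdef]; push_cast; field_simp
    rw [this, Real.exp_nat_mul, Real.exp_log he0]
  refine ⟨4 * M * A + 24 * R * A, fun s hB σ ξ => ?_⟩
  have hRσ := hR σ
  have hR0 : 0 ≤ R := le_trans (by positivity) hRσ
  have hM0 : 0 ≤ M := le_trans (norm_nonneg _) (hM _ (hin (s, 0)))
  have hθ : ∀ k : ℕ, (0 : ℝ) < (1 / 2) ^ k := fun k => by positivity
  have hθ1 : ∀ k : ℕ, ((1 : ℝ) / 2) ^ k ≤ 1 := fun k => pow_le_one₀ (by norm_num) (by norm_num)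
  have key : ∀ k : ℕ, ∃ η : ℝ × ℝ, ‖η‖ ≤ A * (k + 1) ∧
      grad φ (s, η) ∈ Metric.ball ((1 - ((1 : ℝ) / 2) ^ k) • v σ + ((1 : ℝ) / 2) ^ k • x0)
        ((1 / 2) ^ k * r) := by
    intro k
    refine exists_near h2 P hδ hB _ (mul_pos (hθ k) hr) (fun x hx => ?_) ?_
    · obtain ⟨y, hy, rfl⟩ := mem_shrink (hθ k) hx
      exact hsur _ (hball σ _ (hθ k) (hθ1 k) y hy) s
    · rw [hexp]
      have e1 : e ^ k ≤ (1 / 4) ^ k := pow_le_pow_left₀ he0.le he4 k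
      have e2 : ((1 : ℝ) / 4) ^ k = (1 / 2) ^ k * (1 / 2) ^ k := by
        rw [← mul_pow]; norm_num
      have e3 : e * B ≤ r ^ 2 := by
        have : e * B ≤ e * (|B| + 1) :=
          mul_le_mul_of_nonneg_left ((le_abs_self B).trans (by linarith)) he0.le
        linarith
      have e4 : 0 < ((1 : ℝ) / 4) ^ k * r ^ 2 := by positivity
      calc e ^ (k + 1) * B = e ^ k * (e * B) := by ring
        _ ≤ e ^ k * r ^ 2 := mul_le_mul_of_nonneg_left e3 (by positivity)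
        _ ≤ (1 / 4) ^ k * r ^ 2 := by gcongr
        _ < 4 * ((1 / 4) ^ k * r ^ 2) := by linarith
        _ = 4 * ((1 / 2) ^ k * r) ^ 2 := by rw [e2]; ring
  choose η hη hy using key
  have hyv : ∀ k, ‖grad φ (s, η k) - v σ‖ ≤ (1 / 2) ^ k * R := fun k =>
    (norm_shrink (hθ k) (hy k)).trans (mul_le_mul_of_nonneg_left hRσ (hθ k).le)
  have hU : ∀ k : ℕ, UU φ (s, η k) + φ (s, 0) ≤
      4 * M * A + 4 * R * A * (6 - (2 * k + 6) * (1 / 2) ^ k) := by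
    intro k
    induction k with
    | zero =>
      have c1 := h1 φ P s 0 (η 0)
      rw [UU_eq] at c1 ⊢
      have c2 : ip (grad φ (s, 0)) 0 = 0 := by simp [ip]
      have c3 := ip_le (grad φ (s, η 0) - grad φ (s, 0)) (η 0)
      rw [ip_sub] at c3
      have c4 : ‖grad φ (s, η 0) - grad φ (s, 0)‖ ≤ 2 * M :=
        (norm_sub_le _ _).trans (by linarith [hM _ (hin (s, η 0)), hM _ (hin (s, 0))])
      have c5 : ‖η 0‖ ≤ A := by simpa using hη 0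
      have c6 : ‖grad φ (s, η 0) - grad φ (s, 0)‖ * ‖η 0‖ ≤ 2 * M * A :=
        mul_le_mul c4 c5 (norm_nonneg _) (by positivity)
      norm_num
      linarith
    | succ k ih =>
      have c1 := h1 φ P s (η k) (η (k + 1))
      rw [UU_eq φ s (η (k + 1))]
      have c3 := ip_le (grad φ (s, η (k + 1)) - grad φ (s, η k)) (η (k + 1))
      rw [ip_sub] at c3
      have c4 : ‖grad φ (s, η (k + 1)) - grad φ (s, η k)‖ ≤ 2 * ((1 / 2) ^ k * R) := by
        have e : grad φ (s, η (k + 1)) - grad φ (s, η k) =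
            (grad φ (s, η (k + 1)) - v σ) - (grad φ (s, η k) - v σ) := by abel
        rw [e]
        refine (norm_sub_le _ _).trans ?_
        have a1 := hyv (k + 1)
        have a2 := hyv k
        have a3 : 0 ≤ ((1 : ℝ) / 2) ^ k * R := by positivity
        rw [pow_succ] at a1
        linarith
      have c5 : ‖η (k + 1)‖ ≤ A * (k + 2) := by
        have := hη (k + 1)
        push_cast at this
        linarith
      have c6 : ‖grad φ (s, η (k + 1)) - grad φ (s, η k)‖ * ‖η (k + 1)‖ ≤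
          2 * ((1 / 2) ^ k * R) * (A * (k + 2)) :=
        mul_le_mul c4 c5 (norm_nonneg _) (by positivity)
      push_cast
      rw [pow_succ]
      linarith
  have hfin : ∀ k : ℕ, φ (s, 0) - (4 * M * A + 24 * R * A) - (1 / 2) ^ k * (2 * R * ‖ξ‖) ≤
      (φ - Lv (v σ)) (s, ξ) := by
    intro k
    have c1 := h1 φ P s (η k) ξ
    have c2 := hU k
    have c3 := ip_le (v σ - grad φ (s, η k)) ξ
    rw [ip_sub, norm_sub_rev] at c3
    have c4 : ‖grad φ (s, η k) - v σ‖ * ‖ξ‖ ≤ (1 / 2) ^ k * R * ‖ξ‖ :=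
      mul_le_mul_of_nonneg_right (hyv k) (norm_nonneg _)
    have c5 : 0 ≤ 4 * R * A * ((2 * k + 6) * ((1 : ℝ) / 2) ^ k) := by positivity
    rw [Pi.sub_apply, Lv_eq]
    linarith
  have hlim : Filter.Tendsto (fun k : ℕ => φ (s, 0) - (4 * M * A + 24 * R * A) -
      ((1 : ℝ) / 2) ^ k * (2 * R * ‖ξ‖)) Filter.atTop
      (nhds (φ (s, 0) - (4 * M * A + 24 * R * A) - 0 * (2 * R * ‖ξ‖))) :=
    ((tendsto_pow_atTop_nhds_zero_of_lt_one (by norm_num) (by norm_num)).mul_const _).const_sub _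
  have := le_of_tendsto' hlim hfin
  simpa using this

end Pool.Agent.P.MP_2cea5e_gt
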