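import Pool.Agent.P.MP_2cea5e_gt.Tool

/-!
Package MainB: from the estimates in logarithmic coordinates to the estimates on the surface.
-/

open scoped ContDiff ENNReal
open MeasureTheory Set

noncomputable section

namespace Pool.Agent.P.MP_2cea5e_gt

namespace MainB

/-- A clock that runs through `(0,T)` and starts at `t₀`. -/
theorem exists_clock {t₀ T : ℝ} (h0 : 0 < t₀) (h1 : t₀ < T) : ∃ t τ : ℝ → ℝ,
    ContDiff ℝ ∞ t ∧ ContDiff ℝ ∞ τ ∧ (∀ s, 0 < τ s) ∧ (∀ s, HasDerivAt t (τ s) s) ∧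
    (∀ s, t s ∈ Ioo 0 T) ∧ ∀ u ∈ Ico t₀ T, ∃ s, 0 ≤ s ∧ t s = u := by
  have hB : 0 < T - t₀ := sub_pos.mpr h1
  have hT : 0 < T := h0.trans h1
  have hD : ∀ s, 0 < T - t₀ + t₀ * Real.exp s := fun s => by positivity
  have hs : ContDiff ℝ ∞ fun s => T - t₀ + t₀ * Real.exp s :=
    contDiff_const.add (contDiff_const.mul Real.contDiff_exp)
  refine ⟨fun s => T - T * (T - t₀) * (T - t₀ + t₀ * Real.exp s)⁻¹,
    fun s => T * (T - t₀) * (t₀ * Real.exp s / (T - t₀ + t₀ * Real.exp s) ^ 2),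
    contDiff_const.sub (contDiff_const.mul (hs.inv fun s => (hD s).ne')),
    contDiff_const.mul ((contDiff_const.mul Real.contDiff_exp).div (hs.pow 2)
      fun s => (pow_pos (hD s) 2).ne'), fun s => by have := hD s; positivity, fun s => ?_,
    fun s => ⟨?_, ?_⟩, fun u hu => ?_⟩
  · have h2 := (((((Real.hasDerivAt_exp s).const_mul t₀).const_add (T - t₀)).inv
      (hD s).ne').const_mul (T * (T - t₀))).const_sub T
    refine h2.congr_deriv ?_
    ring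
  · have h2 := hD s
    have h3 : T - T * (T - t₀) * (T - t₀ + t₀ * Real.exp s)⁻¹ =
        T * (t₀ * Real.exp s) / (T - t₀ + t₀ * Real.exp s) := by
      field_simp
      ring
    change 0 < T - T * (T - t₀) * (T - t₀ + t₀ * Real.exp s)⁻¹
    rw [h3]
    positivity
  · have h2 := hD s
    have : 0 < T * (T - t₀) * (T - t₀ + t₀ * Real.exp s)⁻¹ := by positivity
    change T - T * (T - t₀) * (T - t₀ + t₀ * Real.exp s)⁻¹ < T
    linarith
  · have h2 : 0 < T - u := sub_pos.mpr hu.2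
    have h3 : 0 < u := h0.trans_le hu.1
    refine ⟨Real.log (u * (T - t₀) / (t₀ * (T - u))), Real.log_nonneg ?_, ?_⟩
    · rw [one_le_div (by positivity)]
      nlinarith [hu.1]
    · have h4 : T - t₀ + t₀ * (u * (T - t₀) / (t₀ * (T - u))) = T * (T - t₀) / (T - u) := by
        field_simp
        ring
      change T - T * (T - t₀) *
        (T - t₀ + t₀ * Real.exp (Real.log (u * (T - t₀) / (t₀ * (T - u)))))⁻¹ = u
      rw [Real.exp_log (by positivity), h4]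
      field_simp
      ring

/-- Every point of the open torus is a rotated real point. -/
theorem exists_zp (κ : Ch) (s : ℝ) {z : C2} (hz : ∀ j, z j ≠ 0) :
    ∃ (ξ : ℝ × ℝ) (θ : C2), (∀ j, ‖θ j‖ = 1) ∧ θ * κ.zp (s, ξ) = z := by
  have hn : ∀ j, 0 < ‖z j‖ := fun j => norm_pos_iff.mpr (hz j)
  set q : X := 0 + (2 * Real.log ‖z 0‖) • κ.n1 + (2 * Real.log ‖z 1‖) • κ.n2 with hq
  have h1 : κ.z1 q = 2 * Real.log ‖z 0‖ := by
    rw [hq, κ.z1_add, κ.z1_add, κ.z1_n1, κ.z1_n2]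
    simp [Ch.z1, Li_apply]
  have h2 : κ.z2 q = 2 * Real.log ‖z 1‖ := by
    rw [hq, κ.z2_add, κ.z2_add, κ.z2_n1, κ.z2_n2]
    simp [Ch.z2, Li_apply]
  have h3 : κ.z1 (s, q.2) = 2 * Real.log ‖z 0‖ := h1
  have h4 : κ.z2 (s, q.2) = 2 * Real.log ‖z 1‖ := h2
  refine ⟨q.2, fun j => z j / ‖z j‖, fun j => ?_, funext fun j => ?_⟩
  · rw [norm_div, Complex.norm_real, norm_norm, div_self (hn j).ne']
  · have h5 : κ.zp (s, q.2) j = ‖z j‖ := by
      fin_cases j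
      · simp only [Ch.zp, Ch.pt, h3, Fin.zero_eta, Matrix.cons_val_zero]
        rw [mul_div_cancel_left₀ _ two_ne_zero, Real.exp_log (hn 0)]
      · simp only [Ch.zp, Ch.pt, h4, Fin.mk_one, Matrix.cons_val_one, Matrix.cons_val_zero]
        rw [mul_div_cancel_left₀ _ two_ne_zero, Real.exp_log (hn 1)]
    rw [Pi.mul_apply, h5, div_mul_cancel₀ _ (Complex.ofReal_ne_zero.mpr (hn j).ne')]

/-- A bound at the real points gives a bound everywhere. -/
theorem bound_of_zp (κ : Ch) (s : ℝ) {g : C2 → ℝ} (hg : Continuous g) (hi : Inv g) {C : ℝ}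
    (h : ∀ ξ, |g (κ.zp (s, ξ))| ≤ C) (z : C2) : |g z| ≤ C := by
  have hd : Dense (Set.pi univ fun _ : Fin 2 => ({0}ᶜ : Set ℂ)) :=
    dense_pi univ fun _ _ => dense_compl_singleton 0
  have hc : IsClosed {z | |g z| ≤ C} := isClosed_le hg.abs continuous_const
  refine closure_minimal (s := Set.pi univ fun _ : Fin 2 => ({0}ᶜ : Set ℂ)) (fun w hw => ?_) hc
    (hd z)
  obtain ⟨ξ, θ, h1, rfl⟩ := exists_zp κ s fun j => hw j (mem_univ j)
  change |g _| ≤ C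
  rw [hi θ _ h1]
  exact h ξ

theorem measurableSet_cn (κ : Ch) : MeasurableSet κ.cn :=
  ((isClosed_le (cont_slice κ.sm_z1.cont 0) continuous_const).inter
    (isClosed_le (cont_slice κ.sm_z2.cont 0) continuous_const)).measurableSet

theorem cont_vol (h4 : StVol) {f : ℝ × C2 → ℝ} (hf : ContDiff ℝ ∞ f) (s : ℝ) :
    Continuous (vol (sl f s)) := by
  have h : ∀ j k, Continuous fun z => hess (sl f s) z j k := fun j k =>
    Continuous.comp (g := fun x : ℝ × C2 => hess (sl f x.1) x.2 j k) (f := fun z : C2 => (s, z))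
      (h4.1 f hf j k).continuous (continuous_const.prodMk continuous_id)
  have e : vol (sl f s) = fun z => (hess (sl f s) z 0 0 * hess (sl f s) z 1 1 -
      hess (sl f s) z 0 1 * hess (sl f s) z 1 0).re := funext fun z => by
    rw [vol, Matrix.det_fin_two]
  rw [e]
  exact Complex.continuous_re.comp (((h 0 0).mul (h 1 1)).sub ((h 0 1).mul (h 1 0)))

/-- The pointwise inequality for the integrand. -/
theorem pointwise {w w0 Z Z' c p : ℝ} (hw : 0 < w) (hc : 0 < c) (hp : 0 < p)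
    (h : c * Real.exp Z' ≤ w0) :
    (w * Real.exp (-Z) / (w0 * Real.exp (-Z))) ^ (1 + p) * (w0 * Real.exp (-Z)) * Real.exp Z ≤
      c⁻¹ ^ p * (Real.exp (p * (Real.log w - Z')) * w) := by
  have h0 : 0 < c * Real.exp Z' := by positivity
  have h1 : 0 < w0 := h0.trans_le h
  have h2 : (w / w0) ^ p ≤ c⁻¹ ^ p * Real.exp (p * (Real.log w - Z')) := by
    rw [mul_comm p, Real.exp_mul, ← Real.mul_rpow (by positivity) (by positivity), Real.exp_sub,
      Real.exp_log hw]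
    refine Real.rpow_le_rpow (by positivity) ?_ hp.le
    calc w / w0 ≤ w / (c * Real.exp Z') := div_le_div_of_nonneg_left hw.le h0 h
      _ = c⁻¹ * (w / Real.exp Z') := by field_simp
  rw [mul_div_mul_right _ _ (Real.exp_pos _).ne', Real.rpow_add (by positivity), Real.rpow_one,
    mul_assoc, mul_assoc w0, ← Real.exp_add, neg_add_cancel, Real.exp_zero, mul_one]
  calc w / w0 * (w / w0) ^ p * w0 = (w / w0) ^ p * w := by field_simp
    _ ≤ c⁻¹ ^ p * Real.exp (p * (Real.log w - Z')) * w := mul_le_mul_of_nonneg_right h2 hw.le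
    _ = _ := mul_assoc _ _ _

/-- Integration over the union of the cones. -/
theorem lint_le (F : Fan) (g : ℝ × ℝ → ℝ≥0∞) : ∫⁻ ξ, g ξ ≤ ∑' σ, ∫⁻ ξ in (F.ch σ).cn, g ξ := by
  have := F.fin
  have h : (univ : Set (ℝ × ℝ)) = ⋃ σ, (F.ch σ).cn :=
    (eq_univ_of_forall fun ξ => mem_iUnion.mpr (F.cover (0, ξ))).symm
  rw [← setLIntegral_univ, h]
  exact lintegral_iUnion_le _ _

end MainB

open MainB in
theorem main_ok (h1 : StCore) (h2 : StTor) (h3 : StPolar) (h4 : StVol) : StMain := by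
  intro ι _ m ψ κ c T φ hm hK hκ hF t₀ p ht₀ hp hp3
  rcases le_or_gt T t₀ with hT | hT
  · exact ⟨0, fun t ht => absurd (ht.1.trans_lt ht.2) (not_lt.mpr hT)⟩
  obtain ⟨t, τ, ht, hτ, hτ0, hd, hmem, hsurj⟩ := exists_clock ht₀ hT
  obtain ⟨σ₀, -⟩ := hm.cover 0
  choose a b hab using fun σ => hK.glue σ σ₀
  set f : ι → ℝ × C2 → ℝ := fun σ q => ψ σ q.2 + φ (t q.1) σ q.2 with hf
  set f0 : ι → ℝ × C2 → ℝ := fun σ q => ψ σ q.2 with hf0
  have sf0 : ∀ σ, ContDiff ℝ ∞ (f0 σ) := fun σ => (hK.smooth σ).comp contDiff_snd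
  have sφ : ∀ σ, ContDiff ℝ ∞ fun q : ℝ × C2 => φ (t q.1) σ q.2 := fun σ =>
    (hF.smooth σ).comp_contDiff (f := fun q : ℝ × C2 => (t q.1, q.2))
      ((ht.comp contDiff_fst).prodMk contDiff_snd) fun q => ⟨hmem q.1, mem_univ _⟩
  have sf : ∀ σ, ContDiff ℝ ∞ (f σ) := fun σ => (sf0 σ).add (sφ σ)
  have inv : ∀ σ s, Inv (sl (f σ) s) := fun σ s θ z hθ => by
    change ψ σ _ + φ (t s) σ _ = ψ σ z + φ (t s) σ z
    rw [hK.inv σ θ z hθ, hF.inv _ (hmem s) σ θ z hθ]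
  obtain ⟨T1, E1⟩ := h2 ι m hm f a b σ₀ sf inv (fun σ s z => hF.pos _ (hmem s) σ z)
    fun σ s w hw => by
      change ψ σ _ + φ (t s) σ _ - (ψ σ₀ _ + φ (t s) σ₀ _) = _
      rw [hF.glue _ (hmem s) σ σ₀ w hw, ← hab σ w hw]
      ring
  obtain ⟨T0, E0⟩ := h2 ι m hm f0 a b σ₀ sf0 (fun σ _ => hK.inv σ) (fun σ _ z => hK.pos σ z)
    fun σ _ w hw => hab σ w hw
  set F := fanOf hm
  set Φ := (F.ch σ₀).lift (f σ₀) with hΦ
  set Φ0 := (F.ch σ₀).lift (f0 σ₀) with hΦ0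
  set v : F.ι → ℝ × ℝ := fun σ => (-(b σ 0) / 2, -(b σ 1) / 2)
  have hfl : Flow F Φ v (fun s => κ * t s) (fun s => κ * τ s) (c / κ) (κ * T) := by
    refine ⟨T1, ⟨T1.pot, contDiff_const.mul hτ, fun s => mul_pos hκ (hτ0 s), ?_⟩,
      fun s => (hd s).const_mul κ, fun s => mul_le_mul_of_nonneg_left (hmem s).2.le hκ.le⟩
    funext ⟨s, ξ⟩
    have e1 := (((hF.flow _ (hmem s) σ₀ ((F.ch σ₀).zp (s, ξ))).comp s (hd s)).const_add
      (ψ σ₀ ((F.ch σ₀).zp (s, ξ)))).unique (hasDerivAt_time T1.pot.sm s ξ)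
    have e2 : scal (ψ σ₀ + φ (t s) σ₀) ((F.ch σ₀).zp (s, ξ)) = RR Φ (s, ξ) := (E1 σ₀ (s, ξ)).2.2
    rw [← e1, e2]
    simp only [Pi.mul_apply, Pi.sub_apply, Tm_apply, K_apply]
    field_simp
  obtain ⟨C1, hC1⟩ := h1 F Φ v _ _ _ _ p hfl hp hp3
  choose C0 hC0 using fun σ => (T0.aff σ).toO 0
  choose c0 hc0 hc0' using fun σ => (T0.w σ).lower 0
  have := F.fin
  obtain ⟨M, hM⟩ := (finite_range C0).bddAbove
  set E : ℝ≥0∞ := ENNReal.ofReal (Real.pi ^ 2) *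
    ∑' ρ : F.ι, ENNReal.ofReal ((c0 ρ)⁻¹ ^ p) * ENNReal.ofReal C1 with hE
  have hEt : E ≠ ⊤ := by
    have := Fintype.ofFinite F.ι
    rw [hE, tsum_fintype]
    exact ENNReal.mul_ne_top ENNReal.ofReal_ne_top (ENNReal.sum_ne_top.mpr fun _ _ =>
      ENNReal.mul_ne_top ENNReal.ofReal_ne_top ENNReal.ofReal_ne_top)
  refine ⟨max (C1 + M) E.toReal, fun u hu σ => ?_⟩
  obtain ⟨s, hs, rfl⟩ := hsurj u hu
  constructor
  · refine bound_of_zp (F.ch σ) s (g := φ (t s) σ)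
      ((sφ σ).continuous.comp (continuous_const.prodMk continuous_id)) (hF.inv _ (hmem s) σ)
      fun ξ => le_max_of_le_left ?_
    obtain ⟨ρ, hρ⟩ := F.cover (0, ξ)
    have e1 : ψ σ ((F.ch σ).zp (s, ξ)) + φ (t s) σ ((F.ch σ).zp (s, ξ)) =
      Φ (s, ξ) - Lv (v σ) (s, ξ) + a σ := (E1 σ (s, ξ)).1
    have e2 : ψ σ ((F.ch σ).zp (s, ξ)) = Φ0 (0, ξ) - Lv (v σ) (s, ξ) + a σ := (E0 σ (0, ξ)).1
    have e3 : |Φ (s, ξ) - Lv (v ρ) (s, ξ)| ≤ C1 := (hC1 s hs ρ).1 ξ hρ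
    have e4 : |Φ0 (0, ξ) - Lv (v ρ) (s, ξ)| ≤ C0 ρ := by
      have := hC0 ρ (0, ξ) (by simp) hρ
      rwa [zero_mul, zero_mul, add_zero, Real.exp_zero, mul_one] at this
    have e5 : C0 ρ ≤ M := hM ⟨ρ, rfl⟩
    rw [abs_le] at e3 e4 ⊢
    constructor <;> linarith [e3.1, e3.2, e4.1, e4.2]
  · refine le_trans ?_ ((ENNReal.ofReal_toReal hEt).symm.le.trans
      (ENNReal.ofReal_le_ofReal (le_max_right _ _)))
    have c1 : Continuous (vol (ψ σ + φ (t s) σ)) := cont_vol h4 (sf σ) s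
    have c2 : Continuous (vol (ψ σ)) := cont_vol h4 (sf0 σ) s
    have i1 : Inv (vol (ψ σ + φ (t s) σ)) :=
      h4.2 _ ((sf σ).comp (contDiff_const.prodMk contDiff_id)) (inv σ s)
    have i2 : Inv (vol (ψ σ)) := h4.2 _ (hK.smooth σ) (hK.inv σ)
    rw [h3 (F.ch σ) s (fun z => ENNReal.ofReal
      ((vol (ψ σ + φ (t s) σ) z / vol (ψ σ) z) ^ (1 + p) * vol (ψ σ) z))
      (((c1.measurable.div c2.measurable).pow_const _).mul c2.measurable).ennreal_ofReal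
      fun θ z hθ => by simp only [i1 θ z hθ, i2 θ z hθ]]
    refine mul_le_mul_right ((lint_le F _).trans (ENNReal.tsum_le_tsum fun ρ => ?_)) _
    refine le_trans (setLIntegral_mono' (measurableSet_cn _) fun ξ hξ => ?_)
      ((lintegral_const_mul' _ _ ENNReal.ofReal_ne_top).le.trans
        (mul_le_mul_right (hC1 s hs ρ).2 _))
    have e1 : vol (ψ σ + φ (t s) σ) ((F.ch σ).zp (s, ξ)) = W Φ (s, ξ) *
      Real.exp (-((F.ch σ).z1 (s, ξ) + (F.ch σ).z2 (s, ξ))) := (E1 σ (s, ξ)).2.1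
    have e2 : vol (ψ σ) ((F.ch σ).zp (s, ξ)) = W Φ0 (0, ξ) *
      Real.exp (-((F.ch σ).z1 (s, ξ) + (F.ch σ).z2 (s, ξ))) := (E0 σ (0, ξ)).2.1
    have e3 : c0 ρ * Real.exp ((F.ch ρ).z1 (s, ξ) + (F.ch ρ).z2 (s, ξ)) ≤ W Φ0 (0, ξ) := by
      have := hc0' ρ (0, ξ) (by simp) hξ
      rwa [one_mul, one_mul] at this
    rw [← ENNReal.ofReal_mul' (Real.exp_pos _).le,
      ← ENNReal.ofReal_mul (Real.rpow_nonneg (inv_pos.mpr (hc0 ρ)).le _), e1, e2]
    refine ENNReal.ofReal_le_ofReal ((pointwise (T1.pot.pw _) (hc0 ρ) hp e3).trans_eq ?_)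
    rw [Ch.den, sub_sub]
    rfl

end Pool.Agent.P.MP_2cea5e_gt
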