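import Pool.Agent.P.MP_2cea5e_gt.Tool

/-!
The bound for the integral of `e^G W` along the flow.
-/

open scoped ContDiff
open MeasureTheory Filter

noncomputable section

namespace Pool.Agent.P.MP_2cea5e_gt

namespace NNP

/-- decay of the Hessian in a chart -/
def He (κ : Ch) (f : X → ℝ) : Prop :=
  κ.O1 (1 / 2) 0 (D κ.n1 (D κ.n1 f)) ∧ κ.O1 0 (1 / 2) (D κ.n2 (D κ.n2 f)) ∧
    κ.O1 (1 / 2) (1 / 2) (D κ.n1 (D κ.n2 f))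

/-- decay of the weighted gradient in a chart -/
def Pa (κ : Ch) (g h : X → ℝ) : Prop :=
  κ.O1 (1 / 2) 0 (h * D κ.n1 g) ∧ κ.O1 0 (1 / 2) (h * D κ.n2 g)

theorem zero_dv (h3 : StIBP) (F : Fan) {f g h : X → ℝ} (hf : Sm f) (hg : Sm g) (hh : Sm h)
    (h1 : ∀ σ, He (F.ch σ) f) (h2 : ∀ σ, Pa (F.ch σ) g h) : Zero (dv f g h) := by
  refine h3 F f g h hf hg hh fun σ => ⟨1 / 2, by norm_num, ?_, ?_, ?_, ?_⟩ <;>
    rw [mul_right_comm]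
  · exact ((h2 σ).1.mul (h1 σ).2.1).mono (by norm_num) (by norm_num)
  · exact ((h2 σ).2.mul (h1 σ).2.2).mono (by norm_num) (by norm_num)
  · exact ((h2 σ).2.mul (h1 σ).1).mono (by norm_num) (by norm_num)
  · exact ((h2 σ).1.mul (h1 σ).2.2).mono (by norm_num) (by norm_num)

/-- the two cases of an exponent -/
def Ca (i : ℕ) (c : ℝ) : Prop := (i = 0 ∧ c = 0) ∨ (i = 1 ∧ 2 ≤ c)

theorem Ca.gain {i : ℕ} {c a : ℝ} (h : Ca i c) (ha : a = c ∨ a = -i) :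
    ((i : ℝ) = 0 ∧ a = 0) ∨ (i : ℝ) = 1 := by
  rcases h with ⟨rfl, rfl⟩ | ⟨rfl, _⟩
  · left
    rcases ha with rfl | rfl <;> simp
  · right
    simp

theorem Ca.nn {i : ℕ} {c : ℝ} (h : Ca i c) : 0 ≤ (i : ℝ) ∧ 2 * (i : ℝ) ≤ c := by
  rcases h with ⟨rfl, rfl⟩ | ⟨rfl, h⟩
  · simp
  · simpa using h

variable {κ : Ch} {φ f G : X → ℝ} {i j : ℕ} {c1 c2 : ℝ}

theorem pa_of {g h : X → ℝ} {a b a' b' a1 b1 : ℝ} (g1 : κ.S a1 b (D κ.n1 g))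
    (g2 : κ.S a b1 (D κ.n2 g)) (hh : κ.S a' b' h) (e1 : 1 / 2 ≤ a' + a1) (e2 : 0 ≤ b' + b)
    (e3 : 0 ≤ a' + a) (e4 : 1 / 2 ≤ b' + b1) : Pa κ g h :=
  ⟨(hh.mul g1).toO1.mono e1 e2, (hh.mul g2).toO1.mono e3 e4⟩

theorem D_G (hf : κ.S 0 0 f) (hG : G = K c1 * κ.z1 + K c2 * κ.z2 + f) (u : X) :
    D u G = K (c1 * κ.z1 u + c2 * κ.z2 u) + D u f := by
  rw [hG, D_add _ (κ.sm_lin _ _) hf.sm, Ch.D_lin]

theorem D2_G (hf : κ.S 0 0 f) (hG : G = K c1 * κ.z1 + K c2 * κ.z2 + f) (u w : X) :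
    D u (D w G) = D u (D w f) := by
  rw [D_G hf hG, D_add _ (sm_K _) (sm_D _ hf.sm), D_K, zero_add]

theorem he_G (hf : κ.S 0 0 f) (hG : G = K c1 * κ.z1 + K c2 * κ.z2 + f) : He κ G := by
  unfold He
  simp only [D2_G hf hG]
  exact ⟨hf.h11.toO1, hf.h22.toO1, hf.h12.toO1⟩

theorem G1 (hf : κ.S 0 0 f) (hG : G = K c1 * κ.z1 + K c2 * κ.z2 + f) (hi : Ca i c1) :
    κ.S ((1 - i) / 2) 0 (D κ.n1 G) := by
  rw [D_G hf hG, κ.z1_n1, κ.z2_n1]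
  rcases hi with ⟨rfl, rfl⟩ | ⟨rfl, _⟩
  · exact (hf.gain1.cast (by norm_num) rfl).congr (by funext p; simp)
  · exact ((κ.S_K _).add (hf.D _)).cast (by norm_num) rfl

theorem G2 (hf : κ.S 0 0 f) (hG : G = K c1 * κ.z1 + K c2 * κ.z2 + f) (hj : Ca j c2) :
    κ.S 0 ((1 - j) / 2) (D κ.n2 G) := by
  rw [D_G hf hG, κ.z1_n2, κ.z2_n2]
  rcases hj with ⟨rfl, rfl⟩ | ⟨rfl, _⟩
  · exact (hf.gain2.cast rfl (by norm_num)).congr (by funext p; simp)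
  · exact ((κ.S_K _).add (hf.D _)).cast rfl (by norm_num)

variable {F : Fan} {v : F.ι → ℝ × ℝ}

theorem he_φ (H : Tor F φ v) (σ : F.ι) : He (F.ch σ) φ :=
  ⟨(H.h11 σ).toO1.mono (by norm_num) le_rfl, (H.h22 σ).toO1.mono le_rfl (by norm_num),
    (H.h12 σ).toO1⟩

theorem gr_G (H : Tor F φ v) (σ : F.ι) (g1 : (F.ch σ).S ((1 - i) / 2) 0 (D (F.ch σ).n1 G))
    (g2 : (F.ch σ).S 0 ((1 - j) / 2) (D (F.ch σ).n2 G)) :
    (F.ch σ).S (-i) (-j) (Gr φ G G) := by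
  have h1 : (F.ch σ).S (1 - i) (1 - j) (BB φ G G) := by
    rw [(F.ch σ).BB_eq H.pot.sm, BBv]
    refine Ch.S.sub (Ch.S.add ?_ ?_) ?_
    · exact (((H.h22 σ).mul g1).mul g1).low 0 (2 * j) (by push_cast; ring) (by push_cast; ring)
    · exact (((H.h11 σ).mul g2).mul g2).low (2 * i) 0 (by push_cast; ring) (by push_cast; ring)
    · refine ((H.h12 σ).mul (a' := (1 - i) / 2) (b' := (1 - j) / 2) (Ch.S.add ?_ ?_)).low i j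
        (by ring) (by ring)
      · exact (g1.mul g2).cast (by ring) (by ring)
      · exact (g2.mul g1).cast (by ring) (by ring)
  exact (h1.mul (H.iw σ)).cast (by ring) (by ring)

/-- all decay facts in one chart -/
theorem chart (H : Tor F φ v) (σ : F.ι) (hR : (F.ch σ).S 0 0 (RR φ)) (hf : (F.ch σ).S 0 0 f)
    (hG : G = K c1 * (F.ch σ).z1 + K c2 * (F.ch σ).z2 + f) (hi : Ca i c1) (hj : Ca j c2) :
    He (F.ch σ) G ∧ Pa (F.ch σ) (RR φ) (Ex G) ∧ Pa (F.ch σ) (Ex G) (RR φ) ∧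
      Pa (F.ch σ) (Ex G) 1 ∧ Pa (F.ch σ) G (Ex G) ∧ Pa (F.ch σ) (Gr φ G G) (Ex G) ∧
      Pa (F.ch σ) (Ex G) (Gr φ G G) ∧ (F.ch σ).O1 1 1 (Ex G * W φ) := by
  have hE : (F.ch σ).S c1 c2 (Ex G) := hG ▸ hf.ex c1 c2
  have g1 := G1 hf hG hi
  have g2 := G2 hf hG hj
  have hg := gr_G H σ g1 g2
  have E1 := hE.gain1' (hi.gain (Or.inl rfl))
  have E2 := hE.gain2' (hj.gain (Or.inl rfl))
  obtain ⟨a1, a2⟩ := hi.nn
  obtain ⟨b1, b2⟩ := hj.nn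
  refine ⟨he_G hf hG, pa_of hR.gain1 hR.gain2 hE ?_ ?_ ?_ ?_, pa_of E1 E2 hR ?_ ?_ ?_ ?_,
    pa_of E1 E2 (F.ch σ).S_one ?_ ?_ ?_ ?_, pa_of g1 g2 hE ?_ ?_ ?_ ?_,
    pa_of (hg.gain1' (hi.gain (Or.inr rfl))) (hg.gain2' (hj.gain (Or.inr rfl))) hE ?_ ?_ ?_ ?_,
    pa_of E1 E2 hg ?_ ?_ ?_ ?_, (hE.mul (H.w σ).toS).toO1.mono ?_ ?_⟩ <;> linarith

theorem ev {d e : ℝ} (hd : 0 ≤ d) (h : d = 0 → e = 0) :
    ∀ᶠ l : ℝ in atTop, ∃ i, Ca i (e + l * d) := by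
  rcases hd.eq_or_lt with rfl | hd
  · exact Eventually.of_forall fun l => ⟨0, Or.inl ⟨rfl, by simp [h rfl]⟩⟩
  · filter_upwards [eventually_ge_atTop ((2 - e) / d)] with l hl
    rw [div_le_iff₀ hd] at hl
    exact ⟨1, Or.inr ⟨rfl, by linarith⟩⟩

theorem G_eq (κ κ' : Ch) (φ : X → ℝ) (w w' : ℝ × ℝ) (q l : ℝ) : κ.G φ w q l =
    K (q * (1 - (κ.z1 κ'.n1 + κ.z2 κ'.n1)) + l * (Lv w κ'.n1 - Lv w' κ'.n1)) * κ'.z1 +
    K (q * (1 - (κ.z1 κ'.n2 + κ.z2 κ'.n2)) + l * (Lv w κ'.n2 - Lv w' κ'.n2)) * κ'.z2 +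
    (K q * (LL φ - (K 1 * κ'.z1 + K 1 * κ'.z2)) - K l * (φ - Lv w')) := by
  funext p
  have h1 := congrFun (Lv_decomp κ' κ.a κ.b) p
  have h2 := congrFun (Lv_decomp κ' κ.c κ.d) p
  have h3 := congrFun (Lv_decomp κ' w.1 w.2) p
  have h4 := congrFun (Lv_decomp κ' w'.1 w'.2) p
  simp only [Ch.G, GG, Pi.add_apply, Pi.sub_apply, Pi.mul_apply, K_apply] at h1 h2 h3 h4 ⊢
  change _ = (q * (1 - (Li κ.a κ.b κ'.n1 + Li κ.c κ.d κ'.n1)) + _) * _ +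
    (q * (1 - (Li κ.a κ.b κ'.n2 + Li κ.c κ.d κ'.n2)) + _) * _ + _
  have h5 : Li (-(q * (κ.a + κ.c)) + l * w.1) (-(q * (κ.b + κ.d)) + l * w.2) p =
      -q * (Li κ.a κ.b p + Li κ.c κ.d p) + l * Li w.1 w.2 p := by
    simp only [Li_apply]
    ring
  linear_combination h5 - q * h1 - q * h2 + l * h3 - l * h4

end NNP

open NNP in
theorem n_ok (h0 : StOrd) (h1 : StDich) (h2 : StDom) (h3 : StIBP) (h4 : StGron) : StN := by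
  intro F φ v t τ c T q H hq hq3 σ
  have := F.fin
  have hv := (eventually_all.2 fun ρ : F.ι =>
    (ev (e := q * (1 - ((F.ch σ).z1 (F.ch ρ).n1 + (F.ch σ).z2 (F.ch ρ).n1)))
      (sub_nonneg.2 (h0 F φ v H.tor σ ρ).1) fun h => by
        rw [(h1 F φ v H.tor σ ρ).1 (sub_eq_zero.1 h).symm, sub_self, mul_zero]).and
    (ev (e := q * (1 - ((F.ch σ).z1 (F.ch ρ).n2 + (F.ch σ).z2 (F.ch ρ).n2)))
      (sub_nonneg.2 (h0 F φ v H.tor σ ρ).2) fun h => by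
        rw [(h1 F φ v H.tor σ ρ).2 (sub_eq_zero.1 h).symm, sub_self, mul_zero])).and
    (eventually_ge_atTop 0)
  obtain ⟨l, hl, l0⟩ := hv.exists
  have P := H.tor.pot
  have hG : Sm ((F.ch σ).G φ (v σ) q l) := P.smG _ _ _ _
  have key := fun ρ : F.ι => chart H.tor ρ (H.RS ρ)
    (((H.tor.lS ρ).Kmul q).sub ((H.tor.aff ρ).Kmul l))
    (G_eq (F.ch σ) (F.ch ρ) φ (v σ) (v ρ) q l) (hl ρ).1.choose_spec (hl ρ).2.choose_spec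
  obtain ⟨C, a1, a2, a3, a4, a5, a6, C0, hC⟩ := H.eqn.dN hq hq3 l
    (-(q * ((F.ch σ).a + (F.ch σ).c)) + l * (v σ).1)
    (-(q * ((F.ch σ).b + (F.ch σ).d)) + l * (v σ).2)
  have hE := sm_Ex hG
  have hg := P.smGr hG hG
  have hφ := he_φ H.tor
  have hY : Zero (YN φ ((F.ch σ).G φ (v σ) q l) a1 a2 a3 a4 a5 a6) :=
    ((((((zero_dv h3 F P.sm P.smR hE hφ fun ρ => (key ρ).2.1).Kmul a1).add
      ((zero_dv h3 F P.sm hE P.smR hφ fun ρ => (key ρ).2.2.1).Kmul a2)).add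
      ((zero_dv h3 F P.sm hE sm_one hφ fun ρ => (key ρ).2.2.2.1).Kmul a3)).add
      ((zero_dv h3 F hG hG hE (fun ρ => (key ρ).1) fun ρ => (key ρ).2.2.2.2.1).Kmul a4)).add
      ((zero_dv h3 F P.sm hg hE hφ fun ρ => (key ρ).2.2.2.2.2.1).Kmul a5)).add
      ((zero_dv h3 F P.sm hE hg hφ fun ρ => (key ρ).2.2.2.2.2.2.1).Kmul a6)
  obtain ⟨B, hB⟩ := h4 _ _ t τ C T (sm_mul hE P.smW)
    (h2 F _ fun ρ => ⟨1, one_pos, (key ρ).2.2.2.2.2.2.2.2.1⟩)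
    (h2 F _ fun ρ => ⟨1, one_pos, (key ρ).2.2.2.2.2.2.2.2.2 e0⟩)
    (fun p => (mul_pos (Real.exp_pos _) (P.pw p)).le) C0 hY H.dt H.eqn.τpos H.tle hC
  exact ⟨l, B, l0, hB⟩

end Pool.Agent.P.MP_2cea5e_gt
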