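import Pool.Agent.P.MP_2cea5e_gt.Tool

/-!
Polar and logarithmic coordinates for integrals of torus invariant functions on `ℂ²`.
-/

open scoped ContDiff ENNReal
open MeasureTheory Set

noncomputable section

namespace Pool.Agent.P.MP_2cea5e_gt

namespace Polar

theorem radial (h : ℝ → ℝ≥0∞) :
    ∫⁻ r in Ioi (0 : ℝ), ENNReal.ofReal r * h r =
      ∫⁻ ζ : ℝ, ENNReal.ofReal (1 / 2) *
        (h (Real.exp (ζ / 2)) * ENNReal.ofReal (Real.exp ζ)) := by
  have him : (fun ζ : ℝ => Real.exp (ζ / 2)) '' univ = Ioi 0 := by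
    ext r
    constructor
    · rintro ⟨ζ, -, rfl⟩
      exact Real.exp_pos _
    · intro hr
      refine ⟨2 * Real.log r, trivial, ?_⟩
      show Real.exp (2 * Real.log r / 2) = r
      rw [show 2 * Real.log r / 2 = Real.log r by ring, Real.exp_log hr]
  have hd : ∀ ζ ∈ (univ : Set ℝ), HasDerivWithinAt (fun ζ : ℝ => Real.exp (ζ / 2))
      (Real.exp (ζ / 2) * (1 / 2)) univ ζ := fun ζ _ =>
    (((hasDerivAt_id ζ).div_const 2).exp).hasDerivWithinAt
  have hinj : InjOn (fun ζ : ℝ => Real.exp (ζ / 2)) univ := fun x _ y _ hxy => by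
    have := Real.exp_injective hxy
    linarith
  rw [← him, lintegral_image_eq_lintegral_abs_deriv_mul MeasurableSet.univ hd hinj,
    Measure.restrict_univ]
  refine lintegral_congr fun ζ => ?_
  have he : Real.exp ζ = Real.exp (ζ / 2) * Real.exp (ζ / 2) := by
    rw [← Real.exp_add]; congr 1; ring
  have hp := (Real.exp_pos (ζ / 2)).le
  rw [abs_of_nonneg (by positivity), he, ENNReal.ofReal_mul hp, ENNReal.ofReal_mul hp]
  ring

theorem one_dim (g : ℂ → ℝ≥0∞) (hg : Measurable g)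
    (hi : ∀ θ z : ℂ, ‖θ‖ = 1 → g (θ * z) = g z) :
    ∫⁻ z, g z = ENNReal.ofReal Real.pi *
      ∫⁻ ζ : ℝ, g ((Real.exp (ζ / 2) : ℝ) : ℂ) * ENNReal.ofReal (Real.exp ζ) := by
  rw [← Complex.lintegral_comp_polarCoord_symm g]
  have h1 : ∀ p : ℝ × ℝ, ENNReal.ofReal p.1 • g (Complex.polarCoord.symm p) =
      (ENNReal.ofReal p.1 * g (p.1 : ℂ)) * (fun _ : ℝ => (1 : ℝ≥0∞)) p.2 := by
    intro p
    rw [Complex.polarCoord_symm_apply, mul_comm (p.1 : ℂ), hi]
    · simp
    · have := Complex.norm_exp_ofReal_mul_I p.2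
      rwa [Complex.exp_mul_I, ← Complex.ofReal_cos, ← Complex.ofReal_sin] at this
  simp_rw [h1]
  have hm : Measurable fun r : ℝ => ENNReal.ofReal r * g (r : ℂ) :=
    ENNReal.measurable_ofReal.mul (hg.comp Complex.measurable_ofReal)
  rw [polarCoord_target, Measure.volume_eq_prod, ← Measure.prod_restrict,
    lintegral_prod_mul hm.aemeasurable aemeasurable_const, radial fun r => g (r : ℂ),
    lintegral_const_mul' _ _ ENNReal.ofReal_ne_top]
  simp only [lintegral_const, Measure.restrict_apply MeasurableSet.univ, univ_inter,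
    Real.volume_Ioo, one_mul]
  rw [mul_right_comm, ← ENNReal.ofReal_mul (by norm_num)]
  congr 2
  ring

/-- The integrand in logarithmic coordinates. -/
def lg (G : C2 → ℝ≥0∞) (ζ : ℝ × ℝ) : ℝ≥0∞ :=
  G ![((Real.exp (ζ.1 / 2) : ℝ) : ℂ), ((Real.exp (ζ.2 / 2) : ℝ) : ℂ)] *
    ENNReal.ofReal (Real.exp (ζ.1 + ζ.2))

theorem meas_pair : Measurable fun q : ℂ × ℂ => (![q.1, q.2] : C2) := by
  refine measurable_pi_lambda _ fun j => ?_
  fin_cases j
  · simpa using measurable_fst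
  · simpa using measurable_snd

theorem meas_lg {G : C2 → ℝ≥0∞} (hG : Measurable G) : Measurable (lg G) := by
  have h1 : Measurable fun ζ : ℝ × ℝ =>
      ((((Real.exp (ζ.1 / 2) : ℝ) : ℂ), ((Real.exp (ζ.2 / 2) : ℝ) : ℂ)) : ℂ × ℂ) := by
    fun_prop
  exact (hG.comp (meas_pair.comp h1)).mul (by fun_prop)

theorem two_dim (G : C2 → ℝ≥0∞) (hG : Measurable G)
    (hi : ∀ θ z : C2, (∀ j, ‖θ j‖ = 1) → G (θ * z) = G z) :
    ∫⁻ z, G z = ENNReal.ofReal (Real.pi ^ 2) * ∫⁻ ζ : ℝ × ℝ, lg G ζ := by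
  have hm : Measurable fun q : ℂ × ℂ => G ![q.1, q.2] := hG.comp meas_pair
  have h0 : ∫⁻ z, G z = ∫⁻ q : ℂ × ℂ, G ![q.1, q.2] := by
    rw [← (volume_preserving_finTwoArrow ℂ).symm.lintegral_comp hG]
    rfl
  have hi1 : ∀ θ a b : ℂ, ‖θ‖ = 1 → G ![θ * a, b] = G ![a, b] := by
    intro θ a b hθ
    rw [← hi ![θ, 1] ![a, b] (fun j => by fin_cases j <;> simp [hθ])]
    congr 1
    ext j; fin_cases j <;> simp
  have hi2 : ∀ θ a b : ℂ, ‖θ‖ = 1 → G ![a, θ * b] = G ![a, b] := by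
    intro θ a b hθ
    rw [← hi ![1, θ] ![a, b] (fun j => by fin_cases j <;> simp [hθ])]
    congr 1
    ext j; fin_cases j <;> simp
  rw [h0, Measure.volume_eq_prod, lintegral_prod _ hm.aemeasurable,
    one_dim (fun a => ∫⁻ b, G ![a, b]) hm.lintegral_prod_right'
      (fun θ a hθ => lintegral_congr fun b => hi1 θ a b hθ),
    Measure.volume_eq_prod, lintegral_prod _ (meas_lg hG).aemeasurable, sq,
    ENNReal.ofReal_mul Real.pi_pos.le, mul_assoc,
    ← lintegral_const_mul' _ _ ENNReal.ofReal_ne_top,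
    ← lintegral_const_mul' _ _ ENNReal.ofReal_ne_top,
    ← lintegral_const_mul' _ _ ENNReal.ofReal_ne_top]
  refine lintegral_congr fun x => ?_
  congr 1
  rw [one_dim (fun b => G ![((Real.exp (x / 2) : ℝ) : ℂ), b])
      (hm.comp (measurable_const.prodMk measurable_id))
      (fun θ b hθ => hi2 θ _ b hθ), mul_assoc,
    ← lintegral_mul_const' _ _ ENNReal.ofReal_ne_top]
  congr 1
  refine lintegral_congr fun y => ?_
  simp only [lg]
  rw [Real.exp_add, ENNReal.ofReal_mul (Real.exp_pos _).le]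
  ring

/-- The unimodular linear map of the chart. -/
def lin (κ : Ch) : ℝ × ℝ →ₗ[ℝ] ℝ × ℝ :=
  Matrix.toLin (Module.Basis.finTwoProd ℝ) (Module.Basis.finTwoProd ℝ) !![κ.a, κ.b; κ.c, κ.d]

theorem lin_apply (κ : Ch) (ξ : ℝ × ℝ) :
    lin κ ξ = (κ.a * ξ.1 + κ.b * ξ.2, κ.c * ξ.1 + κ.d * ξ.2) :=
  Matrix.toLin_finTwoProd_apply _ _ _ _ _

theorem det_lin (κ : Ch) : LinearMap.det (lin κ) = κ.dt := by
  rw [lin, LinearMap.det_toLin, Matrix.det_fin_two_of]; rfl

theorem map_lin (κ : Ch) : Measure.map (lin κ) (volume : Measure (ℝ × ℝ)) = volume := by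
  have h := κ.dt_sq
  have h0 : κ.dt ≠ 0 := fun h0 => by rw [h0] at h; simp at h
  have h1 : |κ.dt| = 1 := by
    have h2 : |κ.dt| * |κ.dt| = 1 := by rw [← abs_mul, h, abs_one]
    nlinarith [abs_nonneg κ.dt]
  rw [Measure.map_linearMap_addHaar_eq_smul_addHaar _ (by rw [det_lin]; exact h0), det_lin,
    abs_inv, h1]
  simp

end Polar

open Polar in
theorem polar_ok : StPolar := by
  intro κ s G hG hi
  rw [two_dim G hG hi]
  congr 1
  conv_lhs => rw [← map_lin κ]
  rw [lintegral_map (meas_lg hG) (lin κ).continuous_of_finiteDimensional.measurable]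
  refine lintegral_congr fun ξ => ?_
  rw [lin_apply]
  rfl

end Pool.Agent.P.MP_2cea5e_gt
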