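import Pool.Agent.P.MP_2cea5e_gt.Tool

/-!
The moment polygon: image of the moment map, convexity, boundedness, a ball inside.
-/

open scoped ContDiff
open Filter Topology

noncomputable section

namespace Pool.Agent.P.MP_2cea5e_gt

namespace Poly

variable {F : Fan} {φ : X → ℝ} {v : F.ι → ℝ × ℝ}

theorem ip_decomp (κ : Ch) (w η : ℝ × ℝ) :
    ip w η = Lv w κ.n1 * κ.z1 (0, η) + Lv w κ.n2 * κ.z2 (0, η) :=
  congrFun (Lv_decomp κ w.1 w.2) (0, η)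

theorem eq_zero_of (κ : Ch) {η : ℝ × ℝ} (h1 : κ.z1 (0, η) = 0) (h2 : κ.z2 (0, η) = 0) : η = 0 := by
  have h := κ.decomp (0, η)
  rw [h1, h2] at h
  have := congrArg Prod.snd h
  simpa using this

theorem ip_le (h2 : StOrd) (H : Tor F φ v) {σ : F.ι} {η : ℝ × ℝ} (hc : (F.ch σ).cone (0, η))
    (ρ : F.ι) : ip (v ρ) η ≤ ip (v σ) η := by
  obtain ⟨a, b⟩ := h2 F φ v H ρ σ
  rw [ip_decomp (F.ch σ) (v ρ), ip_decomp (F.ch σ) (v σ)]
  nlinarith [hc.1, hc.2]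

theorem lt_of_mem (h2 : StOrd) (H : Tor F φ v) {x : ℝ × ℝ} (hx : x ∈ Pint v) {σ : F.ι}
    {η : ℝ × ℝ} (h0 : η ≠ 0) (hc : (F.ch σ).cone (0, η)) : ip x η < ip (v σ) η := by
  obtain ⟨ρ, hρ⟩ := hx η h0
  exact hρ.trans_le (ip_le h2 H hc ρ)

/-- The polygon is a finite intersection of open half planes. -/
theorem mem_iff (h2 : StOrd) (H : Tor F φ v) (x : ℝ × ℝ) : x ∈ Pint v ↔ ∀ σ,
    Lv (v σ) (F.ch σ).n1 < Lv x (F.ch σ).n1 ∧ Lv (v σ) (F.ch σ).n2 < Lv x (F.ch σ).n2 := by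
  constructor
  · intro hx σ
    have a1 := (F.ch σ).z1_n1
    have a2 := (F.ch σ).z1_n2
    have a3 := (F.ch σ).z2_n1
    have a4 := (F.ch σ).z2_n2
    have neg : ∀ (a b : ℝ) (p : X), Li a b (0, -p.2) = -Li a b p := by
      intro a b p; simp only [Li_apply, Prod.fst_neg, Prod.snd_neg]; ring
    have b1 : (F.ch σ).z1 (0, -(F.ch σ).n1.2) = -1 := by rw [← a1]; exact neg _ _ _
    have b2 : (F.ch σ).z1 (0, -(F.ch σ).n2.2) = 0 := by
      have := neg (F.ch σ).a (F.ch σ).b (F.ch σ).n2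
      rw [show Li (F.ch σ).a (F.ch σ).b (F.ch σ).n2 = 0 from a2, neg_zero] at this; exact this
    have b3 : (F.ch σ).z2 (0, -(F.ch σ).n1.2) = 0 := by
      have := neg (F.ch σ).c (F.ch σ).d (F.ch σ).n1
      rw [show Li (F.ch σ).c (F.ch σ).d (F.ch σ).n1 = 0 from a3, neg_zero] at this; exact this
    have b4 : (F.ch σ).z2 (0, -(F.ch σ).n2.2) = -1 := by rw [← a4]; exact neg _ _ _
    constructor
    · have h0 : -(F.ch σ).n1.2 ≠ 0 := by
        intro h; rw [h] at b1; simp [Ch.z1, Li_apply] at b1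
      have := lt_of_mem h2 H hx (σ := σ) h0 ⟨by rw [b1]; norm_num, b3.le⟩
      rw [ip_decomp (F.ch σ) x, ip_decomp (F.ch σ) (v σ), b1, b3] at this
      linarith
    · have h0 : -(F.ch σ).n2.2 ≠ 0 := by
        intro h; rw [h] at b4; simp [Ch.z2, Li_apply] at b4
      have := lt_of_mem h2 H hx (σ := σ) h0 ⟨b2.le, by rw [b4]; norm_num⟩
      rw [ip_decomp (F.ch σ) x, ip_decomp (F.ch σ) (v σ), b2, b4] at this
      linarith
  · intro hx η h0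
    obtain ⟨σ, hc1, hc2⟩ := F.cover (0, η)
    obtain ⟨d1, d2⟩ := hx σ
    refine ⟨σ, ?_⟩
    rw [ip_decomp (F.ch σ) x, ip_decomp (F.ch σ) (v σ)]
    rcases hc1.lt_or_eq with h | h
    · nlinarith
    · rcases hc2.lt_or_eq with h' | h'
      · nlinarith
      · exact absurd (eq_zero_of _ h h') h0

theorem Lv_grad (φ : X → ℝ) (p : X) {n : X} (hn : n.1 = 0) : Lv (grad φ p) n = D n φ p := by
  rw [D_dir3 n φ, hn]
  simp only [grad, Li_apply, Pi.add_apply, Pi.mul_apply, K_apply]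
  ring

theorem grad_mem (h1 : StG1) (h2 : StOrd) (H : Tor F φ v) (p : X) : grad φ p ∈ Pint v := by
  rw [mem_iff h2 H]
  intro σ
  obtain ⟨a, b, -⟩ := h1 F φ v H σ p
  rw [D_sub _ H.pot.sm (sm_Li _ _), D_Lv] at a b
  simp only [Pi.sub_apply, K_apply] at a b
  rw [Lv_grad φ p (n := (F.ch σ).n1) rfl, Lv_grad φ p (n := (F.ch σ).n2) rfl]
  constructor <;> linarith

theorem Lv_comb (a b : ℝ) (x y : ℝ × ℝ) (n : X) :
    Lv (a • x + b • y) n = a * Lv x n + b * Lv y n := by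
  simp only [Li_apply, Prod.fst_add, Prod.snd_add, Prod.smul_fst, Prod.smul_snd, smul_eq_mul]
  ring

theorem isOpen_Pint (h2 : StOrd) (H : Tor F φ v) : IsOpen (Pint v) := by
  have := F.fin
  have : Pint v = ⋂ σ, ({x | Lv (v σ) (F.ch σ).n1 < Lv x (F.ch σ).n1} ∩
      {x | Lv (v σ) (F.ch σ).n2 < Lv x (F.ch σ).n2}) := by
    ext x; rw [mem_iff h2 H]; simp
  rw [this]
  refine isOpen_iInter_of_finite fun σ => IsOpen.inter ?_ ?_
  · refine isOpen_lt continuous_const ?_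
    simp only [Li_apply]; fun_prop
  · refine isOpen_lt continuous_const ?_
    simp only [Li_apply]; fun_prop

theorem convex (h2 : StOrd) (H : Tor F φ v) : Convex ℝ (Pint v) := by
  intro x hx y hy a b ha hb hab
  rw [mem_iff h2 H] at hx hy ⊢
  intro σ
  obtain ⟨x1, x2⟩ := hx σ
  obtain ⟨y1, y2⟩ := hy σ
  rw [Lv_comb, Lv_comb]
  have key : ∀ c s t : ℝ, c < s → c < t → c < a * s + b * t := by
    intro c s t hs ht
    rcases ha.lt_or_eq with h | h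
    · have hc : c = a * c + b * c := by rw [← add_mul, hab, one_mul]
      nlinarith [mul_lt_mul_of_pos_left hs h, mul_le_mul_of_nonneg_left ht.le hb]
    · have hb1 : b = 1 := by linarith
      rw [← h, hb1]; linarith
  exact ⟨key _ _ _ x1 y1, key _ _ _ x2 y2⟩

theorem bounded (F : Fan) (v : F.ι → ℝ × ℝ) : ∃ M : ℝ, ∀ x ∈ Pint v, ‖x‖ ≤ M := by
  have := F.fin
  obtain ⟨M, hM⟩ := (Set.finite_range v).isBounded.exists_norm_le
  refine ⟨M, fun x hx => ?_⟩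
  have hb : ∀ σ, |(v σ).1| ≤ M ∧ |(v σ).2| ≤ M := fun σ =>
    ⟨(norm_fst_le (v σ)).trans (hM _ ⟨σ, rfl⟩), (norm_snd_le (v σ)).trans (hM _ ⟨σ, rfl⟩)⟩
  obtain ⟨σ1, a1⟩ := hx (1, 0) (by simp)
  obtain ⟨σ2, a2⟩ := hx (-1, 0) (by simp)
  obtain ⟨σ3, a3⟩ := hx (0, 1) (by simp)
  obtain ⟨σ4, a4⟩ := hx (0, -1) (by simp)
  simp only [ip] at a1 a2 a3 a4
  have b1 := abs_le.mp (hb σ1).1
  have b2 := abs_le.mp (hb σ2).1
  have b3 := abs_le.mp (hb σ3).2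
  have b4 := abs_le.mp (hb σ4).2
  rw [Prod.norm_def, max_le_iff, Real.norm_eq_abs, Real.norm_eq_abs, abs_le, abs_le]
  refine ⟨⟨?_, ?_⟩, ?_, ?_⟩ <;> linarith [b1.1, b1.2, b2.1, b2.2, b3.1, b3.2, b4.1, b4.2]

theorem norm_sq_le (ξ : ℝ × ℝ) : ‖ξ‖ * ‖ξ‖ ≤ ξ.1 * ξ.1 + ξ.2 * ξ.2 := by
  rw [Prod.norm_def, Real.norm_eq_abs, Real.norm_eq_abs]
  rcases le_total |ξ.1| |ξ.2| with h | h
  · rw [max_eq_right h, abs_mul_abs_self]; nlinarith [mul_self_nonneg ξ.1]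
  · rw [max_eq_left h, abs_mul_abs_self]; nlinarith [mul_self_nonneg ξ.2]

/-- Uniform gap for a point of the open polygon. -/
theorem gap (h2 : StOrd) (H : Tor F φ v) {x : ℝ × ℝ} (hx : x ∈ Pint v) : ∃ e : ℝ, 0 < e ∧
    ∀ σ ξ, (F.ch σ).cone (0, ξ) → e * ‖ξ‖ ≤ ip (v σ) ξ - ip x ξ := by
  obtain ⟨r, hr, hb⟩ := Metric.isOpen_iff.mp (isOpen_Pint h2 H) x hx
  refine ⟨r / 2, by positivity, fun σ ξ hc => ?_⟩
  by_cases h0 : ξ = 0
  · subst h0; simp [ip]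
  have hn : 0 < ‖ξ‖ := norm_pos_iff.mpr h0
  have hy : x + (r / (2 * ‖ξ‖)) • ξ ∈ Pint v := by
    apply hb
    rw [Metric.mem_ball, dist_eq_norm, add_sub_cancel_left, norm_smul, Real.norm_eq_abs,
      abs_of_pos (by positivity)]
    have : r / (2 * ‖ξ‖) * ‖ξ‖ = r / 2 := by field_simp
    rw [this]; linarith
  have h := lt_of_mem h2 H hy h0 hc
  have h3 := mul_le_mul_of_nonneg_left (norm_sq_le ξ) (show 0 ≤ r / (2 * ‖ξ‖) by positivity)
  have h4 : r / (2 * ‖ξ‖) * (‖ξ‖ * ‖ξ‖) = r / 2 * ‖ξ‖ := by field_simp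
  simp only [ip, Prod.fst_add, Prod.snd_add, Prod.smul_fst, Prod.smul_snd, smul_eq_mul] at h ⊢
  linarith

theorem surj (h2 : StOrd) (H : Tor F φ v) {x : ℝ × ℝ} (hx : x ∈ Pint v) (s : ℝ) :
    ∃ ξ, grad φ (s, ξ) = x := by
  have := F.fin
  obtain ⟨e, he, hg⟩ := gap h2 H hx
  choose C hC using fun σ => (H.aff σ).toO |s|
  obtain ⟨B, hB⟩ := (Set.finite_range C).bddAbove
  have hs : Sm (φ - Lv x) := sm_sub H.pot.sm (sm_Li _ _)
  have low : ∀ ξ : ℝ × ℝ, e * ‖ξ‖ + -B ≤ (φ - Lv x) (s, ξ) := by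
    intro ξ
    obtain ⟨σ, hc⟩ := F.cover (0, ξ)
    have a1 := hg σ ξ hc
    have a2 := hC σ (s, ξ) le_rfl hc
    have a3 : C σ ≤ B := hB ⟨σ, rfl⟩
    simp only [zero_mul, add_zero, Real.exp_zero, mul_one] at a2
    have a4 := (abs_le.mp a2).1
    simp only [Pi.sub_apply, Li_apply, ip] at a1 a4 ⊢
    linarith
  have lim : Tendsto (fun ξ : ℝ × ℝ => (φ - Lv x) (s, ξ)) (cocompact (ℝ × ℝ)) atTop :=
    tendsto_atTop_mono low
      (tendsto_atTop_add_const_right _ _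
        (Tendsto.const_mul_atTop he tendsto_norm_cocompact_atTop))
  obtain ⟨ξ, hξ⟩ := (cont_slice hs.cont s).exists_forall_le lim
  have crit : ∀ n : X, n.1 = 0 → D n (φ - Lv x) (s, ξ) = 0 := by
    intro n hn
    have hd := hasDerivAt_line hs (s, ξ) n 0
    have hm : IsLocalMin (fun r : ℝ => (φ - Lv x) ((s, ξ) + r • n)) 0 := by
      refine Filter.Eventually.of_forall fun r => ?_
      have h1 : ((s, ξ) : X) + r • n = (s, ξ + r • n.2) := by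
        ext <;> simp [hn]
      simp only [zero_smul, add_zero, h1]
      exact hξ _
    simpa using hm.hasDerivAt_eq_zero hd
  have c1 := crit e1 rfl
  have c2 := crit e2 rfl
  rw [D_sub _ H.pot.sm (sm_Li _ _), D_Lv] at c1 c2
  simp only [Pi.sub_apply, K_apply, Li_apply, e1, e2] at c1 c2
  refine ⟨ξ, Prod.ext ?_ ?_⟩
  · simp only [grad, e1]; linarith
  · simp only [grad, e2]; linarith

end Poly

theorem poly_ok (h1 : StG1) (h2 : StOrd) : StPoly := by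
  intro F φ v H
  refine ⟨Poly.grad_mem h1 h2 H, fun x hx s => Poly.surj h2 H hx s, Poly.convex h2 H,
    Poly.bounded F v, ?_⟩
  obtain ⟨r, hr, hb⟩ := Metric.isOpen_iff.mp (Poly.isOpen_Pint h2 H) _ (Poly.grad_mem h1 h2 H 0)
  refine ⟨grad φ 0, r, hr, fun σ θ h0 h1' y hy => ?_⟩
  have hy' := (Poly.mem_iff h2 H y).mp (hb hy)
  rw [Poly.mem_iff h2 H]
  intro ρ
  obtain ⟨a1, a2⟩ := h2 F φ v H σ ρ
  obtain ⟨b1, b2⟩ := hy' ρ
  rw [Poly.Lv_comb, Poly.Lv_comb]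
  constructor <;> nlinarith

end Pool.Agent.P.MP_2cea5e_gt
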