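import Pool.Agent.P.MP_2cea5e_gt.Tool

/-!
Package TorB: a family of toric Kaehler potentials in logarithmic coordinates.
-/

open scoped ContDiff ComplexOrder

noncomputable section

namespace Pool.Agent.P.MP_2cea5e_gt

namespace TorB

/-- The real point of the chart with given moduli. -/
def em (q : X) : ℝ × C2 := (q.1, ![(q.2.1 : ℂ), (q.2.2 : ℂ)])

theorem sm_em : ContDiff ℝ ∞ em := by
  refine contDiff_fst.prodMk (contDiff_pi.mpr fun j => ?_)
  fin_cases j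
  · exact Complex.ofRealCLM.contDiff.comp (contDiff_fst.comp contDiff_snd)
  · exact Complex.ofRealCLM.contDiff.comp (contDiff_snd.comp contDiff_snd)

theorem sm_lift (κ : Ch) {f : ℝ × C2 → ℝ} (hf : ContDiff ℝ ∞ f) : Sm (κ.lift f) :=
  κ.sm_comp (k := f ∘ em) (hf.comp sm_em)

theorem tr_inv (a b c a' b' c' : ℝ) (h : a * c - b * b ≠ 0) :
    ((!![(a : ℂ), (b : ℂ); (b : ℂ), (c : ℂ)])⁻¹ *
      !![(a' : ℂ), (b' : ℂ); (b' : ℂ), (c' : ℂ)]).trace.re =
      (a * c' + c * a' - 2 * b * b') / (a * c - b * b) := by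
  have h' : (a : ℂ) * c - b * b ≠ 0 := by exact_mod_cast h
  have e : ((!![(a : ℂ), (b : ℂ); (b : ℂ), (c : ℂ)])⁻¹ *
      !![(a' : ℂ), (b' : ℂ); (b' : ℂ), (c' : ℂ)]).trace =
      (((a * c' + c * a' - 2 * b * b') / (a * c - b * b) : ℝ) : ℂ) := by
    rw [Matrix.inv_def, Matrix.det_fin_two_of, Matrix.adjugate_fin_two_of, Matrix.smul_mul,
      Matrix.trace_smul, Matrix.mul_fin_two, Matrix.trace_fin_two_of, Ring.inverse_eq_inv',
      smul_eq_mul]
    push_cast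
    field_simp
    ring
  rw [e, Complex.ofReal_re]

theorem r1_sq (κ : Ch) (p : X) : (κ.pt p).2.1 * (κ.pt p).2.1 = Real.exp (κ.z1 p) := by
  simp only [Ch.pt, ← Real.exp_add, add_halves]

theorem r2_sq (κ : Ch) (p : X) : (κ.pt p).2.2 * (κ.pt p).2.2 = Real.exp (κ.z2 p) := by
  simp only [Ch.pt, ← Real.exp_add, add_halves]

theorem vol_pos {f : C2 → ℝ} {z : C2} (h : (hess f z).PosDef) : 0 < vol f z :=
  (Complex.pos_iff.mp h.det_pos).1

theorem sm_vol (h2 : StVol) {f : ℝ × C2 → ℝ} (hf : ContDiff ℝ ∞ f) :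
    ContDiff ℝ ∞ fun x : ℝ × C2 => vol (sl f x.1) x.2 := by
  simp only [vol, Matrix.det_fin_two]
  exact Complex.reCLM.contDiff.comp
    (((h2.1 f hf 0 0).mul (h2.1 f hf 1 1)).sub ((h2.1 f hf 0 1).mul (h2.1 f hf 1 0)))

section chart

variable (h1 : StHess) (κ : Ch) {f : ℝ × C2 → ℝ} (hf : ContDiff ℝ ∞ f) (hi : ∀ s, Inv (sl f s))
include h1 hf hi

theorem d11 (p : X) : D κ.n1 (D κ.n1 (κ.lift f)) p =
    Real.exp (1 * κ.z1 p + 0 * κ.z2 p) * (hess (sl f p.1) (κ.zp p) 0 0).re := by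
  rw [h1 κ f hf hi p, r1_sq]
  simp only [Matrix.of_apply, Matrix.cons_val', Matrix.cons_val_zero, Matrix.cons_val_fin_one,
    Complex.ofReal_re, one_mul, zero_mul, add_zero]
  rw [mul_div_cancel₀ _ (Real.exp_pos _).ne']

theorem d22 (p : X) : D κ.n2 (D κ.n2 (κ.lift f)) p =
    Real.exp (0 * κ.z1 p + 1 * κ.z2 p) * (hess (sl f p.1) (κ.zp p) 1 1).re := by
  rw [h1 κ f hf hi p, r2_sq]
  simp only [Matrix.of_apply, Matrix.cons_val', Matrix.cons_val_one, Matrix.cons_val_zero,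
    Matrix.cons_val_fin_one, Complex.ofReal_re, one_mul, zero_mul, zero_add]
  rw [mul_div_cancel₀ _ (Real.exp_pos _).ne']

theorem w_eq (p : X) : W (κ.lift f) p =
    Real.exp (1 * κ.z1 p + 1 * κ.z2 p) * vol (sl f p.1) (κ.zp p) := by
  have e1 : (κ.pt p).2.1 ≠ 0 := (Real.exp_pos _).ne'
  have e2 : (κ.pt p).2.2 ≠ 0 := (Real.exp_pos _).ne'
  rw [vol, h1 κ f hf hi p, Matrix.det_fin_two_of, ← Complex.ofReal_mul, ← Complex.ofReal_mul,
    ← Complex.ofReal_sub, Complex.ofReal_re, κ.W_eq (sm_lift κ hf), one_mul, one_mul,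
    Real.exp_add, ← r1_sq, ← r2_sq]
  simp only [Pi.sub_apply, Pi.mul_apply]
  field_simp

variable (hp : ∀ s z, (hess (sl f s) z).PosDef)
include hp

theorem pot : Pot (κ.lift f) := by
  have hw : ∀ p, 0 < W (κ.lift f) p := fun p => by
    rw [w_eq h1 κ hf hi]
    exact mul_pos (Real.exp_pos _) (vol_pos (hp _ _))
  refine ⟨sm_lift κ hf, fun p => ?_, hw⟩
  have hA : 0 < D κ.n1 (D κ.n1 (κ.lift f)) p := by
    rw [d11 h1 κ hf hi]
    exact mul_pos (Real.exp_pos _) (Complex.pos_iff.mp (hp _ _).diag_pos).1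
  have hW := hw p
  rw [κ.W_eq (sm_lift κ hf)] at hW
  rw [κ.e1_eq, DD_dir _ _ _ _ _ _ (sm_lift κ hf)]
  simp only [Pi.add_apply, Pi.sub_apply, Pi.mul_apply, K_apply] at hW ⊢
  set A := D κ.n1 (D κ.n1 (κ.lift f)) p
  set B := D κ.n1 (D κ.n2 (κ.lift f)) p
  set C := D κ.n2 (D κ.n2 (κ.lift f)) p
  have key : A * (κ.a * κ.a * A + (κ.a * κ.c + κ.c * κ.a) * B + κ.c * κ.c * C) =
      (κ.a * A + κ.c * B) ^ 2 + κ.c ^ 2 * (A * C - B * B) := by ring
  have : 0 < (κ.a * A + κ.c * B) ^ 2 + κ.c ^ 2 * (A * C - B * B) := by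
    by_cases hc : κ.c = 0
    · have ha : κ.a ≠ 0 := fun ha => by simpa [ha, hc] using κ.det
      have : 0 < (κ.a * A) ^ 2 := by positivity
      simpa [hc] using this
    · have : 0 < κ.c ^ 2 * (A * C - B * B) := mul_pos (by positivity) hW
      positivity
  rw [← key] at this
  exact (mul_pos_iff_of_pos_left hA).mp this

theorem scal_eq (h2 : StVol) (p : X) : scal (sl f p.1) (κ.zp p) = RR (κ.lift f) p := by
  have P := pot h1 κ hf hi hp
  have hf' : ContDiff ℝ ∞ fun x : ℝ × C2 => Real.log (vol (sl f x.1) x.2) :=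
    (sm_vol h2 hf).log fun x => (vol_pos (hp _ _)).ne'
  have hi' : ∀ s, Inv (sl (fun x : ℝ × C2 => Real.log (vol (sl f x.1) x.2)) s) := fun s θ z h =>
    congrArg Real.log (h2.2 (sl f s) (hf.comp (contDiff_const.prodMk contDiff_id)) (hi s) θ z h)
  have hl : κ.lift (fun x : ℝ × C2 => Real.log (vol (sl f x.1) x.2)) =
      LL (κ.lift f) - (K 1 * κ.z1 + K 1 * κ.z2) := by
    funext q
    simp only [Ch.lift, LL, Lg_apply, Pi.sub_apply, Pi.add_apply, Pi.mul_apply, K_apply]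
    rw [w_eq h1 κ hf hi, Real.log_mul (Real.exp_pos _).ne' (vol_pos (hp _ _)).ne', Real.log_exp]
    ring
  have hD : ∀ u w, D u (D w (LL (κ.lift f) - (K 1 * κ.z1 + K 1 * κ.z2))) =
      D u (D w (LL (κ.lift f))) := fun u w => by
    rw [D_sub w P.smL (κ.sm_lin _ _), Ch.D_lin, D_sub u (sm_D w P.smL) (sm_K _), D_K, sub_zero]
  have h3 := h1 κ _ hf' hi' p
  rw [hl, hD, hD, hD] at h3
  have e1 : (κ.pt p).2.1 ≠ 0 := (Real.exp_pos _).ne'
  have e2 : (κ.pt p).2.2 ≠ 0 := (Real.exp_pos _).ne'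
  have hW := P.wne p
  have hW' := hW
  rw [κ.W_eq P.sm] at hW'
  simp only [Pi.sub_apply, Pi.mul_apply] at hW'
  have h4 : hess (fun w => Real.log (vol (sl f p.1) w)) (κ.zp p) = _ := h3
  rw [scal, h4, h1 κ f hf hi p, tr_inv]
  · simp only [RR, Lap, iW, κ.DD_eq P.sm P.smL, DDv, Pi.neg_apply, Pi.mul_apply, Pi.add_apply,
      Pi.sub_apply, Iv_apply, K_apply, κ.W_eq P.sm]
    congr 1
    rw [← div_eq_mul_inv, div_eq_div_iff _ hW']
    · field_simp
    · intro h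
      apply hW'
      field_simp at h
      linarith
  · intro h
    apply hW'
    field_simp at h
    linarith

end chart

theorem mon_eq (m : Matrix (Fin 2) (Fin 2) ℤ) (h : IsUnit m.det) (p : X) :
    mon m ![(Real.exp (p.2.1 / 2) : ℂ), (Real.exp (p.2.2 / 2) : ℂ)] = (chOf m h).zp p := by
  have e : ∀ j : Fin 2, mon m ![(Real.exp (p.2.1 / 2) : ℂ), (Real.exp (p.2.2 / 2) : ℂ)] j =
      (Real.exp (((m j 0 : ℝ) * p.2.1 + (m j 1 : ℝ) * p.2.2) / 2) : ℂ) := fun j => by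
    simp only [mon, Fin.prod_univ_two, Matrix.cons_val_zero, Matrix.cons_val_one,
      ← Complex.ofReal_zpow, ← Complex.ofReal_mul, ← Real.rpow_intCast, ← Real.exp_mul,
      ← Real.exp_add]
    congr 2
    ring
  funext j
  rw [e]
  fin_cases j <;> rfl

theorem D2_shift {φ : X → ℝ} (hφ : Sm φ) (v : ℝ × ℝ) (a : ℝ) (u w : X) :
    D u (D w (φ - Lv v + K a)) = D u (D w φ) := by
  rw [D_add w (sm_sub hφ (sm_Li _ _)) (sm_K _), D_K, add_zero, D2_subLv hφ]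

end TorB

open TorB in
theorem tor_ok (h1 : StHess) (h2 : StVol) : StTor := by
  intro ι _ m hm f a b σ₀ hf hi hp hg
  set Φ := ((fanOf hm).ch σ₀).lift (f σ₀) with hΦ
  have P : Pot Φ := pot h1 _ (hf σ₀) (hi σ₀) (hp σ₀)
  have e : ∀ σ, ((fanOf hm).ch σ).lift (f σ) =
      Φ - Lv (-(b σ 0) / 2, -(b σ 1) / 2) + K (a σ) := fun σ => by
    funext p
    have h := hg σ p.1 ![(Real.exp (p.2.1 / 2) : ℂ), (Real.exp (p.2.2 / 2) : ℂ)] fun k => by
      fin_cases k <;> exact Complex.ofReal_ne_zero.mpr (Real.exp_pos _).ne'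
    rw [mon_eq _ (hm.unimod σ), mon_eq _ (hm.unimod σ₀)] at h
    simp only [Fin.sum_univ_two, Matrix.cons_val_zero, Matrix.cons_val_one, Complex.norm_real,
      Real.norm_eq_abs, Real.abs_exp, Real.log_exp] at h
    change f σ (p.1, (chOf (m σ) (hm.unimod σ)).zp p) =
      f σ₀ (p.1, (chOf (m σ₀) (hm.unimod σ₀)).zp p) -
        (-(b σ 0) / 2 * p.2.1 + -(b σ 1) / 2 * p.2.2) + a σ
    linarith
  have d : ∀ σ u w, D u (D w (((fanOf hm).ch σ).lift (f σ))) = D u (D w Φ) := fun σ u w => by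
    rw [e σ, D2_shift P.sm]
  have hW : ∀ σ, W (((fanOf hm).ch σ).lift (f σ)) = W Φ := fun σ => by simp only [W, d]
  have hR : ∀ σ, RR (((fanOf hm).ch σ).lift (f σ)) = RR Φ := fun σ => by
    simp only [RR, Lap, LL, iW, DD, DDv, d, hW]
  refine ⟨⟨P, fun σ => ?_, fun σ => ?_, fun σ => ?_, fun σ => ?_⟩, fun σ p => ⟨?_, ?_, ?_⟩⟩
  · refine ((((fanOf hm).ch σ).S_comp (k := f σ ∘ em) ((hf σ).comp sm_em)).sub
      (Ch.S_K _ (a σ))).congr ?_
    exact sub_eq_iff_eq_add.mpr (e σ)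
  · refine ⟨fun q => (hess (sl (f σ) (em q).1) (em q).2 0 0).re,
      Complex.reCLM.contDiff.comp ((h2.1 _ (hf σ) 0 0).comp sm_em), fun p => ?_⟩
    rw [← d σ]
    exact d11 h1 _ (hf σ) (hi σ) p
  · refine ⟨fun q => (hess (sl (f σ) (em q).1) (em q).2 1 1).re,
      Complex.reCLM.contDiff.comp ((h2.1 _ (hf σ) 1 1).comp sm_em), fun p => ?_⟩
    rw [← d σ]
    exact d22 h1 _ (hf σ) (hi σ) p
  · refine ⟨fun q => vol (sl (f σ) (em q).1) (em q).2, (sm_vol h2 (hf σ)).comp sm_em,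
      fun q => vol_pos (hp _ _ _), fun p => ?_⟩
    rw [← hW σ]
    exact w_eq h1 _ (hf σ) (hi σ) p
  · rw [e σ]
    rfl
  · rw [← hW σ, w_eq h1 _ (hf σ) (hi σ) p, one_mul, one_mul, mul_right_comm, ← Real.exp_add,
      add_neg_cancel, Real.exp_zero, one_mul]
  · rw [← hR σ]
    exact scal_eq h1 _ (hf σ) (hi σ) (hp σ) h2 p

end Pool.Agent.P.MP_2cea5e_gt
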