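import Pool.Agent.P.MP_2cea5e_gt.Tool

/-!
Smoothness of the complex Hessian in families and invariance of the volume density.
-/

open scoped ContDiff ComplexConjugate

noncomputable section

namespace Pool.Agent.P.MP_2cea5e_gt

namespace Vol

theorem sm_fd {F : ℝ × C2 → ℂ} (h : ContDiff ℝ ∞ F) (v : C2) :
    ContDiff ℝ ∞ fun x : ℝ × C2 => fderiv ℝ (fun z => F (x.1, z)) x.2 v := by
  have h1 : ContDiff ℝ ∞ (Function.uncurry fun (x : ℝ × C2) (z : C2) => F (x.1, z)) :=
    h.comp ((contDiff_fst.comp contDiff_fst).prodMk contDiff_snd)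
  exact (h1.fderiv (n := ∞) contDiff_snd (by simp)).clm_apply contDiff_const

theorem sm_dz {F : ℝ × C2 → ℂ} (h : ContDiff ℝ ∞ F) (j : Fin 2) :
    ContDiff ℝ ∞ fun x : ℝ × C2 => dz j (fun z => F (x.1, z)) x.2 :=
  ((sm_fd h _).sub (contDiff_const.mul (sm_fd h _))).div_const _

theorem sm_dzb {F : ℝ × C2 → ℂ} (h : ContDiff ℝ ∞ F) (j : Fin 2) :
    ContDiff ℝ ∞ fun x : ℝ × C2 => dzb j (fun z => F (x.1, z)) x.2 :=
  ((sm_fd h _).add (contDiff_const.mul (sm_fd h _))).div_const _

theorem lin_single (A : C2 →L[ℝ] ℂ) (j : Fin 2) (c : ℂ) :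
    A (Pi.single j c) = c.re * A (Pi.single j 1) + c.im * A (Pi.single j Complex.I) := by
  have : (Pi.single j c : C2)
      = c.re • (Pi.single j 1 : C2) + c.im • (Pi.single j Complex.I : C2) := by
    rw [← Pi.single_smul, ← Pi.single_smul, ← Pi.single_add]
    simp
  rw [this, map_add, map_smul, map_smul, Complex.real_smul, Complex.real_smul]

theorem fderiv_rot {g : C2 → ℂ} (hg : Differentiable ℝ g) (a : ℂ) (θ z : C2) (j : Fin 2) (c : ℂ) :
    fderiv ℝ (fun w => a * g (θ * w)) z (Pi.single j c)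
      = a * fderiv ℝ g (θ * z) (Pi.single j (θ j * c)) := by
  have h := ((hg (θ * z)).hasFDerivAt.comp z
    (ContinuousLinearMap.mul ℝ C2 θ).hasFDerivAt).const_mul a
  have e : θ * Pi.single j c = Pi.single j (θ j * c) := by
    funext k
    by_cases hk : k = j
    · subst hk; simp
    · simp [hk]
  exact (congrArg (fun A : C2 →L[ℝ] ℂ => A (Pi.single j c)) h.fderiv).trans (by simp [e])

theorem dz_rot {g : C2 → ℂ} (hg : Differentiable ℝ g) (a : ℂ) (θ z : C2) (j : Fin 2) :
    dz j (fun w => a * g (θ * w)) z = a * θ j * dz j g (θ * z) := by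
  rw [dz, dz, fderiv_rot hg, fderiv_rot hg, lin_single _ j (θ j * 1),
    lin_single _ j (θ j * Complex.I)]
  conv_rhs => rw [← Complex.re_add_im (θ j)]
  simp only [mul_one, Complex.mul_I_re, Complex.mul_I_im, Complex.ofReal_neg]
  linear_combination (a * (θ j).im * fderiv ℝ g (θ * z) (Pi.single j Complex.I) / 2) *
    Complex.I_mul_I

theorem dzb_rot {g : C2 → ℂ} (hg : Differentiable ℝ g) (θ z : C2) (j : Fin 2) :
    dzb j (fun w => 1 * g (θ * w)) z = conj (θ j) * dzb j g (θ * z) := by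
  rw [dzb, dzb, fderiv_rot hg, fderiv_rot hg, lin_single _ j (θ j * 1),
    lin_single _ j (θ j * Complex.I)]
  conv_rhs => rw [← Complex.re_add_im (θ j)]
  simp only [mul_one, Complex.mul_I_re, Complex.mul_I_im, Complex.ofReal_neg, map_add, map_mul,
    Complex.conj_ofReal, Complex.conj_I]
  linear_combination ((θ j).im * fderiv ℝ g (θ * z) (Pi.single j Complex.I) / 2) *
    Complex.I_mul_I

theorem hess_rot {f : C2 → ℝ} (hf : ContDiff ℝ ∞ f) (hi : Inv f) {θ : C2} (hθ : ∀ j, ‖θ j‖ = 1)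
    (z : C2) (j k : Fin 2) : hess f z j k = conj (θ k) * θ j * hess f (θ * z) j k := by
  have h1 : ContDiff ℝ ∞ fun w => (f w : ℂ) := Complex.ofRealCLM.contDiff.comp hf
  have h2 : ContDiff ℝ ∞ (dzb k fun w => (f w : ℂ)) :=
    (sm_dzb (h1.comp contDiff_snd) k).comp ((contDiff_const (c := (0 : ℝ))).prodMk contDiff_id)
  have h3 : (dzb k fun w => (f w : ℂ))
      = fun w => conj (θ k) * (dzb k fun w => (f w : ℂ)) (θ * w) := by
    funext w
    rw [← dzb_rot (h1.differentiable (by simp))]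
    simp only [hi θ _ hθ, one_mul]
  simp only [hess, Matrix.of_apply]
  rw [← dz_rot (h2.differentiable (by simp)), ← h3]

end Vol

open Vol in
theorem vol_ok : StVol := by
  refine ⟨fun f hf j k => ?_, fun f hf hi θ z hθ => ?_⟩
  · exact sm_dz (sm_dzb (Complex.ofRealCLM.contDiff.comp hf) k) j
  · have h : ∀ j, conj (θ j) * θ j = 1 := fun j => by
      rw [Complex.conj_mul', hθ]; simp
    rw [vol, vol, Matrix.det_fin_two, Matrix.det_fin_two, hess_rot hf hi hθ z 0 0,
      hess_rot hf hi hθ z 1 1, hess_rot hf hi hθ z 0 1, hess_rot hf hi hθ z 1 0]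
    congr 1
    rw [h, h]
    linear_combination (hess f (θ * z) 0 1 * hess f (θ * z) 1 0) *
      (conj (θ 1) * θ 1 * h 0 + h 1)

end Pool.Agent.P.MP_2cea5e_gt
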