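import Pool.Agent.P.MP_2cea5e_gt.Tool

/-!
The integral bound for `(U ^ 2 + R ^ 2 + 1) W` along the flow.
-/

open scoped ContDiff
open MeasureTheory

noncomputable section

namespace Pool.Agent.P.MP_2cea5e_gt

namespace ZZ

/-- Hessian entries vanish along the boundary divisor. -/
def He (F : Fan) (f : X → ℝ) : Prop := Sm f ∧ ∀ σ,
  (F.ch σ).S (1 / 2) 0 (D (F.ch σ).n1 (D (F.ch σ).n1 f)) ∧
  (F.ch σ).S 0 (1 / 2) (D (F.ch σ).n2 (D (F.ch σ).n2 f)) ∧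
  (F.ch σ).S (1 / 2) (1 / 2) (D (F.ch σ).n1 (D (F.ch σ).n2 f))

variable {F : Fan} {φ f g h : X → ℝ} {v : F.ι → ℝ × ℝ}

theorem zero_dv (h2 : StIBP) (hf : He F f) (sg : Sm g) (sh : Sm h)
    (hg : ∀ σ, (F.ch σ).S 0 0 g) (hh : ∀ σ, (F.ch σ).O1 (-1 / 4) (-1 / 4) h) :
    Zero (dv f g h) := by
  refine h2 F f g h hf.1 sg sh fun σ => ⟨1 / 4, by norm_num, ?_, ?_, ?_, ?_⟩
  · exact (((hh σ).mul (hf.2 σ).2.1.toO1).mul (hg σ).gain1.toO1).mono (by norm_num) (by norm_num)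
  · exact (((hh σ).mul (hf.2 σ).2.2.toO1).mul (hg σ).gain2.toO1).mono (by norm_num) (by norm_num)
  · exact (((hh σ).mul (hf.2 σ).1.toO1).mul (hg σ).gain2.toO1).mono (by norm_num) (by norm_num)
  · exact (((hh σ).mul (hf.2 σ).2.2.toO1).mul (hg σ).gain1.toO1).mono (by norm_num) (by norm_num)

theorem he_phi (H : Tor F φ v) : He F φ :=
  ⟨H.pot.sm, fun σ => ⟨(H.h11 σ).low 1 0 (by norm_num) (by norm_num),
    (H.h22 σ).low 0 1 (by norm_num) (by norm_num), H.h12 σ⟩⟩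

theorem he_L (H : Tor F φ v) : He F (LL φ) :=
  ⟨H.pot.smL, fun σ => ⟨H.l11 σ, H.l22 σ, H.l12 σ⟩⟩

theorem he_S (sf : Sm f) (hf : ∀ σ, (F.ch σ).S 0 0 f) : He F f :=
  ⟨sf, fun σ => ⟨(hf σ).h11, (hf σ).h22, (hf σ).h12⟩⟩

theorem up (hf : ∀ σ, (F.ch σ).S 0 0 f) (σ : F.ι) : (F.ch σ).O1 (-1 / 4) (-1 / 4) f :=
  (hf σ).toO1.mono (by norm_num) (by norm_num)

theorem one_S (σ : F.ι) : (F.ch σ).S 0 0 (1 : X → ℝ) := (F.ch σ).S_K 1

theorem U_O1 (H : Tor F φ v) (σ : F.ι) : (F.ch σ).O1 (-1 / 8) (-1 / 8) (UU φ) := by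
  rw [UU_chart (F.ch σ) H.pot.sm (v σ)]
  refine Ch.O1.sub (Ch.O1.add ?_ ?_) ((H.aff σ).toO1.mono (by norm_num) (by norm_num))
  · exact (((F.ch σ).O1_z1 (ε := 1 / 8) (by norm_num)).mul ((H.aff σ).D _).toO1).mono
      (by norm_num) (by norm_num)
  · exact (((F.ch σ).O1_z2 (ε := 1 / 8) (by norm_num)).mul ((H.aff σ).D _).toO1).mono
      (by norm_num) (by norm_num)

theorem UU_O1 (H : Tor F φ v) (σ : F.ι) : (F.ch σ).O1 (-1 / 4) (-1 / 4) (UU φ * UU φ) :=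
  ((U_O1 H σ).mul (U_O1 H σ)).mono (by norm_num) (by norm_num)

end ZZ

open ZZ in
theorem z_ok (h1 : StDom) (h2 : StIBP) (h3 : StGron) : StZ := by
  intro F φ v t τ c T H
  have P := H.tor.pot
  have sR := P.smR
  have sU := P.smU
  have sW := P.smW
  have hR := H.RS
  have hb := H.bS
  have hG := fun σ => H.tor.grS σ (hR σ) (hR σ)
  have hRR : ∀ σ, (F.ch σ).S 0 0 (RR φ * RR φ) := fun σ => (hR σ).mul0 (hR σ)
  have hf : ∀ σ, (F.ch σ).O1 (3 / 4) (3 / 4) ((UU φ * UU φ + RR φ * RR φ + 1) * W φ) := fun σ =>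
    ((((UU_O1 H.tor σ).add (up hRR σ)).add (up one_S σ)).mul (H.tor.w σ).toS.toO1).mono
      (by norm_num) (by norm_num)
  have sf : Sm ((UU φ * UU φ + RR φ * RR φ + 1) * W φ) :=
    sm_mul (sm_add (sm_add (sm_mul sU sU) (sm_mul sR sR)) sm_one) sW
  have z1 := zero_dv h2 (he_phi H.tor) sR (sm_mul sU sU) hR (UU_O1 H.tor)
  have z2 := zero_dv h2 (he_phi H.tor) sR (P.smLap sR) hR (up hb)
  have z3 := zero_dv h2 (he_S sR hR) sR sm_one hR (up one_S)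
  have z4 := zero_dv h2 (he_phi H.tor) (P.smGr sR sR) sm_one hG (up one_S)
  have z5 := zero_dv h2 (he_L H.tor) sR sR hR (up hR)
  have z6 := zero_dv h2 (he_phi H.tor) (P.smLap sR) sR hb (up hR)
  have z7 := zero_dv h2 (he_phi H.tor) sR (sm_mul sR sR) hR (up hRR)
  have z8 := zero_dv h2 (he_phi H.tor) sR sm_one hR (up one_S)
  have hY := (z1.add (((((((z2.Kmul 2).neg.add (z3.Kmul 2)).add (z4.Kmul 2)).sub (z5.Kmul 2)).sub
    (z6.Kmul 2)).sub z7))).add z8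
  refine h3 _ _ t τ (2 + c ^ 2) T sf (h1 F _ fun σ => ⟨3 / 4, by norm_num, (hf σ).2.1⟩)
    (h1 F _ fun σ => ⟨3 / 4, by norm_num, (hf σ).2.2 e0⟩) (fun p => ?_) (by positivity) hY H.dt
    H.eqn.τpos H.tle fun p => ?_
  · have := P.pw p
    simp only [Pi.mul_apply, Pi.add_apply, Pi.one_apply]
    have := mul_self_nonneg (UU φ p)
    have := mul_self_nonneg (RR φ p)
    positivity
  · rw [add_mul, add_mul, one_mul, D_add _ (sm_add (sm_mul (sm_mul sU sU) sW)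
      (sm_mul (sm_mul sR sR) sW)) sW, D_add _ (sm_mul (sm_mul sU sU) sW) (sm_mul (sm_mul sR sR) sW),
      H.eqn.dUUW, H.eqn.dRRW, H.eqn.dW, ← dv_one φ (RR φ)]
    have hτ := H.eqn.τpos p.1
    have hw := P.pw p
    have hs := mul_nonneg (SS_nonneg P (RR φ) 0 p) hw.le
    have key : -(2 * UU φ p * (RR φ p - c)) ≤
        (2 + c ^ 2) * (UU φ p * UU φ p + RR φ p * RR φ p + 1) := by
      nlinarith [sq_nonneg (UU φ p + RR φ p), sq_nonneg (UU φ p - c), sq_nonneg (c * UU φ p),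
        sq_nonneg (c * RR φ p), sq_nonneg (RR φ p)]
    have key2 := mul_le_mul_of_nonneg_right key hw.le
    simp only [Pi.mul_apply, Pi.add_apply, Pi.sub_apply, Pi.neg_apply, K_apply, Tm_apply]
    rw [← mul_add, ← mul_add]
    refine mul_le_mul_of_nonneg_left ?_ hτ.le
    linarith

end Pool.Agent.P.MP_2cea5e_gt
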