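import Pool.Agent.P.MP_2cea5e_gt.Base
import Pool.Agent.P.MP_2cea5e_gt.Conv
import Pool.Agent.P.MP_2cea5e_gt.Core
import Pool.Agent.P.MP_2cea5e_gt.Dich
import Pool.Agent.P.MP_2cea5e_gt.Dom
import Pool.Agent.P.MP_2cea5e_gt.G1
import Pool.Agent.P.MP_2cea5e_gt.Gron
import Pool.Agent.P.MP_2cea5e_gt.Hess
import Pool.Agent.P.MP_2cea5e_gt.IBP
import Pool.Agent.P.MP_2cea5e_gt.Low
import Pool.Agent.P.MP_2cea5e_gt.MainB
import Pool.Agent.P.MP_2cea5e_gt.Mom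
import Pool.Agent.P.MP_2cea5e_gt.NN
import Pool.Agent.P.MP_2cea5e_gt.Polar
import Pool.Agent.P.MP_2cea5e_gt.Poly
import Pool.Agent.P.MP_2cea5e_gt.TorB
import Pool.Agent.P.MP_2cea5e_gt.Vol
import Pool.Agent.P.MP_2cea5e_gt.ZZ

/-!
Assembly of part A.
-/

namespace Pool.Agent.P.MP_2cea5e_gt

theorem poly_all : StPoly := poly_ok g1_ok (ord_ok g1_ok)

theorem z_all : StZ := z_ok dom_ok (ibp_ok dom_ok) gron_ok

theorem n_all : StN := n_ok (ord_ok g1_ok) (dich_ok g1_ok) dom_ok (ibp_ok dom_ok) gron_ok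

theorem core_all : StCore :=
  core_ok z_all n_all (base_ok conv_ok area_ok poly_all) mom_ok (low_ok conv_ok area_ok poly_all)
    g1_ok

theorem main_all : StMain := main_ok core_all (tor_ok hess_ok vol_ok) polar_ok vol_ok

end Pool.Agent.P.MP_2cea5e_gt
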