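import Pool.Agent.P.MP_2cea5e_gt.I.AB
import Pool.Agent.P.MP_2cea5e_gt.I.Abreu
import Pool.Agent.P.MP_2cea5e_gt.I.Alg
import Pool.Agent.P.MP_2cea5e_gt.I.Api
import Pool.Agent.P.MP_2cea5e_gt.I.Approx
import Pool.Agent.P.MP_2cea5e_gt.I.Bk1
import Pool.Agent.P.MP_2cea5e_gt.I.Bk3
import Pool.Agent.P.MP_2cea5e_gt.I.CSa
import Pool.Agent.P.MP_2cea5e_gt.I.Cac
import Pool.Agent.P.MP_2cea5e_gt.I.Chg
import Pool.Agent.P.MP_2cea5e_gt.I.Comp
import Pool.Agent.P.MP_2cea5e_gt.I.Crude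
import Pool.Agent.P.MP_2cea5e_gt.I.Curv
import Pool.Agent.P.MP_2cea5e_gt.I.Cut
import Pool.Agent.P.MP_2cea5e_gt.I.Dyad
import Pool.Agent.P.MP_2cea5e_gt.I.Ener
import Pool.Agent.P.MP_2cea5e_gt.I.Even
import Pool.Agent.P.MP_2cea5e_gt.I.FC
import Pool.Agent.P.MP_2cea5e_gt.I.FG
import Pool.Agent.P.MP_2cea5e_gt.I.FI
import Pool.Agent.P.MP_2cea5e_gt.I.GB
import Pool.Agent.P.MP_2cea5e_gt.I.GI
import Pool.Agent.P.MP_2cea5e_gt.I.GradA
import Pool.Agent.P.MP_2cea5e_gt.I.GradB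
import Pool.Agent.P.MP_2cea5e_gt.I.Green
import Pool.Agent.P.MP_2cea5e_gt.I.IBP1
import Pool.Agent.P.MP_2cea5e_gt.I.IBP2
import Pool.Agent.P.MP_2cea5e_gt.I.Ker1
import Pool.Agent.P.MP_2cea5e_gt.I.Ker2
import Pool.Agent.P.MP_2cea5e_gt.I.Ker3
import Pool.Agent.P.MP_2cea5e_gt.I.Leg
import Pool.Agent.P.MP_2cea5e_gt.I.Loc
import Pool.Agent.P.MP_2cea5e_gt.I.Log
import Pool.Agent.P.MP_2cea5e_gt.I.Mark
import Pool.Agent.P.MP_2cea5e_gt.I.Mark2
import Pool.Agent.P.MP_2cea5e_gt.I.Moll1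
import Pool.Agent.P.MP_2cea5e_gt.I.Moll2
import Pool.Agent.P.MP_2cea5e_gt.I.Moll3
import Pool.Agent.P.MP_2cea5e_gt.I.Osc
import Pool.Agent.P.MP_2cea5e_gt.I.Pert
import Pool.Agent.P.MP_2cea5e_gt.I.RegLL
import Pool.Agent.P.MP_2cea5e_gt.I.RegP
import Pool.Agent.P.MP_2cea5e_gt.I.RegS
import Pool.Agent.P.MP_2cea5e_gt.I.Renorm
import Pool.Agent.P.MP_2cea5e_gt.I.Resc
import Pool.Agent.P.MP_2cea5e_gt.I.Sig
import Pool.Agent.P.MP_2cea5e_gt.I.Soft
import Pool.Agent.P.MP_2cea5e_gt.I.Start0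
import Pool.Agent.P.MP_2cea5e_gt.I.Sup
import Pool.Agent.P.MP_2cea5e_gt.I.Swap
import Pool.Agent.P.MP_2cea5e_gt.I.T1
import Pool.Agent.P.MP_2cea5e_gt.I.Tay
import Pool.Agent.P.MP_2cea5e_gt.I.Trans
import Pool.Agent.P.MP_2cea5e_gt.I.S.Anti
import Pool.Agent.P.MP_2cea5e_gt.I.S.Dr1
import Pool.Agent.P.MP_2cea5e_gt.I.S.Fill
import Pool.Agent.P.MP_2cea5e_gt.I.S.LL
import Pool.Agent.P.MP_2cea5e_gt.I.S.LLa
import Pool.Agent.P.MP_2cea5e_gt.I.S.LLb
import Pool.Agent.P.MP_2cea5e_gt.I.S.LLc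
import Pool.Agent.P.MP_2cea5e_gt.I.S.PL
import Pool.Agent.P.MP_2cea5e_gt.I.S.PLa
import Pool.Agent.P.MP_2cea5e_gt.I.S.PLb
import Pool.Agent.P.MP_2cea5e_gt.I.S.PLb1
import Pool.Agent.P.MP_2cea5e_gt.I.S.PLb2
import Pool.Agent.P.MP_2cea5e_gt.I.S.PLb3
import Pool.Agent.P.MP_2cea5e_gt.I.S.PP1
import Pool.Agent.P.MP_2cea5e_gt.I.S.PPd
import Pool.Agent.P.MP_2cea5e_gt.I.S.PPf
import Pool.Agent.P.MP_2cea5e_gt.I.S.PPg
import Pool.Agent.P.MP_2cea5e_gt.I.S.PPj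
import Pool.Agent.P.MP_2cea5e_gt.I.S.PPv
import Pool.Agent.P.MP_2cea5e_gt.I.S.StartA
import Pool.Agent.P.MP_2cea5e_gt.I.S.StartB
import Pool.Agent.P.MP_2cea5e_gt.I.S.StrA
import Pool.Agent.P.MP_2cea5e_gt.I.S.Strict
import Pool.Agent.P.MP_2cea5e_gt.I.S.Time
import Pool.Agent.P.MP_2cea5e_gt.II.All
import Pool.Agent.P.MP_2cea5e_gt.III.AllIII
import Pool.Agent.P.MP_2cea5e_gt.IV.Final
import Pool.Agent.P.MP_2cea5e_gt.IV.Glue
import Pool.Agent.P.MP_2cea5e_gt.IV.HT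
import Pool.Agent.P.MP_2cea5e_gt.IV.Pot
import Pool.Agent.P.MP_2cea5e_gt.IV.TH

/-!
Assembly of part B: long time existence.
-/

namespace Pool.Agent.P.MP_2cea5e_gt

namespace I

theorem fg : StFG := fg_ok fc_ok
theorem ibp2 : StIBP2 := ibp2_ok ibp1_ok
theorem t1 : StT1 := t1_ok api_ok alg_ok
theorem resc : StResc := resc_ok api_ok alg_ok fc_ok fi_ok fg
theorem curv : StCurv := curv_ok api_ok alg_ok fc_ok
theorem ker3 : StKer3 := ker3_ok ker1_ok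
theorem moll1 : StMoll1 := moll1_ok ker1_ok
theorem moll3 : StMoll3 := moll3_ok ker1_ok ker3
theorem sup : StSup := sup_ok api_ok t1 conc_ok cheb_ok swap_ok
theorem cac : StCac :=
  cac_ok cut_ok api_ok alg_ok ibp2 (gradA_ok api_ok alg_ok ibp1_ok ibp2 tr_ok)
theorem start0 : StStart0 :=
  start0_ok api_ok sup cac (crude_ok cut_ok api_ok alg_ok ibp1_ok ibp2)
theorem comp : StComp :=
  comp_ok api_ok alg_ok (gradB_ok cut_ok api_ok alg_ok ibp1_ok ibp2 tr_ok)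
    (vt_ok api_ok alg_ok tr_ok) moll1 moll3 (mark2_ok ker1_ok ker3 mark_ok)
theorem approx : StApprox :=
  approx_ok II.lin_ok api_ok sup ker3 moll1
    (moll2_ok api_ok alg_ok ibp2 even_ok ker1_ok (ker2_ok ker1_ok) moll1) moll3 comp tay_ok
theorem decay : StDecay :=
  decay_ok fg (renorm_ok api_ok alg_ok fc_ok fi_ok fg approx) (dyad_ok api_ok sup cac resc)
theorem pert : StPert := pert_ok api_ok fc_ok fg
theorem switch : StSwitch := switch_ok api_ok fc_ok fi_ok fg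
theorem regLL : StReg (false, false) :=
  reg_of api_ok resc start0 _ (regLL_ok api_ok sup fc_ok fg decay pert)
theorem regPL : StReg (true, false) :=
  reg_of api_ok resc start0 _ (regPL_ok fg api_ok decay pert switch regLL)
theorem regLP : StReg (false, true) := reg_swap swap_ok regPL
theorem regPP : StReg (true, true) :=
  reg_of api_ok resc start0 _ (regPP_ok fg api_ok decay pert switch regLL regPL regLP)
theorem regAll : ∀ τ, StReg τ
  | (false, false) => regLL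
  | (true, false) => regPL
  | (false, true) => regLP
  | (true, true) => regPP

namespace S4

theorem hc : Core := ⟨api_ok, t1, cheb_ok, fc_ok, fi_ok, fg, swap_ok⟩
theorem time : StTime := time_ok hc (dr1_ok hc)
theorem startAll : StStart :=
  start_ok hc (startLL_ok hc (ll_ok hc (llc_ok hc (lla_ok hc) (llb_ok hc (fill_ok hc)))) time)
    (startPL_ok hc (pl_ok hc (strict_ok hc (strA_ok hc)) (pla_ok hc)
      (plb_ok hc (plb1_ok hc) (plb2_ok hc) (plb3_ok hc (fill_ok hc)))) time)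
    (startPP_ok hc (pp1_ok hc (anti_ok hc) (ppg_ok hc) (ppf_ok hc))
      (ppj_ok hc (ppv_ok hc) (ppd_ok hc (osc2_ok hc) (dr1_ok hc))))

end S4

theorem near : StNear := near_ok api_ok fc_ok fi_ok fg S4.startAll regAll
theorem gb : StGB := gb_ok fc_ok
theorem gi : StGI := gi_ok api_ok fc_ok fi_ok gb (loc_ok ibp2 fc_ok fi_ok fg)
theorem soft : StSoft := soft_ok api_ok fc_ok fg gb gi
theorem cs : StCS :=
  cs_ok api_ok curv chg_ok abreu_ok (logB_ok chg_ok) soft (ener_ok api_ok fc_ok curv gb gi soft)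
theorem trans : StTrans := trans_ok log_ok
theorem back : StBack :=
  back_ok (bk1_ok api_ok alg_ok fc_ok fg abreu_ok) (bk2_ok api_ok alg_ok fc_ok fg abreu_ok chg_ok)
    bk3_ok
theorem osc : StOsc :=
  osc_ok (osc1_ok log_ok trans (ab_ok trans)
    (leg_ok even_ok chg_ok abreu_ok (sig_ok even_ok chg_ok)) glc_ok cs near back fg)

end I

theorem long_all : StLong := II.long_of III.short I.osc

theorem final_all : IV.StFinal :=
  IV.final_of long_all IV.pot_ok IV.ht_ok (IV.glue_ok IV.ht_ok) IV.th_ok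

end Pool.Agent.P.MP_2cea5e_gt
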