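import Pool.Agent.P.MP_2cea5e_gt.Tool

/-!
Package 10: the bound for the potential at the base point.
-/

open scoped ENNReal
open MeasureTheory

noncomputable section

namespace Pool.Agent.P.MP_2cea5e_gt

namespace BaseP

theorem UU_eq (φ : X → ℝ) (s : ℝ) (ξ : ℝ × ℝ) :
    UU φ (s, ξ) = ip (grad φ (s, ξ)) ξ - φ (s, ξ) := by
  simp only [UU, ip, grad, Pi.add_apply, Pi.sub_apply, Pi.mul_apply, Li_apply]
  ring

theorem markov (h2 : StArea) {φ : X → ℝ} (P : Pot φ) {s B L : ℝ} (hL : 0 < L)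
    (hi : Integrable (fun ξ : ℝ × ℝ => (UU φ * UU φ * W φ) (s, ξ)))
    (hB : ∫ ξ : ℝ × ℝ, (UU φ * UU φ * W φ) (s, ξ) ≤ B) {A : Set (ℝ × ℝ)} (hA : MeasurableSet A)
    (hU : ∀ ξ ∈ A, L ^ 2 ≤ UU φ (s, ξ) * UU φ (s, ξ)) :
    volume ((fun ξ => grad φ (s, ξ)) '' A) ≤ ENNReal.ofReal (B / L ^ 2) := by
  have hL2 : 0 < L ^ 2 := by positivity
  have hnn : ∀ ξ : ℝ × ℝ, 0 ≤ (UU φ * UU φ * W φ) (s, ξ) / L ^ 2 := fun ξ => by
    simp only [Pi.mul_apply]
    exact div_nonneg (mul_nonneg (mul_self_nonneg _) (P.pw _).le) hL2.le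
  calc volume ((fun ξ => grad φ (s, ξ)) '' A)
      ≤ ∫⁻ ξ in A, ENNReal.ofReal (W φ (s, ξ)) := h2 φ P s A hA
    _ ≤ ∫⁻ ξ in A, ENNReal.ofReal ((UU φ * UU φ * W φ) (s, ξ) / L ^ 2) := by
        refine setLIntegral_mono' hA fun ξ hξ => ENNReal.ofReal_le_ofReal ?_
        rw [le_div_iff₀ hL2]
        simp only [Pi.mul_apply]
        have := mul_le_mul_of_nonneg_right (hU ξ hξ) (P.pw (s, ξ)).le
        linarith
    _ ≤ ∫⁻ ξ, ENNReal.ofReal ((UU φ * UU φ * W φ) (s, ξ) / L ^ 2) :=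
        setLIntegral_le_lintegral _ _
    _ = ENNReal.ofReal (∫ ξ : ℝ × ℝ, (UU φ * UU φ * W φ) (s, ξ) / L ^ 2) :=
        (ofReal_integral_eq_lintegral_ofReal (hi.div_const _) (Filter.Eventually.of_forall hnn)).symm
    _ ≤ ENNReal.ofReal (B / L ^ 2) := by
        rw [integral_div]
        exact ENNReal.ofReal_le_ofReal (div_le_div_of_nonneg_right hB hL2.le)

theorem vol_half (x : ℝ × ℝ) (S : Set (ℝ × ℝ)) :
    volume S = 4 * volume (AffineMap.homothety x (1 / 2 : ℝ) '' S) := by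
  rw [Measure.addHaar_image_homothety, ← mul_assoc]
  have h : Module.finrank ℝ (ℝ × ℝ) = 2 := by simp
  rw [h]
  have h4 : (4 : ℝ≥0∞) * ENNReal.ofReal |(1 / 2 : ℝ) ^ 2| = 1 := by
    rw [show (4 : ℝ≥0∞) = ENNReal.ofReal 4 by simp, ← ENNReal.ofReal_mul (by norm_num)]
    norm_num
  rw [h4, one_mul]

end BaseP

open BaseP in
theorem base_ok (h1 : StConv) (h2 : StArea) (h3 : StPoly) : StBase := by
  intro F φ v H B
  obtain ⟨hg, hs, hc, -, x0, r, hr, hb⟩ := h3 F φ v H
  have P := H.pot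
  obtain ⟨σ, -⟩ := F.cover 0
  have hBl : Metric.ball x0 r ⊆ Pint v := fun y hy => by
    simpa using hb σ 1 one_pos le_rfl y hy
  have hV0 : 0 < volume (Metric.ball x0 r) := Metric.measure_ball_pos _ _ hr
  have hV1 : volume (Metric.ball x0 r) ≠ ⊤ := measure_ball_lt_top.ne
  have hv0 : 0 < (volume (Metric.ball x0 r)).toReal := ENNReal.toReal_pos hV0.ne' hV1
  refine ⟨Real.sqrt (68 * B / (volume (Metric.ball x0 r)).toReal), fun s hi hB => ?_⟩
  have hB0 : 0 ≤ B := le_trans (integral_nonneg fun ξ => by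
    simp only [Pi.mul_apply]
    exact mul_nonneg (mul_self_nonneg _) (P.pw _).le) hB
  have hUc : Continuous fun ξ : ℝ × ℝ => UU φ (s, ξ) := cont_slice P.smU.cont s
  have fin : ∀ L : ℝ, 0 < L → volume (Metric.ball x0 r) ≤ ENNReal.ofReal (68 * B / L ^ 2) →
      L ^ 2 ≤ 68 * B / (volume (Metric.ball x0 r)).toReal := by
    intro L hL h
    have h' := ENNReal.toReal_le_of_le_ofReal (by positivity) h
    rw [le_div_iff₀ (by positivity)] at h'
    rw [le_div_iff₀ hv0]
    linarith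
  apply Real.abs_le_sqrt
  rcases lt_trichotomy (φ (s, 0)) 0 with hneg | hz | hpos
  · have hL : 0 < -φ (s, 0) := by linarith
    have h := markov h2 P hL hi hB MeasurableSet.univ fun ξ _ => by
      have h := h1 φ P s ξ 0
      simp only [ip, Prod.fst_zero, Prod.snd_zero, mul_zero, add_zero, zero_sub] at h
      nlinarith
    have hsub : Metric.ball x0 r ⊆ (fun ξ => grad φ (s, ξ)) '' Set.univ := fun y hy => by
      obtain ⟨ξ, hξ⟩ := hs y (hBl hy) s
      exact ⟨ξ, trivial, hξ⟩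
    have := fin _ hL (((measure_mono hsub).trans h).trans (ENNReal.ofReal_le_ofReal (by
      apply div_le_div_of_nonneg_right _ (by positivity)
      linarith)))
    simpa using this
  · rw [hz, sq, mul_zero]; positivity
  · set L := φ (s, 0) with hLd
    have hU0 : UU φ (s, 0) = -L := by
      rw [UU_eq]; simp [ip, hLd]
    have hA1 := markov h2 P (L := L / 2) (by positivity) hi hB
      (A := {ξ | L / 2 < UU φ (s, ξ)}) (isOpen_lt continuous_const hUc).measurableSet
      fun ξ hξ => by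
        have hξ' : L / 2 < UU φ (s, ξ) := hξ
        nlinarith
    have hA2 := markov h2 P (L := L / 4) (by positivity) hi hB
      (A := {ξ | UU φ (s, ξ) ≤ -(L / 4)}) (isClosed_le hUc continuous_const).measurableSet
      fun ξ hξ => by
        have hξ' : UU φ (s, ξ) ≤ -(L / 4) := hξ
        nlinarith
    set A1 := (fun ξ => grad φ (s, ξ)) '' {ξ | L / 2 < UU φ (s, ξ)} with hA1d
    set A2 := (fun ξ => grad φ (s, ξ)) '' {ξ | UU φ (s, ξ) ≤ -(L / 4)} with hA2d
    have hsub : AffineMap.homothety (grad φ (s, 0)) (1 / 2 : ℝ) '' (Metric.ball x0 r \ A1) ⊆ A2 := by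
      rintro _ ⟨y, ⟨hy, hy1⟩, rfl⟩
      obtain ⟨ξy, hξy⟩ := hs y (hBl hy) s
      have hUy : UU φ (s, ξy) ≤ L / 2 := by
        by_contra hcon
        exact hy1 ⟨ξy, not_le.mp hcon, hξy⟩
      have hm : AffineMap.homothety (grad φ (s, 0)) (1 / 2 : ℝ) y =
          (1 / 2 : ℝ) • grad φ (s, 0) + (1 / 2 : ℝ) • y := by
        rw [AffineMap.homothety_apply]
        ext <;> simp <;> ring
      have hmP : (1 / 2 : ℝ) • grad φ (s, 0) + (1 / 2 : ℝ) • y ∈ Pint v :=
        hc (hg _) (hBl hy) (by norm_num) (by norm_num) (by norm_num)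
      obtain ⟨ξm, hξm⟩ := hs _ hmP s
      refine ⟨ξm, ?_, by rw [hm]; exact hξm⟩
      have e1 := h1 φ P s 0 ξm
      have e2 := h1 φ P s ξy ξm
      have e3 := UU_eq φ s ξm
      rw [hξm] at e3
      rw [hξy] at e2
      rw [hU0] at e1
      simp only [ip, Prod.fst_add, Prod.snd_add, Prod.smul_fst, Prod.smul_snd, smul_eq_mul]
        at e1 e2 e3
      show UU φ (s, ξm) ≤ -(L / 4)
      linarith
    apply fin L hpos
    calc volume (Metric.ball x0 r) ≤ volume (A1 ∪ (Metric.ball x0 r \ A1)) :=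
          measure_mono fun y hy => by
            by_cases h : y ∈ A1
            · exact Or.inl h
            · exact Or.inr ⟨hy, h⟩
      _ ≤ volume A1 + volume (Metric.ball x0 r \ A1) := measure_union_le _ _
      _ ≤ ENNReal.ofReal (B / (L / 2) ^ 2) + 4 * ENNReal.ofReal (B / (L / 4) ^ 2) := by
          refine add_le_add hA1 ?_
          rw [vol_half (grad φ (s, 0))]
          exact mul_le_mul_right ((measure_mono hsub).trans hA2) _
      _ = ENNReal.ofReal (68 * B / L ^ 2) := by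
          rw [show (4 : ℝ≥0∞) = ENNReal.ofReal 4 by simp, ← ENNReal.ofReal_mul (by norm_num),
            ← ENNReal.ofReal_add (by positivity) (by positivity)]
          congr 1
          field_simp
          ring

end Pool.Agent.P.MP_2cea5e_gt
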