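import Pool.Agent.P.MP_2cea5e_gt.Calc

/-!
The Bochner identity for invariant functions in logarithmic coordinates.
-/

open scoped ContDiff

noncomputable section

namespace Pool.Agent.P.MP_2cea5e_gt

/-- Squared norm `tr((g⁻¹T)²)` of the symmetric matrix with entries `a, b, c`. -/
def Q2 (φ a b c : X → ℝ) : X → ℝ :=
  (D e2 (D e2 φ) * D e2 (D e2 φ) * a * a + D e1 (D e1 φ) * D e1 (D e1 φ) * c * c +
    K 2 * (D e1 (D e1 φ) * D e2 (D e2 φ) + D e1 (D e2 φ) * D e1 (D e2 φ)) * b * b +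
    K 2 * D e1 (D e2 φ) * D e1 (D e2 φ) * a * c - K 4 * D e1 (D e2 φ) * D e2 (D e2 φ) * a * b -
    K 4 * D e1 (D e2 φ) * D e1 (D e1 φ) * b * c) * iW φ * iW φ

/-- Entry of the tensor `∇∇f + μ ∂f ⊗ ∂f` of type (2,0). -/
def TT (φ f : X → ℝ) (μ : ℝ) (u v : X) : X → ℝ :=
  D u (D v f) - Gr φ (D u (D v φ)) f + K μ * D u f * D v f

/-- Squared norm of `∇∇f + μ ∂f ⊗ ∂f`. -/
def SS (φ f : X → ℝ) (μ : ℝ) : X → ℝ :=
  Q2 φ (TT φ f μ e1 e1) (TT φ f μ e1 e2) (TT φ f μ e2 e2)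

variable {φ f : X → ℝ}

theorem Q2_nonneg (P : Pot φ) (a b c : X → ℝ) (p : X) : 0 ≤ Q2 φ a b c p := by
  have h1 := P.p11 p
  have h2 := P.pw p
  simp only [Q2, iW, Iv_apply, W, Pi.add_apply, Pi.sub_apply, Pi.mul_apply, K_apply] at h2 ⊢
  set A := D e1 (D e1 φ) p
  set B := D e1 (D e2 φ) p
  set C := D e2 (D e2 φ) p
  set x := a p
  set y := b p
  set z := c p
  have key : (C * C * x * x + A * A * z * z + 2 * (A * C + B * B) * y * y + 2 * B * B * x * z -
      4 * B * C * x * y - 4 * B * A * y * z) * (A * C - B * B)⁻¹ * (A * C - B * B)⁻¹ =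
      x ^ 2 / A ^ 2 + 2 * (A * y - B * x) ^ 2 / (A ^ 2 * (A * C - B * B)) +
        (A ^ 2 * z - 2 * A * B * y + B ^ 2 * x) ^ 2 / (A * (A * C - B * B)) ^ 2 := by
    have := h1.ne'
    have := h2.ne'
    generalize hw : A * C - B * B = w at *
    have hC : C = (w + B * B) / A := by field_simp; linarith
    rw [hC]
    field_simp
    ring
  rw [key]
  positivity

theorem SS_nonneg (P : Pot φ) (f : X → ℝ) (μ : ℝ) (p : X) : 0 ≤ SS φ f μ p := Q2_nonneg P _ _ _ p

/-- The (1,1) part of the Hessian dominates half the square of the Laplacian. -/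
theorem half_lap_sq (P : Pot φ) (f : X → ℝ) (p : X) :
    DD f f p * iW φ p ≤ Lap φ f p ^ 2 / 2 := by
  have h1 := P.p11 p
  have h2 := P.pw p
  simp only [Lap, DD, DDv, iW, Iv_apply, W, Pi.add_apply, Pi.sub_apply, Pi.mul_apply,
    K_apply] at h2 ⊢
  set A := D e1 (D e1 φ) p
  set B := D e1 (D e2 φ) p
  set C := D e2 (D e2 φ) p
  set x := D e1 (D e1 f) p
  set y := D e1 (D e2 f) p
  set z := D e2 (D e2 f) p
  have key : ((A * z + C * x - 2 * B * y) * (A * C - B * B)⁻¹) ^ 2 / 2 -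
      (x * z + z * x - 2 * y * y) * (A * C - B * B)⁻¹ =
      (x / A - (A ^ 2 * z - 2 * A * B * y + B ^ 2 * x) / (A * (A * C - B * B))) ^ 2 / 2 +
        2 * (A * y - B * x) ^ 2 / (A ^ 2 * (A * C - B * B)) := by
    have := h1.ne'
    have := h2.ne'
    generalize hw : A * C - B * B = w at *
    have hC : C = (w + B * B) / A := by field_simp; linarith
    rw [hC]
    field_simp
    ring
  have : 0 ≤ (x / A - (A ^ 2 * z - 2 * A * B * y + B ^ 2 * x) / (A * (A * C - B * B))) ^ 2 / 2 +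
        2 * (A * y - B * x) ^ 2 / (A ^ 2 * (A * C - B * B)) := by positivity
  linarith

theorem Gr_nonneg (P : Pot φ) (f : X → ℝ) (p : X) : 0 ≤ Gr φ f f p := by
  have h1 := P.p11 p
  have h2 := P.pw p
  simp only [Gr, BB, BBv, iW, Iv_apply, W, Pi.add_apply, Pi.sub_apply, Pi.mul_apply] at h2 ⊢
  set A := D e1 (D e1 φ) p
  set B := D e1 (D e2 φ) p
  set C := D e2 (D e2 φ) p
  set x := D e1 f p
  set y := D e2 f p
  have key : (C * x * x + A * y * y - B * (x * y + y * x)) * (A * C - B * B)⁻¹ =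
      x ^ 2 / A + (A * y - B * x) ^ 2 / (A * (A * C - B * B)) := by
    have := h1.ne'
    have := h2.ne'
    generalize hw : A * C - B * B = w at *
    have hC : C = (w + B * B) / A := by field_simp; linarith
    rw [hC]
    field_simp
    ring
  rw [key]
  positivity

theorem c21 (hf : Sm f) : D e2 (D e1 f) = D e1 (D e2 f) := D_comm _ _ hf

set_option maxRecDepth 100000 in
theorem bochner (P : Pot φ) (hf : Sm f) (μ : ℝ) :
    SS φ f μ = Lap φ (Gr φ f f) - (Lap φ f * Lap φ f - DD f f * iW φ) -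
      (RR φ * Gr φ f f + BB (LL φ) f f * iW φ) - K 2 * Gr φ f (Lap φ f) +
      K 2 * K μ * (Gr φ (Gr φ f f) f - (Lap φ f * Gr φ f f - BB f f f * iW φ)) +
      K μ * K μ * Gr φ f f * Gr φ f f := by
  have hφ := P.sm
  have hi := P.smiW
  have hW := P.smW
  simp (disch := repeat' with_reducible (first | assumption | apply sm_add | apply sm_sub | apply sm_mul | apply sm_neg | apply sm_D | apply sm_K)) only
    [SS, Q2, TT, RR, Lap, Gr, DD, DDv, BB, BBv, P.D_L, P.D_iW, D_add, D_sub, D_mul, D_neg, D_K]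
  simp (disch := repeat' with_reducible (first | assumption | apply sm_add | apply sm_sub | apply sm_mul | apply sm_neg | apply sm_D | apply sm_K)) only
    [W, D_add, D_sub, D_mul, c21]
  funext p
  have hw := P.wne p
  simp only [iW, Iv_apply, W, Pi.add_apply, Pi.sub_apply, Pi.mul_apply, Pi.neg_apply, K_apply,
    Pi.zero_apply] at hw ⊢
  generalize D e1 (D e1 (D e1 (D e1 φ))) p = a40, D e1 (D e1 (D e1 (D e2 φ))) p = a31,
    D e1 (D e1 (D e2 (D e2 φ))) p = a22, D e1 (D e2 (D e2 (D e2 φ))) p = a13,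
    D e2 (D e2 (D e2 (D e2 φ))) p = a04, D e1 (D e1 (D e1 φ)) p = a30,
    D e1 (D e1 (D e2 φ)) p = a21, D e1 (D e2 (D e2 φ)) p = a12, D e2 (D e2 (D e2 φ)) p = a03,
    D e1 (D e1 (D e1 f)) p = f30, D e1 (D e1 (D e2 f)) p = f21, D e1 (D e2 (D e2 f)) p = f12,
    D e2 (D e2 (D e2 f)) p = f03, D e1 (D e1 f) p = f20, D e1 (D e2 f) p = f11,
    D e2 (D e2 f) p = f02, D e1 f p = f10, D e2 f p = f01
  generalize D e1 (D e1 φ) p = A at *
  generalize D e1 (D e2 φ) p = B at *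
  generalize D e2 (D e2 φ) p = C at *
  generalize hw' : A * C - B * B = w at hw ⊢
  field_simp
  subst hw'
  ring

end Pool.Agent.P.MP_2cea5e_gt
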