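import Mathlib

/-!
Calculus on `X = ℝ × ℝ × ℝ` (time, two logarithmic coordinates).
-/

open scoped ContDiff

noncomputable section

namespace Pool.Agent.P.MP_2cea5e_gt

abbrev X := ℝ × ℝ × ℝ

abbrev Sm (f : X → ℝ) : Prop := ContDiff ℝ ∞ f

/-- Directional derivative. -/
def D (v : X) (f : X → ℝ) : X → ℝ := fun p => fderiv ℝ f p v

def e0 : X := (1, 0, 0)
def e1 : X := (0, 1, 0)
def e2 : X := (0, 0, 1)

/-- Constant function. -/
def K (c : ℝ) : X → ℝ := fun _ => c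
/-- Exponential of a function. -/
def Ex (f : X → ℝ) : X → ℝ := fun p => Real.exp (f p)
/-- Inverse of a function. -/
def Iv (f : X → ℝ) : X → ℝ := fun p => (f p)⁻¹
/-- Logarithm of a function. -/
def Lg (f : X → ℝ) : X → ℝ := fun p => Real.log (f p)
/-- A function of time only. -/
def Tm (τ : ℝ → ℝ) : X → ℝ := fun p => τ p.1
/-- The spatial linear form `a ξ₁ + b ξ₂`. -/
def Li (a b : ℝ) : X → ℝ := fun p => a * p.2.1 + b * p.2.2

@[simp] theorem K_apply (c : ℝ) (p : X) : K c p = c := rfl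
theorem Ex_apply (f : X → ℝ) (p : X) : Ex f p = Real.exp (f p) := rfl
theorem Iv_apply (f : X → ℝ) (p : X) : Iv f p = (f p)⁻¹ := rfl
theorem Lg_apply (f : X → ℝ) (p : X) : Lg f p = Real.log (f p) := rfl
theorem Tm_apply (τ : ℝ → ℝ) (p : X) : Tm τ p = τ p.1 := rfl
theorem Li_apply (a b : ℝ) (p : X) : Li a b p = a * p.2.1 + b * p.2.2 := rfl

variable {f g h : X → ℝ}

theorem Sm.diff (hf : Sm f) : Differentiable ℝ f := ContDiff.differentiable hf (by simp)
theorem Sm.cont (hf : Sm f) : Continuous f := ContDiff.continuous hf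

theorem sm_D (v : X) (hf : Sm f) : Sm (D v f) := by
  have h1 : ContDiff ℝ ∞ (fderiv ℝ f) := ContDiff.fderiv_right hf (m := ∞) (by simp)
  exact h1.clm_apply contDiff_const

theorem sm_add (hf : Sm f) (hg : Sm g) : Sm (f + g) := ContDiff.add hf hg
theorem sm_sub (hf : Sm f) (hg : Sm g) : Sm (f - g) := ContDiff.sub hf hg
theorem sm_mul (hf : Sm f) (hg : Sm g) : Sm (f * g) := ContDiff.mul hf hg
theorem sm_neg (hf : Sm f) : Sm (-f) := ContDiff.neg hf
theorem sm_K (c : ℝ) : Sm (K c) := contDiff_const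
theorem sm_zero : Sm (0 : X → ℝ) := contDiff_const
theorem sm_one : Sm (1 : X → ℝ) := contDiff_const
theorem sm_Ex (hf : Sm f) : Sm (Ex f) := ContDiff.exp hf
theorem sm_Iv (hf : Sm f) (h0 : ∀ p, f p ≠ 0) : Sm (Iv f) := ContDiff.inv hf h0
theorem sm_Lg (hf : Sm f) (h0 : ∀ p, f p ≠ 0) : Sm (Lg f) := ContDiff.log hf h0
theorem sm_Tm {τ : ℝ → ℝ} (hτ : ContDiff ℝ ∞ τ) : Sm (Tm τ) := hτ.comp contDiff_fst
theorem sm_Li (a b : ℝ) : Sm (Li a b) := by
  show ContDiff ℝ ∞ fun p : X => a * p.2.1 + b * p.2.2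
  fun_prop

theorem D_add (v : X) (hf : Sm f) (hg : Sm g) : D v (f + g) = D v f + D v g := by
  funext p
  simp only [D, Pi.add_apply]
  rw [fderiv_add (hf.diff p) (hg.diff p)]; rfl

theorem D_sub (v : X) (hf : Sm f) (hg : Sm g) : D v (f - g) = D v f - D v g := by
  funext p
  simp only [D, Pi.sub_apply]
  rw [fderiv_sub (hf.diff p) (hg.diff p)]; rfl

theorem D_neg (v : X) (f : X → ℝ) : D v (-f) = -D v f := by
  funext p
  simp only [D, Pi.neg_apply]
  rw [fderiv_neg]; rfl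

theorem D_mul (v : X) (hf : Sm f) (hg : Sm g) : D v (f * g) = D v f * g + f * D v g := by
  funext p
  simp only [D, Pi.add_apply, Pi.mul_apply]
  rw [fderiv_mul (hf.diff p) (hg.diff p)]
  simp only [add_apply, smul_apply, smul_eq_mul]
  ring

theorem D_K (v : X) (c : ℝ) : D v (K c) = 0 := by
  funext p
  show fderiv ℝ (fun _ : X => c) p v = 0
  simp

theorem D_zero (v : X) : D v (0 : X → ℝ) = 0 := D_K v 0
theorem D_one (v : X) : D v (1 : X → ℝ) = 0 := D_K v 1

theorem D_Ex (v : X) (hf : Sm f) : D v (Ex f) = Ex f * D v f := by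
  funext p
  have := ((hf.diff p).hasFDerivAt.exp).fderiv
  simp only [D, Pi.mul_apply, Ex_apply]
  show fderiv ℝ (fun x => Real.exp (f x)) p v = _
  rw [this]; simp

theorem D_Lg (v : X) (hf : Sm f) (h0 : ∀ p, f p ≠ 0) : D v (Lg f) = D v f * Iv f := by
  funext p
  have := ((hf.diff p).hasFDerivAt.log (h0 p)).fderiv
  simp only [D, Pi.mul_apply, Iv_apply]
  show fderiv ℝ (fun x => Real.log (f x)) p v = _
  rw [this]; simp [mul_comm]

theorem D_Iv (v : X) (hf : Sm f) (h0 : ∀ p, f p ≠ 0) :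
    D v (Iv f) = -(D v f * Iv f * Iv f) := by
  have h1 : Iv f * f = 1 := by
    funext p; simp [Iv_apply, h0 p]
  have h2 := D_mul v (sm_Iv hf h0) hf
  rw [h1, D_one] at h2
  funext p
  have h3 := congrFun h2 p
  simp only [Pi.zero_apply, Pi.add_apply, Pi.mul_apply, Iv_apply, Pi.neg_apply] at h3 ⊢
  have := h0 p
  field_simp
  field_simp at h3
  linarith

theorem D_Li (v : X) (a b : ℝ) : D v (Li a b) = K (a * v.2.1 + b * v.2.2) := by
  funext p
  have h : HasFDerivAt (Li a b)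
      (a • ((ContinuousLinearMap.fst ℝ ℝ ℝ).comp (ContinuousLinearMap.snd ℝ ℝ (ℝ × ℝ))) +
       b • ((ContinuousLinearMap.snd ℝ ℝ ℝ).comp (ContinuousLinearMap.snd ℝ ℝ (ℝ × ℝ)))) p := by
    have := (a • ((ContinuousLinearMap.fst ℝ ℝ ℝ).comp (ContinuousLinearMap.snd ℝ ℝ (ℝ × ℝ))) +
       b • ((ContinuousLinearMap.snd ℝ ℝ ℝ).comp (ContinuousLinearMap.snd ℝ ℝ (ℝ × ℝ)))).hasFDerivAt
       (x := p)
    convert this using 1
    funext q; simp [Li]
  simp only [D, h.fderiv, K_apply]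
  simp

theorem D_Tm (v : X) {τ : ℝ → ℝ} (hτ : ContDiff ℝ ∞ τ) :
    D v (Tm τ) = K v.1 * Tm (deriv τ) := by
  funext p
  have h1 : HasDerivAt τ (deriv τ p.1) p.1 :=
    (ContDiff.differentiable hτ (by simp) p.1).hasDerivAt
  have h2 := h1.hasFDerivAt.comp p (hasFDerivAt_fst (𝕜 := ℝ) (p := p))
  simp only [D, Pi.mul_apply, K_apply, Tm_apply]
  show fderiv ℝ (τ ∘ Prod.fst) p v = _
  rw [h2.fderiv]; simp

theorem D_Tm_sp {v : X} (hv : v.1 = 0) {τ : ℝ → ℝ} (hτ : ContDiff ℝ ∞ τ) : D v (Tm τ) = 0 := by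
  rw [D_Tm v hτ, hv]; funext p; simp

theorem D_comm (u v : X) (hf : Sm f) : D u (D v f) = D v (D u f) := by
  funext p
  have hd : DifferentiableAt ℝ (fderiv ℝ f) p :=
    (ContDiff.differentiable (ContDiff.fderiv_right hf (m := ∞) (by simp)) (by simp)) p
  have key : ∀ a b : X, D a (D b f) p = fderiv ℝ (fderiv ℝ f) p a b := by
    intro a b
    simp only [D]
    show fderiv ℝ (fun q => fderiv ℝ f q b) p a = _
    rw [fderiv_clm_apply hd (differentiableAt_const b)]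
    simp
  rw [key, key]
  exact (ContDiffAt.isSymmSndFDerivAt (ContDiff.contDiffAt hf)
    (by simp only [minSmoothness_of_isRCLikeNormedField]; exact WithTop.coe_le_coe.2 (le_top : ((2 : ℕ) : ℕ∞) ≤ ⊤))).eq u v

/-- Linearity in the direction. -/
theorem D_dir (a b : ℝ) (u v : X) (f : X → ℝ) :
    D (a • u + b • v) f = K a * D u f + K b * D v f := by
  funext p; simp [D]

theorem D_dir3 (v : X) (f : X → ℝ) :
    D v f = K v.1 * D e0 f + K v.2.1 * D e1 f + K v.2.2 * D e2 f := by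
  have hv : v = v.1 • e0 + v.2.1 • e1 + v.2.2 • e2 := by
    ext <;> simp [e0, e1, e2]
  funext p
  simp only [D, Pi.add_apply, Pi.mul_apply, K_apply]
  conv_lhs => rw [hv]
  simp only [map_add, map_smul, smul_eq_mul]

/-- Derivative along a line. -/
theorem hasDerivAt_line (hf : Sm f) (p v : X) (r : ℝ) :
    HasDerivAt (fun r : ℝ => f (p + r • v)) (D v f (p + r • v)) r := by
  have h1 : HasDerivAt (fun r : ℝ => p + r • v) v r := by
    simpa using ((hasDerivAt_id r).smul_const v).const_add p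
  exact (hf.diff (p + r • v)).hasFDerivAt.comp_hasDerivAt r h1

/-- Time derivative. -/
theorem hasDerivAt_time (hf : Sm f) (s : ℝ) (ξ : ℝ × ℝ) :
    HasDerivAt (fun s : ℝ => f (s, ξ)) (D e0 f (s, ξ)) s := by
  have h1 : HasDerivAt (fun s : ℝ => ((s, ξ) : X)) e0 s :=
    (hasDerivAt_id s).prodMk (hasDerivAt_const s ξ)
  exact (hf.diff (s, ξ)).hasFDerivAt.comp_hasDerivAt s h1

/-- Spatial derivative at a fixed time. -/
theorem hasFDerivAt_space (hf : Sm f) (s : ℝ) (ξ : ℝ × ℝ) :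
    HasFDerivAt (fun ξ : ℝ × ℝ => f (s, ξ))
      ((fderiv ℝ f (s, ξ)).comp (ContinuousLinearMap.inr ℝ ℝ (ℝ × ℝ))) ξ :=
  (hf.diff (s, ξ)).hasFDerivAt.comp ξ (hasFDerivAt_prodMk_right s ξ)

theorem fderiv_space (hf : Sm f) (s : ℝ) (ξ η : ℝ × ℝ) :
    fderiv ℝ (fun ξ : ℝ × ℝ => f (s, ξ)) ξ η = D (0, η) f (s, ξ) := by
  rw [(hasFDerivAt_space hf s ξ).fderiv]; rfl

/-! ### The bilinear operators -/

/-- Mixed determinant of the Hessians in the frame `u, v`. -/
def DDv (u v : X) (f g : X → ℝ) : X → ℝ :=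
  D u (D u f) * D v (D v g) + D v (D v f) * D u (D u g) - K 2 * D u (D v f) * D u (D v g)

/-- Cofactor of the Hessian of `f` applied to the gradients of `g` and `h`. -/
def BBv (u v : X) (f g h : X → ℝ) : X → ℝ :=
  D v (D v f) * D u g * D u h + D u (D u f) * D v g * D v h -
    D u (D v f) * (D u g * D v h + D v g * D u h)

def DD (f g : X → ℝ) : X → ℝ := DDv e1 e2 f g
def BB (f g h : X → ℝ) : X → ℝ := BBv e1 e2 f g h

/-- A pure divergence. -/
def dv (f g h : X → ℝ) : X → ℝ := h * DD f g + BB f g h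

/-- Determinant of the spatial Hessian: the volume density. -/
def W (φ : X → ℝ) : X → ℝ := D e1 (D e1 φ) * D e2 (D e2 φ) - D e1 (D e2 φ) * D e1 (D e2 φ)
def iW (φ : X → ℝ) : X → ℝ := Iv (W φ)
def LL (φ : X → ℝ) : X → ℝ := Lg (W φ)
/-- Laplacian of the metric with potential `φ`. -/
def Lap (φ f : X → ℝ) : X → ℝ := DD φ f * iW φ
/-- Inner product of gradients. -/
def Gr (φ f g : X → ℝ) : X → ℝ := BB φ f g * iW φ
/-- Scalar curvature. -/
def RR (φ : X → ℝ) : X → ℝ := -Lap φ (LL φ)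
/-- The symplectic potential as a function of the logarithmic coordinates. -/
def UU (φ : X → ℝ) : X → ℝ := Li 1 0 * D e1 φ + Li 0 1 * D e2 φ - φ

/-- A smooth family of strictly convex potentials. -/
structure Pot (φ : X → ℝ) : Prop where
  sm : Sm φ
  p11 : ∀ p, 0 < D e1 (D e1 φ) p
  pw : ∀ p, 0 < W φ p

theorem sm_DDv (u v : X) (hf : Sm f) (hg : Sm g) : Sm (DDv u v f g) := by
  unfold DDv
  repeat' with_reducible
    first | assumption | apply sm_add | apply sm_sub | apply sm_mul | apply sm_D | apply sm_K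

theorem sm_BBv (u v : X) (hf : Sm f) (hg : Sm g) (hh : Sm h) : Sm (BBv u v f g h) := by
  unfold BBv
  repeat' with_reducible
    first | assumption | apply sm_add | apply sm_sub | apply sm_mul | apply sm_D

theorem sm_DD (hf : Sm f) (hg : Sm g) : Sm (DD f g) := sm_DDv _ _ hf hg
theorem sm_BB (hf : Sm f) (hg : Sm g) (hh : Sm h) : Sm (BB f g h) := sm_BBv _ _ hf hg hh
theorem sm_dv (hf : Sm f) (hg : Sm g) (hh : Sm h) : Sm (dv f g h) :=
  sm_add (sm_mul hh (sm_DD hf hg)) (sm_BB hf hg hh)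

theorem sm_W (hf : Sm f) : Sm (W f) := by
  unfold W
  repeat' with_reducible
    first | assumption | apply sm_add | apply sm_sub | apply sm_mul | apply sm_D

variable {φ : X → ℝ}

theorem Pot.wne (P : Pot φ) (p : X) : W φ p ≠ 0 := (P.pw p).ne'
theorem Pot.smW (P : Pot φ) : Sm (W φ) := sm_W P.sm
theorem Pot.smiW (P : Pot φ) : Sm (iW φ) := sm_Iv P.smW P.wne
theorem Pot.smL (P : Pot φ) : Sm (LL φ) := sm_Lg P.smW P.wne
theorem Pot.smLap (P : Pot φ) (hf : Sm f) : Sm (Lap φ f) := sm_mul (sm_DD P.sm hf) P.smiW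
theorem Pot.smGr (P : Pot φ) (hf : Sm f) (hg : Sm g) : Sm (Gr φ f g) :=
  sm_mul (sm_BB P.sm hf hg) P.smiW
theorem Pot.smR (P : Pot φ) : Sm (RR φ) := sm_neg (P.smLap P.smL)
theorem Pot.smU (P : Pot φ) : Sm (UU φ) :=
  sm_sub (sm_add (sm_mul (sm_Li _ _) (sm_D _ P.sm)) (sm_mul (sm_Li _ _) (sm_D _ P.sm))) P.sm
theorem Pot.D_iW (P : Pot φ) (v : X) : D v (iW φ) = -(D v (W φ) * iW φ * iW φ) :=
  D_Iv v P.smW P.wne
theorem Pot.D_L (P : Pot φ) (v : X) : D v (LL φ) = D v (W φ) * iW φ :=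
  D_Lg v P.smW P.wne
theorem Pot.W_iW (P : Pot φ) (p : X) : W φ p * iW φ p = 1 := mul_inv_cancel₀ (P.wne p)
theorem Pot.exL (P : Pot φ) (p : X) : Real.exp (LL φ p) = W φ p := Real.exp_log (P.pw p)

theorem DD_self (φ : X → ℝ) : DD φ φ = K 2 * W φ := by
  funext p; simp only [DD, DDv, W, Pi.add_apply, Pi.sub_apply, Pi.mul_apply, K_apply]; ring

theorem Pot.p22 (P : Pot φ) (p : X) : 0 < D e2 (D e2 φ) p := by
  have h1 := P.p11 p
  have h2 := P.pw p
  simp only [W, Pi.sub_apply, Pi.mul_apply] at h2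
  by_contra hc
  push Not at hc
  nlinarith [mul_self_nonneg (D e1 (D e2 φ) p)]

/-- Second derivative in a spatial frame direction. -/
theorem DD_dir (a b c d : ℝ) (u v : X) (hf : Sm f) :
    D (a • u + b • v) (D (c • u + d • v) f) =
      K (a * c) * D u (D u f) + K (a * d + b * c) * D u (D v f) + K (b * d) * D v (D v f) := by
  rw [D_dir c d, D_dir a b, D_add _ (sm_mul (sm_K _) (sm_D _ hf)) (sm_mul (sm_K _) (sm_D _ hf)),
    D_add _ (sm_mul (sm_K _) (sm_D _ hf)) (sm_mul (sm_K _) (sm_D _ hf)),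
    D_mul _ (sm_K _) (sm_D _ hf), D_mul _ (sm_K _) (sm_D _ hf), D_mul _ (sm_K _) (sm_D _ hf),
    D_mul _ (sm_K _) (sm_D _ hf), D_K, D_K, D_K, D_K, D_comm v u hf]
  funext p; simp only [Pi.add_apply, Pi.mul_apply, K_apply, Pi.zero_apply]; ring

theorem DDv_change (a b c d : ℝ) (u v : X) (hf : Sm f) (hg : Sm g) :
    DDv (a • u + b • v) (c • u + d • v) f g = K ((a * d - b * c) ^ 2) * DDv u v f g := by
  simp only [DDv, DD_dir _ _ _ _ u v hf, DD_dir _ _ _ _ u v hg]
  funext p; simp only [Pi.add_apply, Pi.sub_apply, Pi.mul_apply, K_apply]; ring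

theorem BBv_change (a b c d : ℝ) (u v : X) (hf : Sm f) (g h : X → ℝ) :
    BBv (a • u + b • v) (c • u + d • v) f g h = K ((a * d - b * c) ^ 2) * BBv u v f g h := by
  simp only [BBv, DD_dir _ _ _ _ u v hf, D_dir _ _ u v g, D_dir _ _ u v h]
  funext p; simp only [Pi.add_apply, Pi.sub_apply, Pi.mul_apply, K_apply]; ring

/-- Strict convexity in every spatial direction. -/
theorem Pot.pos_dir (P : Pot φ) {a b : ℝ} (hab : a ≠ 0 ∨ b ≠ 0) (p : X) :
    0 < D (0, a, b) (D (0, a, b) φ) p := by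
  have hv : ((0, a, b) : X) = a • e1 + b • e2 := by ext <;> simp [e1, e2]
  rw [hv, DD_dir _ _ _ _ _ _ P.sm]
  have h1 := P.p11 p
  have h2 := P.pw p
  simp only [W, Pi.add_apply, Pi.sub_apply, Pi.mul_apply, K_apply] at h2 ⊢
  set A := D e1 (D e1 φ) p
  set B := D e1 (D e2 φ) p
  set C := D e2 (D e2 φ) p
  have key : A * (a * a * A + (a * b + b * a) * B + b * b * C) =
      (a * A + b * B) ^ 2 + b ^ 2 * (A * C - B * B) := by ring
  have : 0 < (a * A + b * B) ^ 2 + b ^ 2 * (A * C - B * B) := by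
    by_cases hb : b = 0
    · have ha : a ≠ 0 := by tauto
      subst hb
      have : 0 < (a * A) ^ 2 := by positivity
      simpa using this
    · have : 0 < b ^ 2 * (A * C - B * B) := mul_pos (by positivity) h2
      positivity
  rw [← key] at this
  exact (mul_pos_iff_of_pos_left h1).mp this

end Pool.Agent.P.MP_2cea5e_gt
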