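import Mathlib

/-!
Toric surfaces in fan charts, toric Kaehler metrics and the Calabi flow (potential form).
-/

open scoped ContDiff ComplexOrder

noncomputable section

namespace Pool.Agent.P.MP_2cea5e_gt

/-- Coordinates of a chart `ℂ²`. -/
abbrev C2 := Fin 2 → ℂ

/-- Wirtinger derivative `∂/∂z_j`. -/
def dz (j : Fin 2) (f : C2 → ℂ) (z : C2) : ℂ :=
  (fderiv ℝ f z (Pi.single j 1) - Complex.I * fderiv ℝ f z (Pi.single j Complex.I)) / 2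

/-- Wirtinger derivative `∂/∂ z̄_j`. -/
def dzb (j : Fin 2) (f : C2 → ℂ) (z : C2) : ℂ :=
  (fderiv ℝ f z (Pi.single j 1) + Complex.I * fderiv ℝ f z (Pi.single j Complex.I)) / 2

/-- Complex Hessian `∂_j ∂_k̄ f` of a real function. -/
def hess (f : C2 → ℝ) (z : C2) : Matrix (Fin 2) (Fin 2) ℂ :=
  Matrix.of fun j k => dz j (dzb k fun w => (f w : ℂ)) z

/-- Volume density `det (∂_j ∂_k̄ f)` of the metric with potential `f`. -/
def vol (f : C2 → ℝ) (z : C2) : ℝ := (hess f z).det.re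

/-- Scalar curvature `g^{j k̄} R_{j k̄}`, `R_{j k̄} = -∂_j ∂_k̄ log det g`, of `g = ∂∂̄ f`. -/
def scal (f : C2 → ℝ) (z : C2) : ℝ :=
  -((hess f z)⁻¹ * hess (fun w => Real.log (vol f w)) z).trace.re

/-- The chart map on the open torus: `z_j = ∏_k w_k ^ (m j k)`. -/
def mon (m : Matrix (Fin 2) (Fin 2) ℤ) (w : C2) : C2 := fun j => ∏ k, w k ^ m j k

/-- Invariance under the compact torus. -/
def Inv (f : C2 → ℝ) : Prop := ∀ θ z : C2, (∀ j, ‖θ j‖ = 1) → f (θ * z) = f z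

/-- Chart data of a smooth complete fan: unimodular dual bases whose cones cover the plane. -/
structure IsFan {ι : Type} (m : ι → Matrix (Fin 2) (Fin 2) ℤ) : Prop where
  unimod : ∀ σ, IsUnit (m σ).det
  cover : ∀ ξ : Fin 2 → ℝ, ∃ σ, ∀ j, ∑ k, (m σ j k : ℝ) * ξ k ≤ 0

/-- A torus invariant Kaehler metric: one smooth invariant strictly psh potential per chart,
differing on the open torus by pluriharmonic invariant functions. -/
structure IsToricKaehler {ι : Type} (m : ι → Matrix (Fin 2) (Fin 2) ℤ) (ψ : ι → C2 → ℝ) :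
    Prop where
  smooth : ∀ σ, ContDiff ℝ ∞ (ψ σ)
  inv : ∀ σ, Inv (ψ σ)
  pos : ∀ σ z, (hess (ψ σ) z).PosDef
  glue : ∀ σ τ, ∃ (a : ℝ) (b : Fin 2 → ℝ), ∀ w : C2, (∀ k, w k ≠ 0) →
    ψ σ (mon (m σ) w) - ψ τ (mon (m τ) w) = a + ∑ k, b k * Real.log ‖w k‖

/-- A smooth invariant solution of `∂_t φ = κ R(ω + i∂∂̄φ) - c` on `(0,T)`. -/
structure IsCalabiFlow {ι : Type} (m : ι → Matrix (Fin 2) (Fin 2) ℤ) (ψ : ι → C2 → ℝ)
    (κ c T : ℝ) (φ : ℝ → ι → C2 → ℝ) : Prop where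
  smooth : ∀ σ, ContDiffOn ℝ ∞ (fun q : ℝ × C2 => φ q.1 σ q.2) (Set.Ioo 0 T ×ˢ Set.univ)
  inv : ∀ t ∈ Set.Ioo 0 T, ∀ σ, Inv (φ t σ)
  glue : ∀ t ∈ Set.Ioo 0 T, ∀ σ τ, ∀ w : C2, (∀ k, w k ≠ 0) →
    φ t σ (mon (m σ) w) = φ t τ (mon (m τ) w)
  pos : ∀ t ∈ Set.Ioo 0 T, ∀ σ z, (hess (ψ σ + φ t σ) z).PosDef
  flow : ∀ t ∈ Set.Ioo 0 T, ∀ σ z,
    HasDerivAt (fun s => φ s σ z) (κ * scal (ψ σ + φ t σ) z - c) t

end Pool.Agent.P.MP_2cea5e_gt
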