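import Pool.Agent.P.MP_2cea5e_gt.Defs

/-!
Fans with disjoint maximal cones, and solutions of the Calabi flow starting at a given metric.
-/

open scoped ContDiff ComplexOrder

noncomputable section

namespace Pool.Agent.P.MP_2cea5e_gt

/-- A smooth complete fan: the maximal cones have disjoint interiors. -/
structure IsFanD {ι : Type} (m : ι → Matrix (Fin 2) (Fin 2) ℤ) : Prop extends IsFan m where
  disj : ∀ σ τ, σ ≠ τ → ∀ ξ : Fin 2 → ℝ, (∀ j, ∑ k, (m σ j k : ℝ) * ξ k < 0) →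
    ¬∀ j, ∑ k, (m τ j k : ℝ) * ξ k < 0

/-- A smooth invariant solution of `∂_t φ = κ R(ω + i∂∂̄φ) - c`, `φ(0) = 0`, for times in `S`. -/
structure IsSol {ι : Type} (m : ι → Matrix (Fin 2) (Fin 2) ℤ) (ψ : ι → C2 → ℝ)
    (κ c : ℝ) (S : Set ℝ) (φ : ℝ → ι → C2 → ℝ) : Prop where
  smooth : ∀ σ, ContDiffOn ℝ ∞ (fun q : ℝ × C2 => φ q.1 σ q.2) (S ×ˢ Set.univ)
  init : ∀ σ z, φ 0 σ z = 0
  inv : ∀ t ∈ S, ∀ σ, Inv (φ t σ)
  glue : ∀ t ∈ S, ∀ σ τ, ∀ w : C2, (∀ k, w k ≠ 0) →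
    φ t σ (mon (m σ) w) = φ t τ (mon (m τ) w)
  pos : ∀ t ∈ S, ∀ σ z, (hess (ψ σ + φ t σ) z).PosDef
  flow : ∀ t ∈ S, ∀ σ z,
    HasDerivWithinAt (fun s => φ s σ z) (κ * scal (ψ σ + φ t σ) z - c) S t

end Pool.Agent.P.MP_2cea5e_gt
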