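import Pool.Agent.P.MP_2cea5e_gt.Defs2

/-!
Toric Kaehler metrics as tensor fields in the fan charts.
-/

open scoped ContDiff ComplexOrder Matrix

noncomputable section

namespace Pool.Agent.P.MP_2cea5e_gt

/-- A tensor field `g_{j k̄}` on a chart. -/
abbrev Fld := C2 → Matrix (Fin 2) (Fin 2) ℂ

/-- The complex Jacobian `∂ z_j / ∂ w_a` of the chart map `z = mon m w`. -/
def jac (m : Matrix (Fin 2) (Fin 2) ℤ) (w : C2) : Matrix (Fin 2) (Fin 2) ℂ :=
  Matrix.of fun j a => dz a (fun x => mon m x j) w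

/-- The pull back of `g_{j k̄} dz_j dz̄_k` under the chart map. -/
def pb (m : Matrix (Fin 2) (Fin 2) ℤ) (g : Fld) (w : C2) : Matrix (Fin 2) (Fin 2) ℂ :=
  (jac m w)ᵀ * g (mon m w) * (jac m w).map star

/-- Scalar curvature `g^{j k̄} R_{j k̄}`, `R_{j k̄} = -∂_j ∂_k̄ log det g`. -/
def scalG (g : Fld) (z : C2) : ℝ :=
  -((g z)⁻¹ * hess (fun w => Real.log (g w).det.re) z).trace.re

/-- A smooth torus invariant Kaehler metric, given by its components in every chart. -/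
structure IsToricMetric {ι : Type} (m : ι → Matrix (Fin 2) (Fin 2) ℤ) (g : ι → Fld) : Prop where
  smooth : ∀ σ j k, ContDiff ℝ ∞ fun z => g σ z j k
  pos : ∀ σ z, (g σ z).PosDef
  closed : ∀ σ z j k l, dz l (fun w => g σ w j k) z = dz j (fun w => g σ w l k) z
  inv : ∀ σ (θ z : C2), (∀ j, ‖θ j‖ = 1) → ∀ j k, θ j * g σ (θ * z) j k * star (θ k) = g σ z j k
  glue : ∀ σ τ (w : C2), (∀ k, w k ≠ 0) → pb (m σ) (g σ) w = pb (m τ) (g τ) w

end Pool.Agent.P.MP_2cea5e_gt
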