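import Pool.Agent.P.MP_2cea5e_gt.Tool

/-!
Exponential moment bound from the bounds on the cones.
-/

open scoped ContDiff ENNReal
open MeasureTheory

noncomputable section

namespace Pool.Agent.P.MP_2cea5e_gt

namespace Mom

theorem int1 {e : ℝ} (he : 0 < e) : Integrable fun x : ℝ => Real.exp (-e * |x|) := by
  have h1 : IntegrableOn (fun x : ℝ => Real.exp (-e * |x|)) (Set.Iic 0) := by
    refine (integrableOn_exp_mul_Iic he 0).congr_fun (fun x hx => ?_) measurableSet_Iic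
    simp only [abs_of_nonpos (Set.mem_Iic.mp hx)]
    congr 1; ring
  have h2 : IntegrableOn (fun x : ℝ => Real.exp (-e * |x|)) (Set.Ioi 0) := by
    refine (integrableOn_exp_mul_Ioi (a := -e) (by linarith) 0).congr_fun (fun x hx => ?_)
      measurableSet_Ioi
    simp only [abs_of_pos (Set.mem_Ioi.mp hx)]
  have := h1.union h2
  rwa [Set.Iic_union_Ioi, integrableOn_univ] at this

theorem int2 {e : ℝ} (he : 0 < e) :
    Integrable fun ξ : ℝ × ℝ => Real.exp (-e * |ξ.1|) * Real.exp (-e * |ξ.2|) :=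
  (int1 he).mul_prod (int1 he)

theorem cone_bd (κ : Ch) : ∃ C : ℝ, 0 ≤ C ∧ ∀ ξ ∈ κ.cn,
    ‖ξ‖ ≤ C * (-(κ.z1 (0, ξ) + κ.z2 (0, ξ))) := by
  refine ⟨‖κ.n1.2‖ + ‖κ.n2.2‖, by positivity, fun ξ hξ => ?_⟩
  obtain ⟨h1, h2⟩ : κ.z1 (0, ξ) ≤ 0 ∧ κ.z2 (0, ξ) ≤ 0 := hξ
  have h := congrArg Prod.snd (κ.decomp ((0, ξ) : X))
  simp only [zero_smul, zero_add, Prod.snd_add, Prod.smul_snd] at h
  have h3 : ‖ξ‖ ≤ ‖κ.z1 (0, ξ) • κ.n1.2‖ + ‖κ.z2 (0, ξ) • κ.n2.2‖ := by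
    conv_lhs => rw [h]
    exact norm_add_le _ _
  rw [norm_smul, norm_smul, Real.norm_eq_abs, Real.norm_eq_abs, abs_of_nonpos h1,
    abs_of_nonpos h2] at h3
  nlinarith [norm_nonneg κ.n1.2, norm_nonneg κ.n2.2]

theorem unif (F : Fan) : ∃ C : ℝ, 0 < C ∧ ∀ σ, ∀ ξ ∈ (F.ch σ).cn,
    ‖ξ‖ ≤ C * (-((F.ch σ).z1 (0, ξ) + (F.ch σ).z2 (0, ξ))) := by
  have := F.fin
  choose c hc0 hc using fun σ => cone_bd (F.ch σ)
  obtain ⟨M, hM⟩ := Finite.exists_le c
  refine ⟨max M 1, by positivity, fun σ ξ hξ => (hc σ ξ hξ).trans ?_⟩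
  obtain ⟨h1, h2⟩ : (F.ch σ).z1 (0, ξ) ≤ 0 ∧ (F.ch σ).z2 (0, ξ) ≤ 0 := hξ
  exact mul_le_mul_of_nonneg_right ((hM σ).trans (le_max_left _ _)) (by linarith)

theorem ptw {q C L u : ℝ} {ξ : ℝ × ℝ} (hq : 0 < q) (hq1 : q < 1) (hC : 0 < C)
    (hξ : ‖ξ‖ ≤ C * (-u)) :
    Real.exp (q / (2 * C) * ‖ξ‖) * Real.exp L ≤ Real.exp (q * (L - u)) * Real.exp L +
      Real.exp (-((1 - q) / (4 * C)) * |ξ.1|) * Real.exp (-((1 - q) / (4 * C)) * |ξ.2|) := by
  have h0 : ‖ξ‖ / C ≤ -u := by rw [div_le_iff₀ hC]; linarith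
  have h1 : q / (2 * C) * ‖ξ‖ ≤ q * (-u) / 2 := by
    have : q / (2 * C) * ‖ξ‖ = q * (‖ξ‖ / C) / 2 := by field_simp
    rw [this]
    have := mul_le_mul_of_nonneg_left h0 hq.le
    linarith
  by_cases hL : u / 2 ≤ L
  · have : Real.exp (q / (2 * C) * ‖ξ‖) ≤ Real.exp (q * (L - u)) := by
      apply Real.exp_le_exp.mpr
      nlinarith
    have h2 := mul_le_mul_of_nonneg_right this (Real.exp_pos L).le
    have h3 : 0 ≤ Real.exp (-((1 - q) / (4 * C)) * |ξ.1|) *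
      Real.exp (-((1 - q) / (4 * C)) * |ξ.2|) := by positivity
    linarith
  · push Not at hL
    have h3 : 0 ≤ Real.exp (q * (L - u)) * Real.exp L := by positivity
    have h4 : Real.exp (q / (2 * C) * ‖ξ‖) * Real.exp L ≤
        Real.exp (-((1 - q) / (4 * C)) * |ξ.1|) * Real.exp (-((1 - q) / (4 * C)) * |ξ.2|) := by
      rw [← Real.exp_add, ← Real.exp_add]
      apply Real.exp_le_exp.mpr
      have a1 : |ξ.1| ≤ ‖ξ‖ := norm_fst_le ξ
      have a2 : |ξ.2| ≤ ‖ξ‖ := norm_snd_le ξ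
      have a3 : (|ξ.1| + |ξ.2|) / C ≤ 2 * (-u) := by
        rw [div_le_iff₀ hC]; nlinarith
      have a4 : -((1 - q) / (4 * C)) * |ξ.1| + -((1 - q) / (4 * C)) * |ξ.2| =
          -((1 - q) * ((|ξ.1| + |ξ.2|) / C) / 4) := by field_simp; ring
      rw [a4]
      have a5 := mul_le_mul_of_nonneg_left a3 (sub_pos.mpr hq1).le
      nlinarith
    linarith

theorem meas_cn (κ : Ch) : MeasurableSet κ.cn := by
  have h1 : Continuous fun ξ : ℝ × ℝ => κ.z1 (0, ξ) := cont_slice κ.sm_z1.cont 0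
  have h2 : Continuous fun ξ : ℝ × ℝ => κ.z2 (0, ξ) := cont_slice κ.sm_z2.cont 0
  exact ((isClosed_le h1 continuous_const).inter (isClosed_le h2 continuous_const)).measurableSet

end Mom

theorem mom_ok : StMom := by
  intro F q B hq hq1
  have := F.fin
  have := Fintype.ofFinite F.ι
  obtain ⟨C, hC, hb⟩ := Mom.unif F
  have he : 0 < (1 - q) / (4 * C) := div_pos (by linarith) (by positivity)
  set g : ℝ × ℝ → ℝ := fun ξ =>
    Real.exp (-((1 - q) / (4 * C)) * |ξ.1|) * Real.exp (-((1 - q) / (4 * C)) * |ξ.2|) with hg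
  have hgi : Integrable g := Mom.int2 he
  have hg0 : ∀ ξ, 0 ≤ g ξ := fun ξ => by simp only [hg]; positivity
  have hI : ∫⁻ ξ, ENNReal.ofReal (g ξ) = ENNReal.ofReal (∫ ξ, g ξ) :=
    (ofReal_integral_eq_lintegral_ofReal hgi (Filter.Eventually.of_forall hg0)).symm
  have hI0 : 0 ≤ ∫ ξ, g ξ := integral_nonneg hg0
  refine ⟨q / (2 * C), (Fintype.card F.ι : ℝ) * (max B 0 + ∫ ξ, g ξ), by positivity,
    fun φ s P hB => ?_⟩
  have hcov : (Set.univ : Set (ℝ × ℝ)) = ⋃ σ, (F.ch σ).cn := by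
    ext ξ
    simp only [Set.mem_univ, Set.mem_iUnion, true_iff]
    exact F.cover (0, ξ)
  have hσ : ∀ σ, ∫⁻ ξ in (F.ch σ).cn,
      ENNReal.ofReal (Real.exp (q / (2 * C) * ‖ξ‖) * W φ (s, ξ)) ≤
      ENNReal.ofReal (max B 0 + ∫ ξ, g ξ) := by
    intro σ
    have hgm : Measurable fun ξ => ENNReal.ofReal (g ξ) := by
      simp only [hg]; fun_prop
    calc _ ≤ ∫⁻ ξ in (F.ch σ).cn,
          (ENNReal.ofReal ((F.ch σ).den φ q (s, ξ)) + ENNReal.ofReal (g ξ)) := by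
          refine setLIntegral_mono' (Mom.meas_cn _) fun ξ hξ => ?_
          refine le_trans (ENNReal.ofReal_le_ofReal ?_) ENNReal.ofReal_add_le
          have h1 := Mom.ptw (L := LL φ (s, ξ)) hq hq1 hC (hb σ ξ hξ)
          rw [P.exL] at h1
          refine h1.trans (le_of_eq ?_)
          have e1 : (F.ch σ).z1 (0, ξ) = (F.ch σ).z1 (s, ξ) := rfl
          have e2 : (F.ch σ).z2 (0, ξ) = (F.ch σ).z2 (s, ξ) := rfl
          simp only [Ch.den, hg, e1, e2, sub_add_eq_sub_sub]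
      _ = (∫⁻ ξ in (F.ch σ).cn, ENNReal.ofReal ((F.ch σ).den φ q (s, ξ))) +
            ∫⁻ ξ in (F.ch σ).cn, ENNReal.ofReal (g ξ) := lintegral_add_right _ hgm
      _ ≤ ENNReal.ofReal (max B 0) + ENNReal.ofReal (∫ ξ, g ξ) := by
          refine add_le_add ((hB σ).trans (ENNReal.ofReal_le_ofReal (le_max_left _ _))) ?_
          rw [← hI]
          exact setLIntegral_le_lintegral _ _
      _ = _ := (ENNReal.ofReal_add (le_max_right _ _) hI0).symm
  rw [← setLIntegral_univ, hcov]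
  refine (lintegral_iUnion_le _ _).trans ?_
  rw [tsum_fintype]
  refine (Finset.sum_le_sum fun σ _ => hσ σ).trans (le_of_eq ?_)
  rw [Finset.sum_const, Finset.card_univ, nsmul_eq_mul,
    ENNReal.ofReal_mul (Nat.cast_nonneg _), ENNReal.ofReal_natCast]

end Pool.Agent.P.MP_2cea5e_gt
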