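import Pool.Agent.P.MP_2cea5e_gt.St

/-!
Small toolbox on top of the statements.
-/

open scoped ContDiff
open MeasureTheory

noncomputable section

namespace Pool.Agent.P.MP_2cea5e_gt

variable {f g : X → ℝ}

theorem Zero.add (hf : Zero f) (hg : Zero g) : Zero (f + g) := fun s =>
  ⟨(hf s).1.add (hg s).1, by
    simp only [Pi.add_apply]
    rw [integral_add (hf s).1 (hg s).1, (hf s).2, (hg s).2, add_zero]⟩

theorem Zero.Kmul (c : ℝ) (hf : Zero f) : Zero (K c * f) := fun s =>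
  ⟨(hf s).1.const_mul c, by
    simp only [Pi.mul_apply, K_apply]
    rw [integral_const_mul, (hf s).2, mul_zero]⟩

theorem Zero.neg (hf : Zero f) : Zero (-f) := fun s =>
  ⟨(hf s).1.neg, by
    simp only [Pi.neg_apply]
    rw [integral_neg, (hf s).2, neg_zero]⟩

theorem Zero.sub (hf : Zero f) (hg : Zero g) : Zero (f - g) := by
  rw [sub_eq_add_neg]; exact hf.add hg.neg

theorem cont_slice (hf : Continuous f) (s : ℝ) : Continuous fun ξ : ℝ × ℝ => f (s, ξ) :=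
  hf.comp (continuous_const.prodMk continuous_id)

theorem Dom.integrable (h : Dom f) (hf : Continuous f) (s : ℝ) :
    Integrable fun ξ : ℝ × ℝ => f (s, ξ) := by
  obtain ⟨g, hg, hb⟩ := h |s|
  exact hg.mono' (cont_slice hf s).aestronglyMeasurable
    (Filter.Eventually.of_forall fun ξ => hb s ξ le_rfl)

theorem D_Lv (u : X) (v : ℝ × ℝ) : D u (Lv v) = K (Lv v u) := D_Li u _ _

theorem Lv_decomp (κ : Ch) (a b : ℝ) :
    Li a b = K (Li a b κ.n1) * κ.z1 + K (Li a b κ.n2) * κ.z2 := by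
  funext p
  have h := κ.decomp p
  have h1 := congrArg (fun x : X => x.2.1) h
  have h2 := congrArg (fun x : X => x.2.2) h
  simp only [e0, Prod.snd_add, Prod.fst_add, Prod.smul_snd, Prod.smul_fst, smul_eq_mul] at h1 h2
  simp only [Pi.add_apply, Pi.mul_apply, K_apply, Li_apply]
  linear_combination a * h1 + b * h2

theorem D2_subLv {φ : X → ℝ} (hφ : Sm φ) (v : ℝ × ℝ) (u w : X) :
    D u (D w (φ - Lv v)) = D u (D w φ) := by
  rw [D_sub w hφ (sm_Li _ _), D_Lv, D_sub u (sm_D w hφ) (sm_K _), D_K, sub_zero]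

variable {F : Fan} {φ : X → ℝ} {v : F.ι → ℝ × ℝ} {t τ : ℝ → ℝ} {c T : ℝ}

theorem Tor.h12 (H : Tor F φ v) (σ : F.ι) :
    (F.ch σ).S (1 / 2) (1 / 2) (D (F.ch σ).n1 (D (F.ch σ).n2 φ)) :=
  (H.aff σ).h12.congr (D2_subLv H.pot.sm _ _ _)

theorem Tor.iw (H : Tor F φ v) (σ : F.ι) : (F.ch σ).S (-1) (-1) (iW φ) := (H.w σ).iv

theorem Tor.lS (H : Tor F φ v) (σ : F.ι) :
    (F.ch σ).S 0 0 (LL φ - (K 1 * (F.ch σ).z1 + K 1 * (F.ch σ).z2)) := (H.w σ).lg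

theorem Tor.D2L (H : Tor F φ v) (σ : F.ι) (u w : X) :
    D u (D w (LL φ - (K 1 * (F.ch σ).z1 + K 1 * (F.ch σ).z2))) = D u (D w (LL φ)) := by
  rw [D_sub w H.pot.smL ((F.ch σ).sm_lin _ _), Ch.D_lin, D_sub u (sm_D w H.pot.smL) (sm_K _), D_K,
    sub_zero]

theorem Tor.l11 (H : Tor F φ v) (σ : F.ι) :
    (F.ch σ).S (1 / 2) 0 (D (F.ch σ).n1 (D (F.ch σ).n1 (LL φ))) :=
  (H.lS σ).h11.congr (H.D2L σ _ _)
theorem Tor.l22 (H : Tor F φ v) (σ : F.ι) :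
    (F.ch σ).S 0 (1 / 2) (D (F.ch σ).n2 (D (F.ch σ).n2 (LL φ))) :=
  (H.lS σ).h22.congr (H.D2L σ _ _)
theorem Tor.l12 (H : Tor F φ v) (σ : F.ι) :
    (F.ch σ).S (1 / 2) (1 / 2) (D (F.ch σ).n1 (D (F.ch σ).n2 (LL φ))) :=
  (H.lS σ).h12.congr (H.D2L σ _ _)

/-- The gradient square of a smooth function on the surface is smooth on the surface. -/
theorem Tor.grS (H : Tor F φ v) (σ : F.ι) (hf : (F.ch σ).S 0 0 f) (hg : (F.ch σ).S 0 0 g) :
    (F.ch σ).S 0 0 (Gr φ f g) := by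
  have h1 : (F.ch σ).S 1 1 (BB φ f g) := by
    rw [(F.ch σ).BB_eq H.pot.sm, BBv]
    refine Ch.S.sub (Ch.S.add ?_ ?_) ?_
    · exact (((H.h22 σ).mul hf.gain1).mul hg.gain1).cast (by norm_num) (by norm_num)
    · exact (((H.h11 σ).mul hf.gain2).mul hg.gain2).cast (by norm_num) (by norm_num)
    · refine ((H.h12 σ).mul (a' := 1 / 2) (b' := 1 / 2) (Ch.S.add ?_ ?_)).cast (by norm_num)
        (by norm_num)
      · exact (hf.gain1.mul hg.gain2).cast (by norm_num) (by norm_num)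
      · exact (hf.gain2.mul hg.gain1).cast (by norm_num) (by norm_num)
  exact (h1.mul (H.iw σ)).cast (by norm_num) (by norm_num)

theorem Flow.smiτ (H : Flow F φ v t τ c T) : ContDiff ℝ ∞ fun s => (τ s)⁻¹ :=
  H.eqn.smτ.inv fun s => (H.eqn.τpos s).ne'

theorem Flow.RS (H : Flow F φ v t τ c T) (σ : F.ι) : (F.ch σ).S 0 0 (RR φ) := by
  have h1 := (((F.ch σ).S_Tm H.smiτ).mul0 ((H.tor.aff σ).D e0)).add ((F.ch σ).S_K c)
  refine h1.congr ?_
  rw [D_sub _ H.tor.pot.sm (sm_Li _ _), D_Lv, H.eqn.eq]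
  funext p
  have := (H.eqn.τpos p.1).ne'
  simp [Tm_apply, Li_apply, e0]
  field_simp
  ring

theorem Flow.bS (H : Flow F φ v t τ c T) (σ : F.ι) : (F.ch σ).S 0 0 (Lap φ (RR φ)) := by
  have h1 := ((F.ch σ).S_Tm H.smiτ).mul0 ((H.tor.lS σ).D e0)
  refine h1.congr ?_
  rw [D_sub _ H.tor.pot.smL ((F.ch σ).sm_lin _ _), Ch.D_lin, H.eqn.dL, Ch.z1_e0, Ch.z2_e0]
  funext p
  have := (H.eqn.τpos p.1).ne'
  simp [Tm_apply]
  field_simp

/-- The symplectic potential in a chart. -/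
theorem UU_chart (κ : Ch) (hφ : Sm φ) (w : ℝ × ℝ) :
    UU φ = κ.z1 * D κ.n1 (φ - Lv w) + κ.z2 * D κ.n2 (φ - Lv w) - (φ - Lv w) := by
  funext p
  have h1 := congrFun (κ.D_decomp ((0, p.2) : X) (φ - Lv w)) p
  have h2 := congrFun (D_dir3 ((0, p.2) : X) φ) p
  rw [D_sub _ hφ (sm_Li _ _), D_Lv] at h1
  have h3 : κ.z1 ((0, p.2) : X) = κ.z1 p := rfl
  have h4 : κ.z2 ((0, p.2) : X) = κ.z2 p := rfl
  simp only [UU, Pi.add_apply, Pi.sub_apply, Pi.mul_apply, K_apply, Li_apply, h3, h4] at h1 h2 ⊢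
  linarith

end Pool.Agent.P.MP_2cea5e_gt
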